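import Mathlib

/-!
Abstract local one-tape systems: one step reads one input item, looks at and changes the cells at
distance at most `1` from the head, and moves the head by at most `1`.
Cut-and-paste of runs.
-/

namespace Pool.Agent.Lib.MP_e130ca_lc

/-- Configurations: a local state, a head position and the tape. -/
@[ext] structure Cfg (Λ G : Type*) where
  loc : Λ
  pos : ℤ
  tape : ℤ → G

/-- Translation of a configuration. -/
def Cfg.shift {Λ G : Type*} (c : Cfg Λ G) (z : ℤ) : Cfg Λ G :=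
  ⟨c.loc, c.pos + z, fun i => c.tape (i - z)⟩

/-- A local translation-invariant one-tape system reading one item of `W` per step. -/
structure Sys (Λ G W : Type*) where
  step : Cfg Λ G → W → Cfg Λ G
  move : ∀ c w, |(step c w).pos - c.pos| ≤ 1
  frame : ∀ c w i, 1 < |i - c.pos| → (step c w).tape i = c.tape i
  local_step : ∀ c c' w, c.loc = c'.loc → c.pos = c'.pos →
    (∀ i, |i - c.pos| ≤ 1 → c.tape i = c'.tape i) →
    (step c w).loc = (step c' w).loc ∧ (step c w).pos = (step c' w).pos ∧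
      ∀ i, |i - c.pos| ≤ 1 → (step c w).tape i = (step c' w).tape i
  shift_step : ∀ c w z, step (c.shift z) w = (step c w).shift z

/-- Configurations with visit counters. -/
@[ext] structure ECfg (Λ G : Type*) extends Cfg Λ G where
  cnt : ℤ → ℕ

variable {Λ G W : Type*}

/-- One step under the strategy `θ`: the item presented at the `t`-th visit of cell `i` is
`θ i t`. -/
def Sys.estep (M : Sys Λ G W) (θ : ℤ → ℕ → W) (c : ECfg Λ G) : ECfg Λ G :=
  ⟨M.step c.toCfg (θ c.pos (c.cnt c.pos)),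
    fun i => if i = c.pos then c.cnt i + 1 else c.cnt i⟩

theorem Sys.estep_cnt (M : Sys Λ G W) (θ : ℤ → ℕ → W) (c : ECfg Λ G) (i : ℤ) :
    (M.estep θ c).cnt i = if i = c.pos then c.cnt i + 1 else c.cnt i := rfl

theorem Sys.estep_toCfg (M : Sys Λ G W) (θ : ℤ → ℕ → W) (c : ECfg Λ G) :
    (M.estep θ c).toCfg = M.step c.toCfg (θ c.pos (c.cnt c.pos)) := rfl

/-- Positions with a neighbour (or itself) in `S`. -/
def Nb (S : Set ℤ) (i : ℤ) : Prop := ∃ j ∈ S, |j - i| ≤ 1

/-- Shared positions: near `S` and near the complement of `S`. -/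
def Sh (S : Set ℤ) (i : ℤ) : Prop := Nb S i ∧ Nb Sᶜ i

theorem Nb_of_mem {S : Set ℤ} {i : ℤ} (h : i ∈ S) : Nb S i := ⟨i, h, by simp⟩

theorem Nb_of_close {S : Set ℤ} {i p : ℤ} (hp : p ∈ S) (h : |i - p| ≤ 1) : Nb S i :=
  ⟨p, hp, by rwa [abs_sub_comm]⟩

open Classical in
/-- The information recorded when the boundary of `S` is crossed. -/
noncomputable def entry (S : Set ℤ) (c : ECfg Λ G) : Λ × ℤ × (ℤ → Option G) :=
  (c.loc, c.pos, fun i => if Sh S i then some (c.tape i) else none)

theorem entry_eq {S : Set ℤ} {c d : ECfg Λ G} (h : entry S c = entry S d) :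
    c.loc = d.loc ∧ c.pos = d.pos ∧ ∀ i, Sh S i → c.tape i = d.tape i := by
  unfold entry at h
  rw [Prod.mk.injEq, Prod.mk.injEq] at h
  refine ⟨h.1, h.2.1, fun i hi => ?_⟩
  have := congrFun h.2.2 i
  simp only [hi, if_true, Option.some.injEq] at this
  exact this

theorem entry_congr {S : Set ℤ} {c d : ECfg Λ G} (h1 : c.loc = d.loc) (h2 : c.pos = d.pos)
    (h3 : ∀ i, Sh S i → c.tape i = d.tape i) : entry S c = entry S d := by
  unfold entry
  rw [h1, h2]
  congr 2
  funext i
  by_cases hi : Sh S i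
  · simp only [hi, if_true, h3 i hi]
  · simp only [hi, if_false]

open Classical in
/-- The list of boundary crossings of `S` (newest first). -/
noncomputable def recd (S : Set ℤ) (a : ℕ → ECfg Λ G) : ℕ → List (Λ × ℤ × (ℤ → Option G))
  | 0 => []
  | s + 1 => if ((a s).pos ∈ S ↔ (a (s + 1)).pos ∈ S) then recd S a s
      else entry S (a (s + 1)) :: recd S a s

theorem recd_succ_of_iff {S : Set ℤ} {a : ℕ → ECfg Λ G} {s : ℕ}
    (h : (a s).pos ∈ S ↔ (a (s + 1)).pos ∈ S) : recd S a (s + 1) = recd S a s := by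
  rw [recd, if_pos h]

theorem recd_succ_of_not {S : Set ℤ} {a : ℕ → ECfg Λ G} {s : ℕ}
    (h : ¬ ((a s).pos ∈ S ↔ (a (s + 1)).pos ∈ S)) :
    recd S a (s + 1) = entry S (a (s + 1)) :: recd S a s := by
  rw [recd, if_neg h]

/-- Two runs with the same crossing records can be synchronised. -/
inductive Match (S : Set ℤ) (a b : ℕ → ECfg Λ G) : ℕ → ℕ → Prop
  | zero : Match S a b 0 0
  | left {s s' : ℕ} : Match S a b s s' → ((a s).pos ∈ S ↔ (a (s + 1)).pos ∈ S) →
      Match S a b (s + 1) s'
  | right {s s' : ℕ} : Match S a b s s' → ((b s').pos ∈ S ↔ (b (s' + 1)).pos ∈ S) →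
      Match S a b s (s' + 1)
  | cross {s s' : ℕ} : Match S a b s s' → ¬ ((a s).pos ∈ S ↔ (a (s + 1)).pos ∈ S) →
      ¬ ((b s').pos ∈ S ↔ (b (s' + 1)).pos ∈ S) →
      entry S (a (s + 1)) = entry S (b (s' + 1)) → Match S a b (s + 1) (s' + 1)

theorem match_of_recd {S : Set ℤ} {a b : ℕ → ECfg Λ G} :
    ∀ s s' : ℕ, recd S a s = recd S b s' → Match S a b s s' := by
  intro s
  induction s with
  | zero =>
    intro s'
    induction s' with
    | zero => intro _; exact Match.zero
    | succ s' ih =>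
      intro h
      by_cases hb : ((b s').pos ∈ S ↔ (b (s' + 1)).pos ∈ S)
      · rw [recd_succ_of_iff hb] at h
        exact Match.right (ih h) hb
      · rw [recd_succ_of_not hb] at h
        simp [recd] at h
  | succ s ih =>
    intro s'
    by_cases ha : ((a s).pos ∈ S ↔ (a (s + 1)).pos ∈ S)
    · intro h
      rw [recd_succ_of_iff ha] at h
      exact Match.left (ih s' h) ha
    · induction s' with
      | zero =>
        intro h
        rw [recd_succ_of_not ha] at h
        simp [recd] at h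
      | succ s' ih' =>
        intro h
        by_cases hb : ((b s').pos ∈ S ↔ (b (s' + 1)).pos ∈ S)
        · rw [recd_succ_of_iff hb] at h
          exact Match.right (ih' h) hb
        · rw [recd_succ_of_not ha, recd_succ_of_not hb, List.cons.injEq] at h
          exact Match.cross (ih s' h.2) ha hb h.1

open Classical in
/-- The hybrid configuration: inside `S` from `a`, outside from `b`. -/
noncomputable def hyb (S : Set ℤ) (a b : ECfg Λ G) : ECfg Λ G :=
  if a.pos ∈ S then
    ⟨⟨a.loc, a.pos, fun i => if Nb S i then a.tape i else b.tape i⟩,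
      fun i => if i ∈ S then a.cnt i else b.cnt i⟩
  else
    ⟨⟨b.loc, b.pos, fun i => if Nb Sᶜ i then b.tape i else a.tape i⟩,
      fun i => if i ∈ S then a.cnt i else b.cnt i⟩

open Classical in
/-- The hybrid strategy. -/
noncomputable def hybStrat (S : Set ℤ) (θA θB : ℤ → ℕ → W) : ℤ → ℕ → W :=
  fun i t => if i ∈ S then θA i t else θB i t

section hyb
variable {S : Set ℤ} {a b : ECfg Λ G}

theorem hyb_loc_in (h : a.pos ∈ S) : (hyb S a b).loc = a.loc := by simp [hyb, h]
theorem hyb_pos_in (h : a.pos ∈ S) : (hyb S a b).pos = a.pos := by simp [hyb, h]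
theorem hyb_tape_in (h : a.pos ∈ S) {i : ℤ} (hi : Nb S i) : (hyb S a b).tape i = a.tape i := by
  simp [hyb, h, hi]
theorem hyb_tape_in' (h : a.pos ∈ S) {i : ℤ} (hi : ¬ Nb S i) :
    (hyb S a b).tape i = b.tape i := by
  simp [hyb, h, hi]
theorem hyb_loc_out (h : a.pos ∉ S) : (hyb S a b).loc = b.loc := by simp [hyb, h]
theorem hyb_pos_out (h : a.pos ∉ S) : (hyb S a b).pos = b.pos := by simp [hyb, h]
theorem hyb_tape_out (h : a.pos ∉ S) {i : ℤ} (hi : Nb Sᶜ i) :
    (hyb S a b).tape i = b.tape i := by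
  simp [hyb, h, hi]
theorem hyb_tape_out' (h : a.pos ∉ S) {i : ℤ} (hi : ¬ Nb Sᶜ i) :
    (hyb S a b).tape i = a.tape i := by
  simp [hyb, h, hi]
theorem hyb_cnt_in {i : ℤ} (hi : i ∈ S) : (hyb S a b).cnt i = a.cnt i := by
  unfold hyb; split_ifs <;> simp [hi]
theorem hyb_cnt_out {i : ℤ} (hi : i ∉ S) : (hyb S a b).cnt i = b.cnt i := by
  unfold hyb; split_ifs <;> simp [hi]

end hyb

section steps

variable (M : Sys Λ G W) (θA θB : ℤ → ℕ → W) {S : Set ℤ} {a b : ECfg Λ G}

theorem ECfg.ext' {c d : ECfg Λ G} (h1 : c.loc = d.loc) (h2 : c.pos = d.pos)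
    (h3 : ∀ i, c.tape i = d.tape i) (h4 : ∀ i, c.cnt i = d.cnt i) : c = d := by
  apply ECfg.ext h1 h2 (funext h3) (funext h4)

/-- The hybrid makes an inside step. -/
theorem hyb_step_in (ha : a.pos ∈ S) (ha' : (M.estep θA a).pos ∈ S) :
    M.estep (hybStrat S θA θB) (hyb S a b) = hyb S (M.estep θA a) b := by
  classical
  have hpos : (hyb S a b).pos = a.pos := hyb_pos_in ha
  have hw : hybStrat S θA θB (hyb S a b).pos ((hyb S a b).cnt (hyb S a b).pos)
      = θA a.pos (a.cnt a.pos) := by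
    rw [hpos, hyb_cnt_in ha]; simp [hybStrat, ha]
  have hagree : ∀ i, |i - (hyb S a b).pos| ≤ 1 → (hyb S a b).tape i = a.tape i := by
    intro i hi
    rw [hpos] at hi
    exact hyb_tape_in ha (Nb_of_close ha hi)
  obtain ⟨h1, h2, h3⟩ := M.local_step (hyb S a b).toCfg a.toCfg (θA a.pos (a.cnt a.pos))
    (hyb_loc_in ha) hpos hagree
  apply ECfg.ext'
  · rw [hyb_loc_in ha', M.estep_toCfg, M.estep_toCfg, hw]; exact h1
  · rw [hyb_pos_in ha', M.estep_toCfg, M.estep_toCfg, hw]; exact h2
  · intro i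
    by_cases hi : |i - a.pos| ≤ 1
    · rw [hyb_tape_in ha' (Nb_of_close ha hi), M.estep_toCfg, M.estep_toCfg, hw]
      exact h3 i (by rw [hpos]; exact hi)
    · rw [not_le] at hi
      rw [M.estep_toCfg, hw, M.frame _ _ _ (by rw [hpos]; exact hi)]
      by_cases hN : Nb S i
      · rw [hyb_tape_in ha hN, hyb_tape_in ha' hN, M.estep_toCfg, M.frame _ _ _ hi]
      · rw [hyb_tape_in' ha hN, hyb_tape_in' ha' hN]
  · intro i
    rw [M.estep_cnt, hpos]
    by_cases hi : i = a.pos
    · subst hi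
      rw [if_pos rfl, hyb_cnt_in ha, hyb_cnt_in ha, M.estep_cnt, if_pos rfl]
    · rw [if_neg hi]
      by_cases hS : i ∈ S
      · rw [hyb_cnt_in hS, hyb_cnt_in hS, M.estep_cnt, if_neg hi]
      · rw [hyb_cnt_out hS, hyb_cnt_out hS]

/-- An inside step of `b` does not change the hybrid. -/
theorem hyb_skip_in (ha : a.pos ∈ S) (hb : b.pos ∈ S) :
    hyb S a (M.estep θB b) = hyb S a b := by
  classical
  apply ECfg.ext'
  · rw [hyb_loc_in ha, hyb_loc_in ha]
  · rw [hyb_pos_in ha, hyb_pos_in ha]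
  · intro i
    by_cases hN : Nb S i
    · rw [hyb_tape_in ha hN, hyb_tape_in ha hN]
    · rw [hyb_tape_in' ha hN, hyb_tape_in' ha hN, M.estep_toCfg, M.frame]
      by_contra hcon
      rw [not_lt] at hcon
      exact hN (Nb_of_close hb hcon)
  · intro i
    by_cases hS : i ∈ S
    · rw [hyb_cnt_in hS, hyb_cnt_in hS]
    · rw [hyb_cnt_out hS, hyb_cnt_out hS, M.estep_cnt, if_neg]
      rintro rfl
      exact hS hb

/-- The hybrid makes an outside step. -/
theorem hyb_step_out (ha : a.pos ∉ S) (hb : b.pos ∉ S) :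
    M.estep (hybStrat S θA θB) (hyb S a b) =
      ⟨⟨(M.estep θB b).loc, (M.estep θB b).pos, (hyb S a (M.estep θB b)).tape⟩,
        (hyb S a (M.estep θB b)).cnt⟩ := by
  classical
  have hpos : (hyb S a b).pos = b.pos := hyb_pos_out ha
  have hw : hybStrat S θA θB (hyb S a b).pos ((hyb S a b).cnt (hyb S a b).pos)
      = θB b.pos (b.cnt b.pos) := by
    rw [hpos, hyb_cnt_out hb]; simp [hybStrat, hb]
  have hagree : ∀ i, |i - (hyb S a b).pos| ≤ 1 → (hyb S a b).tape i = b.tape i := by
    intro i hi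
    rw [hpos] at hi
    exact hyb_tape_out ha (Nb_of_close (S := Sᶜ) hb hi)
  obtain ⟨h1, h2, h3⟩ := M.local_step (hyb S a b).toCfg b.toCfg (θB b.pos (b.cnt b.pos))
    (hyb_loc_out ha) hpos hagree
  apply ECfg.ext'
  · rw [M.estep_toCfg, hw]; exact h1
  · rw [M.estep_toCfg, hw]; exact h2
  · intro i
    show (M.estep (hybStrat S θA θB) (hyb S a b)).tape i = (hyb S a (M.estep θB b)).tape i
    by_cases hi : |i - b.pos| ≤ 1
    · rw [hyb_tape_out ha (Nb_of_close (S := Sᶜ) hb hi), M.estep_toCfg, M.estep_toCfg, hw]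
      exact h3 i (by rw [hpos]; exact hi)
    · rw [not_le] at hi
      rw [M.estep_toCfg, hw, M.frame _ _ _ (by rw [hpos]; exact hi)]
      by_cases hN : Nb Sᶜ i
      · rw [hyb_tape_out ha hN, hyb_tape_out ha hN, M.estep_toCfg, M.frame _ _ _ hi]
      · rw [hyb_tape_out' ha hN, hyb_tape_out' ha hN]
  · intro i
    show (M.estep (hybStrat S θA θB) (hyb S a b)).cnt i = (hyb S a (M.estep θB b)).cnt i
    rw [M.estep_cnt, hpos]
    by_cases hi : i = b.pos
    · subst hi
      rw [if_pos rfl, hyb_cnt_out hb, hyb_cnt_out hb, M.estep_cnt, if_pos rfl]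
    · rw [if_neg hi]
      by_cases hS : i ∈ S
      · rw [hyb_cnt_in hS, hyb_cnt_in hS]
      · rw [hyb_cnt_out hS, hyb_cnt_out hS, M.estep_cnt, if_neg hi]

theorem hyb_step_out' (ha : a.pos ∉ S) (hb : b.pos ∉ S) :
    M.estep (hybStrat S θA θB) (hyb S a b) = hyb S a (M.estep θB b) := by
  rw [hyb_step_out M θA θB ha hb]
  apply ECfg.ext'
  · rw [hyb_loc_out ha]
  · rw [hyb_pos_out ha]
  · intro i; rfl
  · intro i; rfl

/-- An outside step of `a` does not change the hybrid. -/
theorem hyb_skip_out (ha : a.pos ∉ S) (ha' : (M.estep θA a).pos ∉ S) :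
    hyb S (M.estep θA a) b = hyb S a b := by
  classical
  apply ECfg.ext'
  · rw [hyb_loc_out ha, hyb_loc_out ha']
  · rw [hyb_pos_out ha, hyb_pos_out ha']
  · intro i
    by_cases hN : Nb Sᶜ i
    · rw [hyb_tape_out ha hN, hyb_tape_out ha' hN]
    · rw [hyb_tape_out' ha hN, hyb_tape_out' ha' hN, M.estep_toCfg, M.frame]
      by_contra hcon
      rw [not_lt] at hcon
      exact hN (Nb_of_close (S := Sᶜ) ha hcon)
  · intro i
    by_cases hS : i ∈ S
    · rw [hyb_cnt_in hS, hyb_cnt_in hS, M.estep_cnt, if_neg]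
      rintro rfl
      exact ha hS
    · rw [hyb_cnt_out hS, hyb_cnt_out hS]

/-- Both runs enter `S` with the same entry. -/
theorem hyb_cross_in (ha : a.pos ∉ S) (hb : b.pos ∉ S) (ha' : (M.estep θA a).pos ∈ S)
    (he : entry S (M.estep θA a) = entry S (M.estep θB b)) :
    M.estep (hybStrat S θA θB) (hyb S a b) = hyb S (M.estep θA a) (M.estep θB b) := by
  classical
  obtain ⟨e1, e2, e3⟩ := entry_eq he
  rw [hyb_step_out M θA θB ha hb]
  apply ECfg.ext'
  · rw [hyb_loc_in ha', e1]
  · rw [hyb_pos_in ha', e2]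
  · intro i
    show (hyb S a (M.estep θB b)).tape i = _
    by_cases hN : Nb S i
    · rw [hyb_tape_in ha' hN]
      by_cases hN' : Nb Sᶜ i
      · rw [hyb_tape_out ha hN', e3 i ⟨hN, hN'⟩]
      · rw [hyb_tape_out' ha hN', M.estep_toCfg, M.frame]
        by_contra hcon
        rw [not_lt] at hcon
        exact hN' (Nb_of_close (S := Sᶜ) ha hcon)
    · have hi : i ∉ S := fun h => hN (Nb_of_mem h)
      rw [hyb_tape_in' ha' hN, hyb_tape_out ha (Nb_of_mem (S := Sᶜ) hi)]
  · intro i
    show (hyb S a (M.estep θB b)).cnt i = _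
    by_cases hS : i ∈ S
    · rw [hyb_cnt_in hS, hyb_cnt_in hS, M.estep_cnt, if_neg]
      rintro rfl
      exact ha hS
    · rw [hyb_cnt_out hS, hyb_cnt_out hS]

/-- Both runs leave `S` with the same entry. -/
theorem hyb_cross_out (ha : a.pos ∈ S) (hb : b.pos ∈ S) (ha' : (M.estep θA a).pos ∉ S)
    (he : entry S (M.estep θA a) = entry S (M.estep θB b)) :
    M.estep (hybStrat S θA θB) (hyb S a b) = hyb S (M.estep θA a) (M.estep θB b) := by
  classical
  obtain ⟨e1, e2, e3⟩ := entry_eq he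
  have hpos : (hyb S a b).pos = a.pos := hyb_pos_in ha
  have hw : hybStrat S θA θB (hyb S a b).pos ((hyb S a b).cnt (hyb S a b).pos)
      = θA a.pos (a.cnt a.pos) := by
    rw [hpos, hyb_cnt_in ha]; simp [hybStrat, ha]
  have hagree : ∀ i, |i - (hyb S a b).pos| ≤ 1 → (hyb S a b).tape i = a.tape i := by
    intro i hi
    rw [hpos] at hi
    exact hyb_tape_in ha (Nb_of_close ha hi)
  obtain ⟨h1, h2, h3⟩ := M.local_step (hyb S a b).toCfg a.toCfg (θA a.pos (a.cnt a.pos))
    (hyb_loc_in ha) hpos hagree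
  apply ECfg.ext'
  · rw [hyb_loc_out ha', ← e1, M.estep_toCfg, M.estep_toCfg, hw]; exact h1
  · rw [hyb_pos_out ha', ← e2, M.estep_toCfg, M.estep_toCfg, hw]; exact h2
  · intro i
    have hA : (M.estep (hybStrat S θA θB) (hyb S a b)).tape i =
        if Nb S i then (M.estep θA a).tape i else b.tape i := by
      by_cases hi : |i - a.pos| ≤ 1
      · rw [if_pos (Nb_of_close ha hi), M.estep_toCfg, M.estep_toCfg, hw]
        exact h3 i (by rw [hpos]; exact hi)
      · rw [not_le] at hi
        rw [M.estep_toCfg, hw, M.frame _ _ _ (by rw [hpos]; exact hi)]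
        by_cases hN : Nb S i
        · rw [hyb_tape_in ha hN, if_pos hN, M.estep_toCfg, M.frame _ _ _ hi]
        · rw [hyb_tape_in' ha hN, if_neg hN]
    rw [hA]
    by_cases hN' : Nb Sᶜ i
    · rw [hyb_tape_out ha' hN']
      by_cases hN : Nb S i
      · rw [if_pos hN, e3 i ⟨hN, hN'⟩]
      · rw [if_neg hN, M.estep_toCfg, M.frame]
        by_contra hcon
        rw [not_lt] at hcon
        exact hN (Nb_of_close hb hcon)
    · have hi : i ∈ S := by
        by_contra h
        exact hN' (Nb_of_mem (S := Sᶜ) h)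
      rw [hyb_tape_out' ha' hN', if_pos (Nb_of_mem hi)]
  · intro i
    rw [M.estep_cnt, hpos]
    by_cases hi : i = a.pos
    · subst hi
      rw [if_pos rfl, hyb_cnt_in ha, hyb_cnt_in ha, M.estep_cnt, if_pos rfl]
    · rw [if_neg hi]
      by_cases hS : i ∈ S
      · rw [hyb_cnt_in hS, hyb_cnt_in hS, M.estep_cnt, if_neg hi]
      · rw [hyb_cnt_out hS, hyb_cnt_out hS, M.estep_cnt, if_neg]
        rintro rfl
        exact hS hb

end steps

/-- `S` lies deep inside `P`. -/
def Deep (S P : Set ℤ) : Prop := ∀ i ∈ S, ∀ j, |j - i| ≤ 1 → j ∈ P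

/-- **Cut and paste.** -/
theorem paste (M : Sys Λ G W) (θA θB : ℤ → ℕ → W) (S : Set ℤ) (a b h : ℕ → ECfg Λ G)
    (ha : ∀ s, a (s + 1) = M.estep θA (a s)) (hb : ∀ s, b (s + 1) = M.estep θB (b s))
    (hh : ∀ s, h (s + 1) = M.estep (hybStrat S θA θB) (h s))
    (h0 : h 0 = hyb S (a 0) (b 0)) (hside : (a 0).pos ∈ S ↔ (b 0).pos ∈ S)
    (P : Set ℤ) (hP : Deep S P)
    {s s' : ℕ} (hm : Match S a b s s') :
    ((a s).pos ∈ S ↔ (b s').pos ∈ S) ∧
      ∃ t, h t = hyb S (a s) (b s') ∧ recd P h t = recd P b s' := by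
  classical
  have hSP : ∀ i ∈ S, i ∈ P := fun i hi => hP i hi i (by simp)
  have hmove : ∀ (θ : ℤ → ℕ → W) (c : ECfg Λ G), |(M.estep θ c).pos - c.pos| ≤ 1 :=
    fun θ c => M.move _ _
  induction hm with
  | zero => exact ⟨hside, 0, h0, rfl⟩
  | @left s s' _ hiff ih =>
    obtain ⟨hsame, t, ht, hr⟩ := ih
    refine ⟨hiff.symm.trans hsame, ?_⟩
    by_cases hin : (a s).pos ∈ S
    · refine ⟨t + 1, ?_, ?_⟩
      · rw [hh, ht, ha]
        exact hyb_step_in M θA θB hin (by rw [← ha]; exact hiff.mp hin)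
      · rw [← hr]
        apply recd_succ_of_iff
        have h1 : (h t).pos = (a s).pos := by rw [ht]; exact hyb_pos_in hin
        have h2 : (h (t + 1)).pos = (a (s + 1)).pos := by
          rw [hh, ht, hyb_step_in M θA θB hin (by rw [← ha]; exact hiff.mp hin), ha]
          exact hyb_pos_in (by rw [← ha]; exact hiff.mp hin)
        rw [h1, h2]
        exact ⟨fun _ => hSP _ (hiff.mp hin), fun _ => hSP _ hin⟩
    · refine ⟨t, ?_, hr⟩
      rw [ht, ha]
      exact (hyb_skip_out M θA hin (by rw [← ha]; exact fun h => hin (hiff.mpr h))).symm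
  | @right s s' _ hiff ih =>
    obtain ⟨hsame, t, ht, hr⟩ := ih
    refine ⟨hsame.trans hiff, ?_⟩
    by_cases hin : (a s).pos ∈ S
    · have hbin : (b s').pos ∈ S := hsame.mp hin
      refine ⟨t, ?_, ?_⟩
      · rw [ht, hb]
        exact (hyb_skip_in M θB hin hbin).symm
      · rw [hr]
        symm
        apply recd_succ_of_iff
        exact ⟨fun _ => hSP _ (hiff.mp hbin), fun _ => hSP _ hbin⟩
    · have hbout : (b s').pos ∉ S := fun h => hin (hsame.mpr h)
      have hstep : h (t + 1) = hyb S (a s) (b (s' + 1)) := by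
        rw [hh, ht, hyb_step_out' M θA θB hin hbout, ← hb]
      refine ⟨t + 1, hstep, ?_⟩
      have h1 : (h t).pos = (b s').pos := by rw [ht]; exact hyb_pos_out hin
      have h2 : (h (t + 1)).pos = (b (s' + 1)).pos := by rw [hstep]; exact hyb_pos_out hin
      by_cases hc : ((b s').pos ∈ P ↔ (b (s' + 1)).pos ∈ P)
      · rw [recd_succ_of_iff (by rw [h1, h2]; exact hc), recd_succ_of_iff hc, hr]
      · rw [recd_succ_of_not (by rw [h1, h2]; exact hc), recd_succ_of_not hc, hr]
        congr 1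
        apply entry_congr
        · rw [hstep]; exact hyb_loc_out hin
        · exact h2
        · intro i hi
          rw [hstep]
          apply hyb_tape_out hin
          apply Nb_of_mem
          intro hiS
          obtain ⟨j, hj, hji⟩ := hi.2
          exact hj (hP i hiS j hji)
  | @cross s s' _ hca hcb he ih =>
    obtain ⟨hsame, t, ht, hr⟩ := ih
    obtain ⟨e1, e2, e3⟩ := entry_eq he
    refine ⟨by rw [e2], t + 1, ?_, ?_⟩
    · by_cases hin : (a s).pos ∈ S
      · have ha' : (a (s + 1)).pos ∉ S := fun h => hca ⟨fun _ => h, fun _ => hin⟩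
        rw [hh, ht, ha, hb]
        apply hyb_cross_out M θA θB hin (hsame.mp hin)
        · rw [← ha]; exact ha'
        · rw [← ha, ← hb]; exact he
      · have ha' : (a (s + 1)).pos ∈ S := by
          by_contra h
          exact hca ⟨fun h' => absurd h' hin, fun h' => absurd h' h⟩
        rw [hh, ht, ha, hb]
        apply hyb_cross_in M θA θB hin (fun h => hin (hsame.mpr h))
        · rw [← ha]; exact ha'
        · rw [← ha, ← hb]; exact he
    · -- no crossing of the boundary of `P`
      have hbP : ((b s').pos ∈ P ∧ (b (s' + 1)).pos ∈ P) := by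
        have hm := hmove θB (b s')
        rw [← hb] at hm
        by_cases hin : (b s').pos ∈ S
        · exact ⟨hSP _ hin, hP _ hin _ hm⟩
        · have hb' : (b (s' + 1)).pos ∈ S := by
            by_contra h
            exact hcb ⟨fun h' => absurd h' hin, fun h' => absurd h' h⟩
          exact ⟨hP _ hb' _ (by rwa [abs_sub_comm]), hSP _ hb'⟩
      have haP : ((a s).pos ∈ P ∧ (a (s + 1)).pos ∈ P) := by
        have hm := hmove θA (a s)
        rw [← ha] at hm
        by_cases hin : (a s).pos ∈ S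
        · exact ⟨hSP _ hin, hP _ hin _ hm⟩
        · have ha' : (a (s + 1)).pos ∈ S := by
            by_contra h
            exact hca ⟨fun h' => absurd h' hin, fun h' => absurd h' h⟩
          exact ⟨hP _ ha' _ (by rwa [abs_sub_comm]), hSP _ ha'⟩
      have h1 : (h t).pos ∈ P := by
        rw [ht]
        by_cases hin : (a s).pos ∈ S
        · rw [hyb_pos_in hin]; exact haP.1
        · rw [hyb_pos_out hin]; exact hbP.1
      have h2 : (h (t + 1)).pos ∈ P := by
        have hstep : h (t + 1) = hyb S (a (s + 1)) (b (s' + 1)) := by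
          by_cases hin : (a s).pos ∈ S
          · have ha' : (a (s + 1)).pos ∉ S := fun h => hca ⟨fun _ => h, fun _ => hin⟩
            rw [hh, ht, ha, hb]
            apply hyb_cross_out M θA θB hin (hsame.mp hin)
            · rw [← ha]; exact ha'
            · rw [← ha, ← hb]; exact he
          · have ha' : (a (s + 1)).pos ∈ S := by
              by_contra h
              exact hca ⟨fun h' => absurd h' hin, fun h' => absurd h' h⟩
            rw [hh, ht, ha, hb]
            apply hyb_cross_in M θA θB hin (fun h => hin (hsame.mpr h))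
            · rw [← ha]; exact ha'
            · rw [← ha, ← hb]; exact he
        rw [hstep]
        by_cases hin : (a (s + 1)).pos ∈ S
        · rw [hyb_pos_in hin]; exact haP.2
        · rw [hyb_pos_out hin]; exact hbP.2
      rw [recd_succ_of_iff ⟨fun _ => h2, fun _ => h1⟩,
        recd_succ_of_iff ⟨fun _ => hbP.2, fun _ => hbP.1⟩, hr]

end Pool.Agent.Lib.MP_e130ca_lc
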