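import Pool.Agent.Lib.MP_e130ca_lc.Good

/-!
The abstract theorem: asymptotic bounds and conclusion.
-/

namespace Pool.Agent.Lib.MP_e130ca_lc

open Set

theorem poly_le_exp (A B C k : ℕ) : ∃ m₀ : ℕ, ∀ m ≥ m₀, A * (B * m + C) ^ k ≤ 3 ^ m := by
  have h := tendsto_pow_const_div_const_pow_of_one_lt k (r := (3 : ℝ)) (by norm_num)
  have hpos : (0 : ℝ) < 1 / (A * (B + C) ^ k + 1) := by positivity
  have h2 := (h.eventually (gt_mem_nhds hpos))
  rw [Filter.eventually_atTop] at h2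
  obtain ⟨m₀, hm₀⟩ := h2
  refine ⟨m₀ + 1, fun m hm => ?_⟩
  have h3 := hm₀ m (by omega)
  have hm1 : 1 ≤ m := by omega
  have h4 : (0 : ℝ) < 3 ^ m := by positivity
  rw [div_lt_div_iff₀ h4 (by positivity)] at h3
  have h5 : A * (B * m + C) ^ k ≤ A * (B + C) ^ k * m ^ k := by
    rw [mul_assoc, ← mul_pow]
    apply Nat.mul_le_mul_left
    apply Nat.pow_le_pow_left
    nlinarith
  have h6 : ((A * (B + C) ^ k * m ^ k : ℕ) : ℝ) ≤ ((3 ^ m : ℕ) : ℝ) := by
    push_cast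
    have h7 : (0 : ℝ) ≤ (m : ℝ) ^ k := by positivity
    nlinarith
  exact h5.trans (by exact_mod_cast h6)

theorem card_sections {y : ℕ} [NeZero y] (p : Om y → Prop) [DecidablePred p] :
    (Finset.univ.filter p).card = ∑ s : ZMod y → ZMod y,
      (Finset.univ.filter (fun γ : ZMod y × ZMod y → P6 => p (s, γ))).card := by
  classical
  rw [Finset.card_eq_sum_card_fiberwise (f := Prod.fst) (t := Finset.univ)
    (fun x _ => Finset.mem_coe.mpr (Finset.mem_univ _))]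
  apply Finset.sum_congr rfl
  intro s _
  apply Finset.card_bij (fun ω _ => ω.2)
  · rintro ⟨s', γ⟩ hω
    simp only [Finset.mem_filter, Finset.mem_univ, true_and] at hω
    simp only [Finset.mem_filter, Finset.mem_univ, true_and]
    rw [← hω.2]; exact hω.1
  · rintro ⟨s', γ⟩ hω ⟨s'', γ'⟩ hω' heq
    simp only [Finset.mem_filter, Finset.mem_univ, true_and] at hω hω'
    simp only at heq
    rw [Prod.mk.injEq]
    exact ⟨hω.2.trans hω'.2.symm, heq⟩
  · intro γ hγ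
    simp only [Finset.mem_filter, Finset.mem_univ, true_and] at hγ
    exact ⟨(s, γ), by simp [hγ], rfl⟩

theorem six_pow (t : ℕ) : 3 ^ t * 4 ^ (3 * t) ≤ 6 ^ (3 * t) := by
  rw [pow_mul, pow_mul, ← mul_pow]
  apply Nat.pow_le_pow_left
  norm_num

theorem card_Ent_le {Λ G : Type*} [Fintype G] {y K : ℕ} (F : Finset Λ) (hy : 0 < y)
    (hF : F.card ≤ y ^ K) (hG : Fintype.card G ≤ y ^ K) :
    Fintype.card (Ent F G) + 1 ≤ 9 * y ^ (5 * K) := by
  have h1 : Fintype.card (Ent F G) = F.card * ((2 * (2 * 2)) *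
      (Fintype.card G * (Fintype.card G * (Fintype.card G * Fintype.card G)))) := by
    simp only [Fintype.card_prod, Fintype.card_bool, Fintype.card_coe]
  rw [h1]
  have h2 : F.card * ((2 * (2 * 2)) *
      (Fintype.card G * (Fintype.card G * (Fintype.card G * Fintype.card G)))) ≤
      y ^ K * ((2 * (2 * 2)) * (y ^ K * (y ^ K * (y ^ K * y ^ K)))) := by
    gcongr
  have h3 : y ^ K * ((2 * (2 * 2)) * (y ^ K * (y ^ K * (y ^ K * y ^ K)))) =
      8 * y ^ (5 * K) := by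
    rw [mul_comm 5 K, pow_mul]
    ring
  have h4 : 0 < y ^ (5 * K) := by positivity
  omega

theorem card_gen1 (E G F' : Type*) [Fintype E] [Fintype G] [Fintype F'] (y L n : ℕ)
    [NeZero y] : Fintype.card
    ((Bool × Fin (28 * L) × Fin (28 * L) × Fin (12 * L) × Option (Fin (12 * L)) ×
      Fin (12 * L)) × ZMod (y * y) × (Fin (2 * n) → Option E) × (Fin (2 * n) → Option E) ×
      (Fin (12 * L + 2) → G) × (Fin (12 * L) → Fin (2 * L * n + 1)) × F') =
      (2 * (28 * L * (28 * L * (12 * L * ((12 * L + 1) * (12 * L)))))) *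
      ((y * y) * ((Fintype.card E + 1) ^ (2 * n) *
        ((Fintype.card E + 1) ^ (2 * n) *
        (Fintype.card G ^ (12 * L + 2) * ((2 * L * n + 1) ^ (12 * L) *
          Fintype.card F'))))) := by
  simp only [Fintype.card_prod, Fintype.card_bool, Fintype.card_fin, Fintype.card_option,
    Fintype.card_fun, ZMod.card]

theorem card_gen2 (E J : Type*) [Fintype E] [Fintype J] [DecidableEq J] (L n : ℕ) :
    Fintype.card
    ((Fin (28 * L) × Fin (28 * L)) × (Fin (2 * n) → Option E) × (J → Fin 3)) =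
      (28 * L * (28 * L)) * ((Fintype.card E + 1) ^ (2 * n) * 3 ^ (Fintype.card J)) := by
  simp only [Fintype.card_prod, Fintype.card_fin, Fintype.card_option, Fintype.card_fun]

theorem card_Rcd_le {Λ G : Type*} [Fintype G] {y K L n : ℕ} [NeZero y] (F : Finset Λ)
    (hF : F.card ≤ y ^ K) (hG : Fintype.card G ≤ y ^ K) :
    Fintype.card (Rcd F G y L n) ≤
      (2 * (28 * L * (28 * L * (12 * L * ((12 * L + 1) * (12 * L))))) * 9 ^ (4 * n) *
        (2 * L * n + 1) ^ (12 * L)) * y ^ (20 * K * n + K * (12 * L + 3) + 2) := by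
  have hy : 0 < y := Nat.pos_of_ne_zero (NeZero.ne y)
  have hE := card_Ent_le F hy hF hG
  have h1 : Fintype.card (Rcd F G y L n) =
      (2 * (28 * L * (28 * L * (12 * L * ((12 * L + 1) * (12 * L)))))) *
      ((y * y) * ((Fintype.card (Ent F G) + 1) ^ (2 * n) *
        ((Fintype.card (Ent F G) + 1) ^ (2 * n) *
        (Fintype.card G ^ (12 * L + 2) * ((2 * L * n + 1) ^ (12 * L) * F.card))))) := by
    rw [← Fintype.card_coe F]
    exact card_gen1 (Ent F G) G {x // x ∈ F} y L n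
  rw [h1]
  have h2 : (2 * (28 * L * (28 * L * (12 * L * ((12 * L + 1) * (12 * L)))))) *
      ((y * y) * ((Fintype.card (Ent F G) + 1) ^ (2 * n) *
        ((Fintype.card (Ent F G) + 1) ^ (2 * n) *
        (Fintype.card G ^ (12 * L + 2) * ((2 * L * n + 1) ^ (12 * L) * F.card))))) ≤
      (2 * (28 * L * (28 * L * (12 * L * ((12 * L + 1) * (12 * L)))))) *
      ((y * y) * ((9 * y ^ (5 * K)) ^ (2 * n) *
        ((9 * y ^ (5 * K)) ^ (2 * n) *
        ((y ^ K) ^ (12 * L + 2) * ((2 * L * n + 1) ^ (12 * L) * y ^ K))))) := by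
    gcongr
  refine h2.trans (le_of_eq ?_)
  have e1 : (9 * y ^ (5 * K)) ^ (2 * n) = 9 ^ (2 * n) * y ^ (10 * K * n) := by
    rw [mul_pow, ← pow_mul]
    congr 2
    ring
  rw [e1, ← pow_mul]
  have e2 : y ^ (20 * K * n + K * (12 * L + 3) + 2) =
      y ^ (10 * K * n) * y ^ (10 * K * n) * (y ^ (K * (12 * L + 2)) * y ^ K) * (y * y) := by
    rw [← pow_add, ← pow_add, ← pow_add, ← pow_two, ← pow_add]
    congr 1
    ring
  have e3 : 9 ^ (4 * n) = 9 ^ (2 * n) * 9 ^ (2 * n) := by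
    rw [← pow_add]; congr 1; ring
  rw [e2, e3]
  ring

theorem card_Rg_le {Λ G : Type*} [Fintype G] {y K L n : ℕ} [NeZero y] (F : Finset Λ)
    (hF : F.card ≤ y ^ K) (hG : Fintype.card G ≤ y ^ K) :
    Fintype.card (Rg F G y L n) ≤
      (28 * L * (28 * L) * 9 ^ (2 * n) * 3 ^ (56 * L * (2 * L * n + 1))) *
        y ^ (10 * K * n) := by
  have hy : 0 < y := Nat.pos_of_ne_zero (NeZero.ne y)
  have hE := card_Ent_le F hy hF hG
  have h1 : Fintype.card (Rg F G y L n) =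
      (28 * L * (28 * L)) * ((Fintype.card (Ent F G) + 1) ^ (2 * n) *
        3 ^ (J0 y L n).card) := by
    rw [← Fintype.card_coe (J0 y L n)]
    exact card_gen2 (Ent F G) {j // j ∈ J0 y L n} L n
  rw [h1]
  have hJ := J0_card y L n
  have h2 : (28 * L * (28 * L)) * ((Fintype.card (Ent F G) + 1) ^ (2 * n) *
        3 ^ (J0 y L n).card) ≤
      (28 * L * (28 * L)) * ((9 * y ^ (5 * K)) ^ (2 * n) *
        3 ^ (56 * L * (2 * L * n + 1))) := by
    have := Nat.pow_le_pow_right (n := 3) (by norm_num) hJ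
    gcongr
  refine h2.trans (le_of_eq ?_)
  have e1 : (9 * y ^ (5 * K)) ^ (2 * n) = 9 ^ (2 * n) * y ^ (10 * K * n) := by
    rw [mul_pow, ← pow_mul]
    congr 2
    ring
  rw [e1]
  ring

theorem abstract_aux (K L n e C₀ C₁ J : ℕ) (hL : 0 < L) (hn : 0 < n) (hC₀ : 0 < C₀)
    (he : e = 20 * K * n + K * (12 * L + 3) + 2)
    (hC₀def : C₀ = 2 * (28 * L * (28 * L * (12 * L * ((12 * L + 1) * (12 * L))))) *
      9 ^ (4 * n) * (2 * L * n + 1) ^ (12 * L))
    (hC₁def : C₁ = 28 * L * (28 * L) * 9 ^ (2 * n) * 3 ^ (56 * L * (2 * L * n + 1)))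
    (hJdef : J = 56 * L * (2 * L * n + 1)) (hN₀ : e + 1 ≤ 2 * L * n) :
    ∃ m₀ : ℕ, ∀ m ≥ m₀, ∀ (Λ G : Type) [Fintype G]
    (M : Sys Λ G (Tab (3 ^ m))) (l : Λ) (g : G) (out : Λ → Bool) (F : Finset Λ),
    (∀ θ k, (M.erun θ (ini l g) k).loc ∈ F) → F.card ≤ (3 ^ m) ^ K →
    Fintype.card G ≤ (3 ^ m) ^ K → ¬ Lim M (ini l g).toCfg out := by
  classical
  obtain ⟨m₁, hm₁⟩ := poly_le_exp (4 * C₀) (27 * e) (108 * C₀ + 9 * J) (2 * L * n)
  obtain ⟨m₂, hm₂⟩ := poly_le_exp 1 0 (12 * L * (2 * L * n + 1)) 1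
  obtain ⟨m₃, hm₃⟩ := poly_le_exp 3 (10 * K * n) (4 * C₁) 1
  refine ⟨m₁ + m₂ + m₃, fun m hm Λ G _ M l g out F => ?_⟩
  have hm1 := hm₁ m (by omega)
  have hm2 := hm₂ m (by omega)
  have hm3 := hm₃ m (by omega)
  rw [one_mul, pow_one, zero_mul, zero_add] at hm2
  rw [pow_one] at hm3
  obtain ⟨y, hy⟩ : ∃ y, y = 3 ^ m := ⟨_, rfl⟩
  rw [← hy] at hm1 hm2 hm3
  revert M F
  rw [← hy]
  intro M F hF hFc hGc H
  have hypos : 0 < y := by rw [hy]; positivity
  have : NeZero y := ⟨hypos.ne'⟩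
  have : Nontrivial (Tab y) := by
    refine ⟨⟨(0, 0, 0), (0, 0, 1), ?_⟩⟩
    intro h
    simp only [Prod.mk.injEq] at h
    exact absurd h.2.2 (by decide)
  obtain ⟨h, hhdef⟩ : ∃ h, h = 3 * (e * m + 4 * C₀) := ⟨_, rfl⟩
  obtain ⟨R, hRdef⟩ : ∃ R, R = C₀ * y ^ e := ⟨_, rfl⟩
  have hR : Fintype.card (Rcd F G y L n) ≤ R := by
    rw [hRdef, hC₀def, he]
    exact card_Rcd_le F hFc hGc
  have hR0 : 0 < R := by rw [hRdef]; positivity
  have h3 : 4 * C₀ ≤ 3 ^ (4 * C₀) := Nat.lt_pow_self (by norm_num) |>.le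
  have hye : y ^ e = 3 ^ (e * m) := by rw [hy, ← pow_mul, mul_comm]
  have hh1 : 4 * R * 4 ^ h ≤ 6 ^ h := by
    calc 4 * R * 4 ^ h = (4 * C₀) * 3 ^ (e * m) * 4 ^ h := by rw [hRdef, hye]; ring
      _ ≤ 3 ^ (4 * C₀) * 3 ^ (e * m) * 4 ^ h := by gcongr
      _ = 3 ^ (e * m + 4 * C₀) * 4 ^ (3 * (e * m + 4 * C₀)) := by rw [hhdef, pow_add]; ring
      _ ≤ 6 ^ h := by rw [hhdef]; exact six_pow _
  have hJ : (J0 y L n).card ≤ J := by rw [hJdef]; exact J0_card y L n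
  have hh2 : 4 * R * (9 * (h + (J0 y L n).card)) ^ (2 * L * n) ≤ y ^ (2 * L * n) := by
    have h9 : 9 * (h + (J0 y L n).card) ≤ 27 * e * m + (108 * C₀ + 9 * J) := by
      rw [hhdef]
      calc 9 * (3 * (e * m + 4 * C₀) + (J0 y L n).card)
          ≤ 9 * (3 * (e * m + 4 * C₀) + J) := by gcongr
        _ = 27 * e * m + (108 * C₀ + 9 * J) := by ring
    calc 4 * R * (9 * (h + (J0 y L n).card)) ^ (2 * L * n)
        ≤ 4 * R * (27 * e * m + (108 * C₀ + 9 * J)) ^ (2 * L * n) := by gcongr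
      _ = y ^ e * (4 * C₀ * (27 * e * m + (108 * C₀ + 9 * J)) ^ (2 * L * n)) := by
          rw [hRdef]; ring
      _ ≤ y ^ e * y := Nat.mul_le_mul_left _ hm1
      _ = y ^ (e + 1) := (pow_succ _ _).symm
      _ ≤ y ^ (2 * L * n) := Nat.pow_le_pow_right hypos hN₀
  let Bf : Finset (Om y) := Finset.univ.filter (fun ω => Bad M l g L n (th L n ω))
  have hBad := bad_count H F hF hL hn h hm2 Bf
    (fun ω hω => (Finset.mem_filter.mp hω).2) R hR hR0 hh1 hh2
  let Gf : Finset (Om y) := Finset.univ.filter (fun ω => ¬ Bad M l g L n (th L n ω))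
  have hsplit : Bf.card + Gf.card = Fintype.card (Om y) := by
    rw [← Finset.card_univ]
    exact Finset.card_filter_add_card_filter_not _
  have hGf : 3 * Fintype.card (Om y) ≤ 4 * Gf.card := by omega
  let sec : (ZMod y → ZMod y) → Finset (ZMod y × ZMod y → P6) := fun s =>
    Finset.univ.filter (fun γ : ZMod y × ZMod y → P6 => ¬ Bad M l g L n (th L n (s, γ)))
  have hsec : Gf.card = ∑ s : ZMod y → ZMod y, (sec s).card :=
    card_sections (fun ω : Om y => ¬ Bad M l g L n (th L n ω))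
  have hs : ∃ s : ZMod y → ZMod y, 3 * 6 ^ (y * y) ≤ 4 * (sec s).card := by
    by_contra hcon
    push Not at hcon
    have h4 : 4 * Gf.card < 3 * Fintype.card (Om y) := by
      rw [hsec, Finset.mul_sum, card_Om]
      calc ∑ s : ZMod y → ZMod y, 4 * (sec s).card
          < ∑ _s : ZMod y → ZMod y, 3 * 6 ^ (y * y) :=
            Finset.sum_lt_sum_of_nonempty Finset.univ_nonempty (fun s _ => hcon s)
        _ = 3 * (y ^ y * 6 ^ (y * y)) := by
            rw [Finset.sum_const, Finset.card_univ, Fintype.card_fun, ZMod.card, smul_eq_mul]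
            ring
    omega
  obtain ⟨s, hs⟩ := hs
  refine good_contra (n := n) H F hF hL s (sec s) ?_ ?_
  · intro γ hγ
    exact (Finset.mem_filter.mp hγ).2
  · have hRg : Fintype.card (Rg F G y L n) ≤ C₁ * y ^ (10 * K * n) := by
      rw [hC₁def]; exact card_Rg_le F hFc hGc
    have hye2 : y ^ (10 * K * n) = 3 ^ (10 * K * n * m) := by rw [hy, ← pow_mul, mul_comm]
    obtain ⟨t, htdef⟩ : ∃ t, t = 10 * K * n * m + 4 * C₁ := ⟨_, rfl⟩
    have h3' : 4 * C₁ < 3 ^ (4 * C₁) := Nat.lt_pow_self (by norm_num)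
    have hty : 3 * t ≤ y * y := by
      calc 3 * t ≤ y := by rw [htdef]; exact hm3
        _ ≤ y * y := Nat.le_mul_self _
    have h6 : 3 ^ t * 4 ^ (y * y) ≤ 6 ^ (y * y) := by
      obtain ⟨r, hr⟩ := Nat.exists_eq_add_of_le hty
      rw [hr, pow_add, pow_add]
      calc 3 ^ t * (4 ^ (3 * t) * 4 ^ r) = (3 ^ t * 4 ^ (3 * t)) * 4 ^ r := by ring
        _ ≤ 6 ^ (3 * t) * 6 ^ r := Nat.mul_le_mul (six_pow t) (Nat.pow_le_pow_left (by norm_num) _)
    have h7 : 4 * (Fintype.card (Rg F G y L n) * 4 ^ (y * y)) < 3 * 6 ^ (y * y) := by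
      calc 4 * (Fintype.card (Rg F G y L n) * 4 ^ (y * y))
          ≤ 4 * (C₁ * y ^ (10 * K * n) * 4 ^ (y * y)) := by gcongr
        _ = (4 * C₁) * (3 ^ (10 * K * n * m) * 4 ^ (y * y)) := by rw [hye2]; ring
        _ < 3 ^ (4 * C₁) * (3 ^ (10 * K * n * m) * 4 ^ (y * y)) := by
            apply Nat.mul_lt_mul_of_pos_right h3'
            positivity
        _ = 3 ^ t * 4 ^ (y * y) := by rw [htdef, pow_add]; ring
        _ ≤ 6 ^ (y * y) := h6
        _ ≤ 3 * 6 ^ (y * y) := by omega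
    omega

/-- **The abstract theorem.** -/
theorem abstract_main (K : ℕ) : ∃ m₀ : ℕ, ∀ m ≥ m₀, ∀ (Λ G : Type) [Fintype G]
    (M : Sys Λ G (Tab (3 ^ m))) (l : Λ) (g : G) (out : Λ → Bool) (F : Finset Λ),
    (∀ θ k, (M.erun θ (ini l g) k).loc ∈ F) → F.card ≤ (3 ^ m) ^ K →
    Fintype.card G ≤ (3 ^ m) ^ K → ¬ Lim M (ini l g).toCfg out := by
  obtain ⟨L, hLdef⟩ : ∃ L, L = 10 * K + 1 := ⟨_, rfl⟩
  obtain ⟨n, hndef⟩ : ∃ n, n = K * (12 * L + 3) + 3 := ⟨_, rfl⟩
  have hL : 0 < L := by omega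
  have hn : 0 < n := by omega
  refine abstract_aux K L n _ _ _ _ hL hn (by positivity) rfl rfl rfl rfl ?_
  have : 2 * L * n = 20 * K * n + 2 * n := by rw [hLdef]; ring
  rw [this]
  omega

end Pool.Agent.Lib.MP_e130ca_lc
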