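import Pool.Agent.Lib.MP_e130ca_lc.Rect

/-!
The table of items and two counting lemmas.
-/

namespace Pool.Agent.Lib.MP_e130ca_lc

/-- Items. -/
abbrev Tab (y : ℕ) := ZMod y × ZMod y × Fin 3

/-- Data for the strategies. -/
abbrev Om (y : ℕ) := (ZMod y → ZMod y) × (ZMod y × ZMod y → P6)

section defs
variable {y : ℕ}

def px (y : ℕ) (u : ℤ) : ZMod y := (u : ZMod y)
def pv (y : ℕ) (u : ℤ) : ZMod y := ((u / (y : ℤ) : ℤ) : ZMod y)
def pj (y : ℕ) (u : ℤ) : ZMod y × ZMod y := (px y u, pv y u)
def pb (y : ℕ) (u : ℤ) : Fin 3 := if (u / ((y : ℤ) * y)) % 2 = 0 then 0 else 1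

/-- The item with index `u`. -/
def pw (s : ZMod y → ZMod y) (α : ZMod y × ZMod y → Fin 3) (u : ℤ) : Tab y :=
  (px y u, pv y u + s (px y u), α (pj y u) + 1 + pb y u)

/-- The coordinate of an item. -/
def co (s : ZMod y → ZMod y) (w : Tab y) : ZMod y × ZMod y := (w.1, w.2.1 - s w.1)

/-- The strategy: `α`-items in the left area, `β`-items outside. -/
def strat (N₀ D : ℕ) (s : ZMod y → ZMod y) (α β : ZMod y × ZMod y → Fin 3) (i : ℤ) (t : ℕ) :
    Tab y :=
  if (-(2 * ((y : ℤ) * y)) ≤ i ∧ i < 2 * ((y : ℤ) * y)) then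
    pw s α (i + (min t N₀ : ℕ) * (D : ℤ))
  else pw s β (i + (min t N₀ : ℕ) * (D : ℤ))

end defs

section facts
variable {y : ℕ}

theorem co_pw (s : ZMod y → ZMod y) (α : ZMod y × ZMod y → Fin 3) (u : ℤ) :
    co s (pw s α u) = pj y u := by
  unfold co pw pj
  simp

theorem third : ∀ (a : Fin 3) (b : Bool), a + 1 + (if b = true then 0 else 1) ≠ a := by decide

theorem pw_ne (s : ZMod y → ZMod y) (α : ZMod y × ZMod y → Fin 3) (u : ℤ) :
    (pw s α u).2.2 ≠ α (co s (pw s α u)) := by
  rw [co_pw]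
  have h := third (α (pj y u)) (decide ((u / ((y : ℤ) * y)) % 2 = 0))
  simp only [decide_eq_true_eq] at h
  exact h

theorem third' : ∀ a z : Fin 3, z ≠ a → z = a + 1 + 0 ∨ z = a + 1 + 1 := by decide

variable [NeZero y]

theorem pw_surj (s : ZMod y → ZMod y) (α : ZMod y × ZMod y → Fin 3) (w : Tab y)
    (hw : w.2.2 ≠ α (co s w)) (q : ℤ) :
    ∃ u : ℤ, q * (2 * ((y : ℤ) * y)) ≤ u ∧ u < (q + 1) * (2 * ((y : ℤ) * y)) ∧
      pw s α u = w := by
  have hy : (0 : ℤ) < y := by exact_mod_cast Nat.pos_of_ne_zero (NeZero.ne y)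
  obtain ⟨x, v', z⟩ := w
  set v : ZMod y := v' - s x with hv
  have hx1 : (0 : ℤ) ≤ (x.val : ℤ) := by positivity
  have hx2 : (x.val : ℤ) < y := by exact_mod_cast ZMod.val_lt x
  have hv1 : (0 : ℤ) ≤ (v.val : ℤ) := by positivity
  have hv2 : (v.val : ℤ) < y := by exact_mod_cast ZMod.val_lt v
  have key : ∀ b : ℤ, 0 ≤ b → b ≤ 1 → ∀ u : ℤ,
      u = q * (2 * ((y : ℤ) * y)) + b * (y * y) + v.val * y + x.val →
      q * (2 * ((y : ℤ) * y)) ≤ u ∧ u < (q + 1) * (2 * ((y : ℤ) * y)) ∧
      px y u = x ∧ pv y u = v ∧ (u / ((y : ℤ) * y)) = 2 * q + b := by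
    intro b hb0 hb1 u hu
    have h1 : (v.val : ℤ) * y + x.val < y * y := by nlinarith
    have h0 : 0 ≤ (v.val : ℤ) * y + x.val := by positivity
    have hyy : (0 : ℤ) < (y : ℤ) * y := by positivity
    refine ⟨?_, ?_, ?_, ?_, ?_⟩
    · nlinarith
    · nlinarith
    · unfold px
      rw [hu]
      push_cast
      rw [ZMod.natCast_self]
      simp
    · unfold pv
      have e : u / (y : ℤ) = q * (2 * y) + b * y + v.val := by
        rw [hu]
        have : q * (2 * ((y : ℤ) * y)) + b * (y * y) + v.val * y + x.val =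
            x.val + (q * (2 * y) + b * y + v.val) * y := by ring
        rw [this, Int.add_mul_ediv_right _ _ hy.ne', Int.ediv_eq_zero_of_lt hx1 hx2, zero_add]
      rw [e]
      push_cast
      rw [ZMod.natCast_self]
      simp
    · rw [hu]
      have : q * (2 * ((y : ℤ) * y)) + b * (y * y) + v.val * y + x.val =
            (v.val * y + x.val) + (2 * q + b) * (y * y) := by ring
      rw [this, Int.add_mul_ediv_right _ _ hyy.ne', Int.ediv_eq_zero_of_lt h0 h1, zero_add]
  have hw' : z ≠ α (x, v) := hw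
  rcases third' _ _ hw' with hz | hz
  · obtain ⟨h1, h2, h3, h4, h5⟩ := key 0 le_rfl zero_le_one _ rfl
    refine ⟨_, h1, h2, ?_⟩
    unfold pw pj pb
    rw [h3, h4, h5, if_pos (by omega), ← hz]
    simp [hv]
  · obtain ⟨h1, h2, h3, h4, h5⟩ := key 1 zero_le_one le_rfl _ rfl
    refine ⟨_, h1, h2, ?_⟩
    unfold pw pj pb
    rw [h3, h4, h5, if_neg (by omega), ← hz]
    simp [hv]

theorem pj_congr {u u' : ℤ} (h : (u : ZMod (y * y)) = (u' : ZMod (y * y))) :
    pj y u = pj y u' := by
  have hy : (0 : ℤ) < y := by exact_mod_cast Nat.pos_of_ne_zero (NeZero.ne y)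
  rw [ZMod.intCast_eq_intCast_iff_dvd_sub] at h
  obtain ⟨k, hk⟩ := h
  push_cast at hk
  have hu : u' = u + (y * k) * y := by linarith [hk, mul_comm ((y : ℤ) * k) y]
  subst hu
  unfold pj px pv
  rw [Int.add_mul_ediv_right _ _ hy.ne']
  push_cast
  rw [ZMod.natCast_self]
  simp

theorem px_inj {u u' : ℤ} (h : px y u = px y u') (h1 : u - u' < y) (h2 : u' - u < y) :
    u = u' := by
  unfold px at h
  rw [ZMod.intCast_eq_intCast_iff_dvd_sub] at h
  obtain ⟨k, hk⟩ := h
  have hy : (0 : ℤ) < y := by exact_mod_cast Nat.pos_of_ne_zero (NeZero.ne y)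
  have hk1 : k < 1 := by
    by_contra hc
    rw [not_lt] at hc
    nlinarith
  have hk2 : -1 < k := by
    by_contra hc
    rw [not_lt] at hc
    nlinarith
  have : k = 0 := by omega
  subst this
  omega

end facts

section count
variable {y : ℕ} [NeZero y]

theorem prod_mem_const {ι : Type*} [Fintype ι] [DecidableEq ι] (X : Finset ι) (a : ℕ) :
    ∏ i : ι, (if i ∈ X then a else 1) = a ^ X.card := by
  rw [Finset.prod_ite_mem, Finset.univ_inter, Finset.prod_const]

theorem card_Om : Fintype.card (Om y) = y ^ y * 6 ^ (y * y) := by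
  have h6 : Fintype.card P6 = 6 := card_P6
  rw [Fintype.card_prod, Fintype.card_fun, Fintype.card_fun, Fintype.card_prod, h6, ZMod.card]

/-- Constraints on many coordinates. -/
theorem cl1 (Φ : Finset (Om y)) (K : Finset (Tab y)) (J0 : Finset (ZMod y × ZMod y)) (h : ℕ)
    (π : P6 → Fin 3)
    (hπ : ∀ z, (Finset.univ.filter (fun p : P6 => π p ≠ z)).card = 4)
    (hK : 3 * (h + J0.card) ≤ K.card)
    (hΦ : ∀ ω ∈ Φ, ∀ w ∈ K, co ω.1 w ∈ J0 ∨ π (ω.2 (co ω.1 w)) ≠ w.2.2) :
    Φ.card * 6 ^ h ≤ Fintype.card (Om y) * 4 ^ h := by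
  classical
  let Ψ : (ZMod y → ZMod y) → Finset (ZMod y × ZMod y → P6) := fun s =>
    Finset.univ.filter (fun γ => (s, γ) ∈ Φ)
  have hcard : Φ.card = ∑ s, (Ψ s).card := by
    rw [Finset.card_eq_sum_card_fiberwise (f := Prod.fst) (t := Finset.univ)
      (fun x _ => Finset.mem_coe.mpr (Finset.mem_univ _))]
    apply Finset.sum_congr rfl
    intro s _
    apply Finset.card_bij (fun ω _ => ω.2)
    · rintro ⟨s', γ⟩ hω
      simp only [Finset.mem_filter] at hω
      simp only [Ψ, Finset.mem_filter, Finset.mem_univ, true_and]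
      rw [← hω.2]; exact hω.1
    · rintro ⟨s', γ⟩ hω ⟨s'', γ'⟩ hω' heq
      simp only [Finset.mem_filter] at hω hω'
      simp only at heq
      rw [Prod.mk.injEq]
      exact ⟨hω.2.trans hω'.2.symm, heq⟩
    · intro γ hγ
      simp only [Ψ, Finset.mem_filter, Finset.mem_univ, true_and] at hγ
      exact ⟨(s, γ), by simp [hγ], rfl⟩
  have hone : ∀ s, (Ψ s).card * 6 ^ h ≤ 6 ^ (y * y) * 4 ^ h := by
    intro s
    let J1 := K.image (co s)
    have hJ1 : K.card ≤ 3 * J1.card := by
      apply Finset.card_le_mul_card_image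
      intro j _
      calc (K.filter (fun w => co s w = j)).card ≤ (Finset.univ : Finset (Fin 3)).card := by
            apply Finset.card_le_card_of_injOn (fun w => w.2.2) (fun _ _ => Finset.mem_coe.mpr (Finset.mem_univ _))
            intro w hw w' hw' heq
            simp only [Finset.coe_filter, Set.mem_ofPred_eq] at hw hw'
            have e := hw.2.trans hw'.2.symm
            unfold co at e
            rw [Prod.mk.injEq] at e
            obtain ⟨e1, e2⟩ := e
            rw [e1] at e2
            have e3 := sub_left_injective e2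
            apply Prod.ext e1
            exact Prod.ext e3 heq
        _ = 3 := by simp
    have hJ2 : h ≤ (J1 \ J0).card := by
      have := Finset.le_card_sdiff J0 J1
      omega
    obtain ⟨J2, hJ2s, hJ2c⟩ := Finset.exists_subset_card_eq hJ2
    have hz : ∀ j, ∃ z : Fin 3, j ∈ J2 → ∀ γ ∈ Ψ s, π (γ j) ≠ z := by
      intro j
      by_cases hj : j ∈ J2
      · have hj' := hJ2s hj
        rw [Finset.mem_sdiff, Finset.mem_image] at hj'
        obtain ⟨⟨w, hw, hwj⟩, hj0⟩ := hj'
        refine ⟨w.2.2, fun _ γ hγ => ?_⟩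
        simp only [Ψ, Finset.mem_filter, Finset.mem_univ, true_and] at hγ
        have := hΦ _ hγ w hw
        simp only at this
        rw [hwj] at this
        exact this.resolve_left hj0
      · exact ⟨0, fun h => absurd h hj⟩
    choose z hz using hz
    let t : ZMod y × ZMod y → Finset P6 := fun j =>
      if j ∈ J2 then Finset.univ.filter (fun p : P6 => π p ≠ z j) else Finset.univ
    have hsub : Ψ s ⊆ Fintype.piFinset t := by
      intro γ hγ
      rw [Fintype.mem_piFinset]
      intro j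
      simp only [t]
      split_ifs with hj
      · simp only [Finset.mem_filter, Finset.mem_univ, true_and]
        exact hz j hj γ hγ
      · exact Finset.mem_univ _
    have h1 : (Ψ s).card ≤ ∏ j, (t j).card := by
      rw [← Fintype.card_piFinset]
      exact Finset.card_le_card hsub
    calc (Ψ s).card * 6 ^ h ≤ (∏ j, (t j).card) * ∏ j, (if j ∈ J2 then 6 else 1) := by
          rw [prod_mem_const, hJ2c]
          exact Nat.mul_le_mul_right _ h1
      _ = ∏ j, ((t j).card * (if j ∈ J2 then 6 else 1)) := by rw [Finset.prod_mul_distrib]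
      _ ≤ ∏ j, (6 * (if j ∈ J2 then 4 else 1)) := by
          apply Finset.prod_le_prod
          · intro _ _; exact Nat.zero_le _
          · intro j _
            simp only [t]
            split_ifs with hj
            · rw [hπ]
            · rw [Finset.card_univ, card_P6]
      _ = 6 ^ (y * y) * 4 ^ h := by
          rw [Finset.prod_mul_distrib, prod_mem_const, hJ2c, Finset.prod_const,
            Finset.card_univ, Fintype.card_prod, ZMod.card]
  rw [hcard, card_Om, Finset.sum_mul]
  calc ∑ s, (Ψ s).card * 6 ^ h ≤ ∑ _s : ZMod y → ZMod y, 6 ^ (y * y) * 4 ^ h :=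
        Finset.sum_le_sum (fun s _ => hone s)
    _ = y ^ y * 6 ^ (y * y) * 4 ^ h := by
        rw [Finset.sum_const, Finset.card_univ, Fintype.card_fun, ZMod.card, smul_eq_mul]
        ring

/-- Constraints on the shifts. -/
theorem cl2 {ε : Type*} (Φ : Finset (Om y)) (K : Finset (Tab y)) (E : Finset ε)
    (xE vE : ε → ZMod y) (hinj : Set.InjOn xE E)
    (hΦ : ∀ ω ∈ Φ, ∀ e ∈ E, ∃ z, (xE e, vE e + ω.1 (xE e), z) ∈ K) :
    Φ.card * y ^ E.card ≤ Fintype.card (Om y) * K.card ^ E.card := by
  classical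
  let X := E.image xE
  have hX : X.card = E.card := Finset.card_image_of_injOn hinj
  have hv : ∀ x, ∃ v : ZMod y, x ∈ X → ∀ ω ∈ Φ, ∃ z, (x, v + ω.1 x, z) ∈ K := by
    intro x
    by_cases hx : x ∈ X
    · obtain ⟨e, he, rfl⟩ := Finset.mem_image.mp hx
      exact ⟨vE e, fun _ ω hω => hΦ ω hω e he⟩
    · exact ⟨0, fun h => absurd h hx⟩
  choose v hv using hv
  let t : ZMod y → Finset (ZMod y) := fun x =>
    if x ∈ X then K.image (fun w => w.2.1 - v x) else Finset.univ
  have hsub : Φ ⊆ (Fintype.piFinset t) ×ˢ (Finset.univ : Finset (ZMod y × ZMod y → P6)) := by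
    intro ω hω
    rw [Finset.mem_product]
    refine ⟨?_, Finset.mem_univ _⟩
    rw [Fintype.mem_piFinset]
    intro x
    simp only [t]
    split_ifs with hx
    · obtain ⟨z, hz⟩ := hv x hx ω hω
      rw [Finset.mem_image]
      exact ⟨_, hz, by simp⟩
    · exact Finset.mem_univ _
  have h1 : Φ.card ≤ (∏ x, (t x).card) * 6 ^ (y * y) := by
    calc Φ.card ≤ _ := Finset.card_le_card hsub
      _ = (∏ x, (t x).card) * 6 ^ (y * y) := by
        rw [Finset.card_product, Fintype.card_piFinset, Finset.card_univ, Fintype.card_fun,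
          Fintype.card_prod, ZMod.card, card_P6]
  have h2 : (∏ x, (t x).card) * y ^ E.card ≤ y ^ y * K.card ^ E.card := by
    calc (∏ x, (t x).card) * y ^ E.card
        = (∏ x, (t x).card) * ∏ x : ZMod y, (if x ∈ X then y else 1) := by
          rw [prod_mem_const, hX]
      _ = ∏ x, ((t x).card * (if x ∈ X then y else 1)) := by rw [Finset.prod_mul_distrib]
      _ ≤ ∏ x, (y * (if x ∈ X then K.card else 1)) := by
          apply Finset.prod_le_prod
          · intro _ _; exact Nat.zero_le _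
          · intro x _
            simp only [t]
            split_ifs with hx
            · rw [mul_comm]
              exact Nat.mul_le_mul_left _ Finset.card_image_le
            · rw [Finset.card_univ, ZMod.card]
      _ = y ^ y * K.card ^ E.card := by
          rw [Finset.prod_mul_distrib, prod_mem_const, hX, Finset.prod_const,
            Finset.card_univ, ZMod.card]
  calc Φ.card * y ^ E.card ≤ (∏ x, (t x).card) * 6 ^ (y * y) * y ^ E.card :=
        Nat.mul_le_mul_right _ h1
    _ = ((∏ x, (t x).card) * y ^ E.card) * 6 ^ (y * y) := by ring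
    _ ≤ (y ^ y * K.card ^ E.card) * 6 ^ (y * y) := Nat.mul_le_mul_right _ h2
    _ = Fintype.card (Om y) * K.card ^ E.card := by rw [card_Om]; ring

theorem hπ1 : ∀ z : Fin 3, (Finset.univ.filter (fun p : P6 => p.1.1 ≠ z)).card = 4 := by
  decide
theorem hπ2 : ∀ z : Fin 3, (Finset.univ.filter (fun p : P6 => p.1.2 ≠ z)).card = 4 := by
  decide

end count

end Pool.Agent.Lib.MP_e130ca_lc
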