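import Pool.Agent.Lib.MP_e130ca_lc.Fiber
import Pool.Agent.Lib.MP_e130ca_lc.Table

/-!
Counting the data for which some interval is visited often.
-/

namespace Pool.Agent.Lib.MP_e130ca_lc

open Set

/-- first components -/
def fA {y : ℕ} (γ : ZMod y × ZMod y → P6) : ZMod y × ZMod y → Fin 3 := fun j => (γ j).1.1
/-- second components -/
def fB {y : ℕ} (γ : ZMod y × ZMod y → P6) : ZMod y × ZMod y → Fin 3 := fun j => (γ j).1.2

/-- The strategy of a data point. -/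
def th {y : ℕ} (L n : ℕ) (ω : Om y) : ℤ → ℕ → Tab y :=
  strat (2 * L * n) (12 * L) ω.1 (fA ω.2) (fB ω.2)

open Classical in
/-- Exceptional coordinates. -/
noncomputable def J0 (y L n : ℕ) : Finset (ZMod y × ZMod y) :=
  (((Finset.Ico (-(2 * ((y : ℤ) * y)) - 28 * L) (-(2 * ((y : ℤ) * y)))) ∪
    (Finset.Ico (2 * ((y : ℤ) * y)) (2 * ((y : ℤ) * y) + 28 * L))) ×ˢ
    Finset.range (2 * L * n + 1)).image
      (fun p => pj y (p.1 + (p.2 : ℤ) * ((12 * L : ℕ) : ℤ)))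

theorem J0_card (y L n : ℕ) : (J0 y L n).card ≤ 56 * L * (2 * L * n + 1) := by
  classical
  unfold J0
  refine Finset.card_image_le.trans ?_
  rw [Finset.card_product, Finset.card_range]
  apply Nat.mul_le_mul_right
  refine (Finset.card_union_le _ _).trans ?_
  rw [Int.card_Ico, Int.card_Ico]
  omega

theorem mem_J0 {y L n : ℕ} {i : ℤ} {t : ℕ}
    (h1 : -(2 * ((y : ℤ) * y)) - 28 * L ≤ i) (h2 : i < 2 * ((y : ℤ) * y) + 28 * L)
    (h3 : ¬ (-(2 * ((y : ℤ) * y)) ≤ i ∧ i < 2 * ((y : ℤ) * y))) :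
    pj y (i + (min t (2 * L * n) : ℕ) * ((12 * L : ℕ) : ℤ)) ∈ J0 y L n := by
  classical
  unfold J0
  rw [Finset.mem_image]
  refine ⟨(i, min t (2 * L * n)), ?_, rfl⟩
  rw [Finset.mem_product, Finset.mem_union, Finset.mem_Ico, Finset.mem_Ico, Finset.mem_range]
  refine ⟨?_, ?_⟩
  · simp only
    omega
  · simp only
    have := Nat.min_le_right t (2 * L * n)
    omega

theorem strat_in {y L n : ℕ} {s : ZMod y → ZMod y} {α β : ZMod y × ZMod y → Fin 3} {i : ℤ}
    {t : ℕ} (h1 : -(2 * ((y : ℤ) * y)) - 28 * L ≤ i) (h2 : i < 2 * ((y : ℤ) * y) + 28 * L) :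
    co s (strat (2 * L * n) (12 * L) s α β i t) ∈ J0 y L n ∨
      α (co s (strat (2 * L * n) (12 * L) s α β i t)) ≠
        (strat (2 * L * n) (12 * L) s α β i t).2.2 := by
  unfold strat
  by_cases h3 : (-(2 * ((y : ℤ) * y)) ≤ i ∧ i < 2 * ((y : ℤ) * y))
  · rw [if_pos h3]
    right
    exact (pw_ne s α _).symm
  · rw [if_neg h3]
    left
    rw [co_pw]
    exact mem_J0 h1 h2 h3

theorem strat_out {y L n : ℕ} {s : ZMod y → ZMod y} {α β : ZMod y × ZMod y → Fin 3} {i : ℤ}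
    {t : ℕ} (h3 : ¬ (-(2 * ((y : ℤ) * y)) ≤ i ∧ i < 2 * ((y : ℤ) * y))) :
    β (co s (strat (2 * L * n) (12 * L) s α β i t)) ≠
        (strat (2 * L * n) (12 * L) s α β i t).2.2 := by
  unfold strat
  rw [if_neg h3]
  exact (pw_ne s β _).symm

section
variable {Λ G : Type*} {y : ℕ} {M : Sys Λ G (Tab y)} {l : Λ} {g : G} {L n : ℕ}

theorem P_true {θ : ℤ → ℕ → Tab y} (d : BD M l g ((y : ℤ) * y) L n θ) (h : d.fl = true) :
    d.P = Set.Ico d.qm d.qp := by
  unfold BD.P; rw [if_pos h]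

theorem P_false {θ : ℤ → ℕ → Tab y} (d : BD M l g ((y : ℤ) * y) L n θ) (h : ¬ d.fl = true) :
    d.P = (Set.Ico d.qm d.qp)ᶜ := by
  unfold BD.P; rw [if_neg h]

theorem in_M {θ : ℤ → ℕ → Tab y} (d : BD M l g ((y : ℤ) * y) L n θ) {i : ℤ}
    (hi : i ∈ Set.Ico d.qm d.qp) :
    -(2 * ((y : ℤ) * y)) - 28 * L ≤ i ∧ i < 2 * ((y : ℤ) * y) + 28 * L := by
  rw [Set.mem_Ico] at hi
  have := d.hqm1; have := d.hqp2
  omega

theorem out_M {θ : ℤ → ℕ → Tab y} (d : BD M l g ((y : ℤ) * y) L n θ) {i : ℤ}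
    (hi : i ∉ Set.Ico d.qm d.qp) :
    ¬ (-(2 * ((y : ℤ) * y)) ≤ i ∧ i < 2 * ((y : ℤ) * y)) := by
  rw [Set.mem_Ico] at hi
  have := d.hqm2; have := d.hqp1
  omega

/-- Constraints from items read in `M`. -/
theorem constrA {ω : Om y} (d : BD M l g ((y : ℤ) * y) L n (th L n ω)) {S : Set ℤ}
    (hS : ∀ i ∈ S, i ∈ Set.Ico d.qm d.qp) {c : ℤ → ℕ} {w : Tab y}
    (hw : w ∈ part S (th L n ω) c) :
    co ω.1 w ∈ J0 y L n ∨ (fun p : P6 => p.1.1) (ω.2 (co ω.1 w)) ≠ w.2.2 := by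
  obtain ⟨i, hi, t, _, rfl⟩ := hw
  obtain ⟨h1, h2⟩ := in_M d (hS i hi)
  exact strat_in (α := fA ω.2) (β := fB ω.2) h1 h2

/-- Constraints from items read outside `M`. -/
theorem constrB {ω : Om y} (d : BD M l g ((y : ℤ) * y) L n (th L n ω)) {S : Set ℤ}
    (hS : ∀ i ∈ S, i ∉ Set.Ico d.qm d.qp) {c : ℤ → ℕ} {w : Tab y}
    (hw : w ∈ part S (th L n ω) c) :
    co ω.1 w ∈ J0 y L n ∨ (fun p : P6 => p.1.2) (ω.2 (co ω.1 w)) ≠ w.2.2 := by
  obtain ⟨i, hi, t, _, rfl⟩ := hw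
  right
  exact strat_out (α := fA ω.2) (β := fB ω.2) (out_M d (hS i hi))

theorem Q_sub_P {θ : ℤ → ℕ → Tab y} (d : BD M l g ((y : ℤ) * y) L n θ) {i : ℤ}
    (hi : i ∈ Set.Ico d.j1 d.j2) : i ∈ d.P := d.deep i hi i (by simp)

theorem fiber_count [NeZero y] {out : Λ → Bool} (H : Lim M (ini l g).toCfg out)
    [Nontrivial (Tab y)]
    (Φ : Finset (Om y))
    (d : ∀ ω : {ω // ω ∈ Φ}, BD M l g ((y : ℤ) * y) L n (th L n ω.1))
    (hsame : ∀ ω ω', SameRec M l g y L n (d ω) (d ω')) (h : ℕ)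
    (hy : 12 * L * (2 * L * n + 1) ≤ y) :
    Φ.card * 6 ^ h ≤ Fintype.card (Om y) * 4 ^ h ∨
    Φ.card * y ^ (2 * L * n) ≤
      Fintype.card (Om y) * (9 * (h + (J0 y L n).card)) ^ (2 * L * n) := by
  classical
  rcases Φ.eq_empty_or_nonempty with hΦ | ⟨ω₀, hω₀⟩
  · left; rw [hΦ]; simp
  set i₀ : {ω // ω ∈ Φ} := ⟨ω₀, hω₀⟩ with hi₀
  have hset : ∀ i i' b c, (d i).AQ ∪ (d b).AI ∪ (d c).AO = (d i').AQ ∪ (d b).AI ∪ (d c).AO :=
    fun i i' b c => fiber_tri H (d i) (d i') (d b) (d c) (hsame b i) (hsame b i') (hsame b c)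
  let KQ : Finset (Tab y) := Finset.univ.filter (fun w => ∀ i, w ∈ (d i).AQ)
  let KI : Finset (Tab y) := Finset.univ.filter (fun w => ∀ i, w ∈ (d i).AI)
  let KO : Finset (Tab y) := Finset.univ.filter (fun w => ∀ i, w ∈ (d i).AO)
  have hfl : ∀ i, (d i).fl = (d i₀).fl := fun i => (hsame i i₀).fl
  by_cases h1 : 3 * (h + (J0 y L n).card) ≤ KQ.card
  · left
    by_cases hf : (d i₀).fl = true
    · apply cl1 Φ KQ (J0 y L n) h _ hπ1 h1
      intro ω hω w hw
      have hw' := (Finset.mem_filter.mp hw).2 ⟨ω, hω⟩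
      apply constrA (d ⟨ω, hω⟩) _ hw'
      intro i hi
      have := Q_sub_P _ hi
      rwa [P_true _ (by rw [hfl]; exact hf)] at this
    · apply cl1 Φ KQ (J0 y L n) h _ hπ2 h1
      intro ω hω w hw
      have hw' := (Finset.mem_filter.mp hw).2 ⟨ω, hω⟩
      apply constrB (d ⟨ω, hω⟩) _ hw'
      intro i hi
      have := Q_sub_P _ hi
      rwa [P_false _ (by rw [hfl]; exact hf)] at this
  by_cases h2 : 3 * (h + (J0 y L n).card) ≤ KI.card
  · left
    by_cases hf : (d i₀).fl = true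
    · apply cl1 Φ KI (J0 y L n) h _ hπ1 h2
      intro ω hω w hw
      have hw' := (Finset.mem_filter.mp hw).2 ⟨ω, hω⟩
      apply constrA (d ⟨ω, hω⟩) _ hw'
      intro i hi
      have := hi.1
      rwa [P_true _ (by rw [hfl]; exact hf)] at this
    · apply cl1 Φ KI (J0 y L n) h _ hπ2 h2
      intro ω hω w hw
      have hw' := (Finset.mem_filter.mp hw).2 ⟨ω, hω⟩
      apply constrB (d ⟨ω, hω⟩) _ hw'
      intro i hi
      have := hi.1
      rwa [P_false _ (by rw [hfl]; exact hf)] at this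
  by_cases h3 : 3 * (h + (J0 y L n).card) ≤ KO.card
  · left
    by_cases hf : (d i₀).fl = true
    · apply cl1 Φ KO (J0 y L n) h _ hπ2 h3
      intro ω hω w hw
      have hw' := (Finset.mem_filter.mp hw).2 ⟨ω, hω⟩
      apply constrB (d ⟨ω, hω⟩) _ hw'
      intro i hi
      rwa [P_true _ (by rw [hfl]; exact hf)] at hi
    · apply cl1 Φ KO (J0 y L n) h _ hπ1 h3
      intro ω hω w hw
      have hw' := (Finset.mem_filter.mp hw).2 ⟨ω, hω⟩
      apply constrA (d ⟨ω, hω⟩) _ hw'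
      intro i hi
      rw [P_false _ (by rw [hfl]; exact hf), compl_compl] at hi
      exact hi
  right
  set K : Finset (Tab y) := KQ ∪ KI ∪ KO with hK
  have hKc : K.card ≤ 9 * (h + (J0 y L n).card) := by
    have e1 := Finset.card_union_le (KQ ∪ KI) KO
    have e2 := Finset.card_union_le KQ KI
    rw [hK]
    omega
  -- the entries of the reference run
  set c₀ := (d i₀).fin.cnt with hc₀
  have hc₀le : ∀ i, c₀ i ≤ 2 * L * n := (d i₀).hcnt
  let E₀ : Finset (Σ _ : ℤ, ℕ) := (Finset.Ico (d i₀).j1 (d i₀).j2).sigma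
    (fun i => Finset.range (c₀ i))
  have hE₀ : 2 * L * n ≤ E₀.card := by
    simp only [E₀]
    rw [Finset.card_sigma]
    simp only [Finset.card_range]
    exact (d i₀).hsum
  obtain ⟨E, hEs, hEc⟩ := Finset.exists_subset_card_eq hE₀
  have hEm : ∀ e ∈ E, (d i₀).j1 ≤ e.1 ∧ e.1 < (d i₀).j2 ∧ e.2 < c₀ e.1 := by
    intro e he
    have := hEs he
    simp only [E₀, Finset.mem_sigma, Finset.mem_Ico, Finset.mem_range] at this
    exact ⟨this.1.1, this.1.2, this.2⟩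
  have key := cl2 Φ K E (fun e => px y (e.1 + (e.2 : ℤ) * ((12 * L : ℕ) : ℤ)))
    (fun e => pv y (e.1 + (e.2 : ℤ) * ((12 * L : ℕ) : ℤ))) ?_ ?_
  · rw [hEc] at key
    exact key.trans (Nat.mul_le_mul_left _ (Nat.pow_le_pow_left hKc _))
  · -- injectivity
    intro e he e' he' heq
    obtain ⟨a1, a2, a3⟩ := hEm e he
    obtain ⟨b1, b2, b3⟩ := hEm e' he'
    have a4 := hc₀le e.1
    have b4 := hc₀le e'.1
    have hlen := (d i₀).hlen
    have hL : 0 < L := by
      have := (d i₀).hj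
      omega
    have m1 : 12 * L * (e.2 + 1) ≤ 12 * L * (2 * L * n) := Nat.mul_le_mul_left _ (by omega)
    have m2 : 12 * L * (e'.2 + 1) ≤ 12 * L * (2 * L * n) := Nat.mul_le_mul_left _ (by omega)
    have m3 : 12 * L * (2 * L * n + 1) = 12 * L * (2 * L * n) + 12 * L := by ring
    have m4 : 12 * L * (e.2 + 1) = 12 * L * e.2 + 12 * L := by ring
    have m5 : 12 * L * (e'.2 + 1) = 12 * L * e'.2 + 12 * L := by ring
    have n1 : (e.2 : ℤ) * ((12 * L : ℕ) : ℤ) = ((12 * L * e.2 : ℕ) : ℤ) := by push_cast; ring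
    have n2 : (e'.2 : ℤ) * ((12 * L : ℕ) : ℤ) = ((12 * L * e'.2 : ℕ) : ℤ) := by
      push_cast; ring
    simp only [n1, n2] at heq
    have hu := px_inj heq (by omega) (by omega)
    have hlt : e.2 = e'.2 := by
      rcases lt_trichotomy e.2 e'.2 with hlt | hlt | hlt
      · have m6 : 12 * L * (e.2 + 1) ≤ 12 * L * e'.2 := Nat.mul_le_mul_left _ (by omega)
        omega
      · exact hlt
      · have m6 : 12 * L * (e'.2 + 1) ≤ 12 * L * e.2 := Nat.mul_le_mul_left _ (by omega)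
        omega
    have he1 : e.1 = e'.1 := by
      rw [hlt] at hu
      omega
    obtain ⟨e1, e2⟩ := e
    obtain ⟨e1', e2'⟩ := e'
    simp only at he1 hlt
    rw [he1, hlt]
  · intro ω hω e he
    obtain ⟨a1, a2, a3⟩ := hEm e he
    have a4 := hc₀le e.1
    set i : {ω // ω ∈ Φ} := ⟨ω, hω⟩ with hi
    have hs := hsame i₀ i
    have hcnt := hs.cnt (e.1 - (d i₀).j1) (by omega) (by have := (d i₀).hlen; omega)
    rw [show (d i₀).j1 + (e.1 - (d i₀).j1) = e.1 from by ring] at hcnt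
    set i' : ℤ := (d i).j1 + (e.1 - (d i₀).j1) with hi'
    have hwA : th L n ω i' e.2 ∈ (d i).AQ := by
      refine ⟨i', ?_, e.2, ?_, rfl⟩
      · rw [Set.mem_Ico]
        have := hs.len
        omega
      · rw [← hcnt]; exact a3
    have hwK : th L n ω i' e.2 ∈ K := by
      rcases core_sets (fun i => (d i).AQ) (fun i => (d i).AI) (fun i => (d i).AO) hset i _ hwA
        with h4 | h4 | h4
      · rw [hK, Finset.mem_union, Finset.mem_union]
        exact Or.inl (Or.inl (Finset.mem_filter.mpr ⟨Finset.mem_univ _, h4⟩))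
      · rw [hK, Finset.mem_union, Finset.mem_union]
        exact Or.inl (Or.inr (Finset.mem_filter.mpr ⟨Finset.mem_univ _, h4⟩))
      · rw [hK, Finset.mem_union, Finset.mem_union]
        exact Or.inr (Finset.mem_filter.mpr ⟨Finset.mem_univ _, h4⟩)
    have hmin : min e.2 (2 * L * n) = e.2 := by
      apply Nat.min_eq_left; omega
    have hres : ((i' + (e.2 : ℤ) * ((12 * L : ℕ) : ℤ) : ℤ) : ZMod (y * y)) =
        ((e.1 + (e.2 : ℤ) * ((12 * L : ℕ) : ℤ) : ℤ) : ZMod (y * y)) := by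
      have := hs.res
      rw [hi']
      push_cast
      rw [← this]
      ring
    have hpj := pj_congr hres
    have hpx : px y (i' + (e.2 : ℤ) * ((12 * L : ℕ) : ℤ)) =
        px y (e.1 + (e.2 : ℤ) * ((12 * L : ℕ) : ℤ)) := congrArg Prod.fst hpj
    have hpv : pv y (i' + (e.2 : ℤ) * ((12 * L : ℕ) : ℤ)) =
        pv y (e.1 + (e.2 : ℤ) * ((12 * L : ℕ) : ℤ)) := congrArg Prod.snd hpj
    have hform : ∃ z, th L n ω i' e.2 = (px y (i' + (e.2 : ℤ) * ((12 * L : ℕ) : ℤ)),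
        pv y (i' + (e.2 : ℤ) * ((12 * L : ℕ) : ℤ)) +
          ω.1 (px y (i' + (e.2 : ℤ) * ((12 * L : ℕ) : ℤ))), z) := by
      unfold th strat
      rw [hmin]
      by_cases hc : (-(2 * ((y : ℤ) * y)) ≤ i' ∧ i' < 2 * ((y : ℤ) * y))
      · rw [if_pos hc]; exact ⟨_, rfl⟩
      · rw [if_neg hc]; exact ⟨_, rfl⟩
    obtain ⟨z, hz⟩ := hform
    refine ⟨z, ?_⟩
    rw [← hpx, ← hpv, ← hz]
    exact hwK

/-- The data for which some interval is visited often are rare. -/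
theorem bad_count [NeZero y] {out : Λ → Bool} (H : Lim M (ini l g).toCfg out) [Fintype G]
    [Nontrivial (Tab y)] (F : Finset Λ)
    (hF : ∀ θ k, (M.erun θ (ini l g) k).loc ∈ F) (hL : 0 < L) (hn : 0 < n) (h : ℕ)
    (hy : 12 * L * (2 * L * n + 1) ≤ y) (B : Finset (Om y))
    (hB : ∀ ω ∈ B, Bad M l g L n (th L n ω)) (R : ℕ)
    (hR : Fintype.card (Rcd F G y L n) ≤ R) (hR0 : 0 < R)
    (hh1 : 4 * R * 4 ^ h ≤ 6 ^ h)
    (hh2 : 4 * R * (9 * (h + (J0 y L n).card)) ^ (2 * L * n) ≤ y ^ (2 * L * n)) :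
    4 * B.card ≤ Fintype.card (Om y) := by
  classical
  have hlF : l ∈ F := hF (fun _ _ => Classical.arbitrary _) 0
  let l' : {x // x ∈ F} := ⟨l, hlF⟩
  have hN : (0 : ℤ) ≤ (y : ℤ) * y := by positivity
  have hex : ∀ ω : {ω // ω ∈ B}, Nonempty (BD M l g ((y : ℤ) * y) L n (th L n ω.1)) :=
    fun ω => bd_exists M l g _ L n _ hN hL hn (hB ω.1 ω.2)
  let d : ∀ ω : {ω // ω ∈ B}, BD M l g ((y : ℤ) * y) L n (th L n ω.1) :=
    fun ω => (hex ω).some
  let r : {ω // ω ∈ B} → Rcd F G y L n := fun ω => (d ω).rcd F l' y hL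
  have hypos : 0 < y := Nat.pos_of_ne_zero (NeZero.ne y)
  have hfib : ∀ ρ : Rcd F G y L n,
      (4 * R) * (B.attach.filter (fun ω => r ω = ρ)).card ≤ Fintype.card (Om y) := by
    intro ρ
    let Φ : Finset (Om y) := (B.attach.filter (fun ω => r ω = ρ)).map
      ⟨Subtype.val, Subtype.val_injective⟩
    have hΦc : Φ.card = (B.attach.filter (fun ω => r ω = ρ)).card := Finset.card_map _
    have hΦm : ∀ ω ∈ Φ, ∃ hω : ω ∈ B, r ⟨ω, hω⟩ = ρ := by
      intro ω hω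
      simp only [Φ, Finset.mem_map, Finset.mem_filter, Finset.mem_attach, true_and,
        Function.Embedding.coeFn_mk] at hω
      obtain ⟨ω', h1, rfl⟩ := hω
      exact ⟨ω'.2, h1⟩
    have hfc := fiber_count H Φ (fun ω => d ⟨ω.1, (hΦm ω.1 ω.2).1⟩) (by
      intro ω ω'
      apply same_rec M l g F l' y L n hF hL
      have e1 := (hΦm ω.1 ω.2).2
      have e2 := (hΦm ω'.1 ω'.2).2
      exact e1.trans e2.symm) h hy
    rw [← hΦc]
    rcases hfc with hfc | hfc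
    · have h4 : 0 < 4 ^ h := by positivity
      apply Nat.le_of_mul_le_mul_right _ h4
      calc 4 * R * Φ.card * 4 ^ h = (4 * R * 4 ^ h) * Φ.card := by ring
        _ ≤ 6 ^ h * Φ.card := Nat.mul_le_mul_right _ hh1
        _ = Φ.card * 6 ^ h := by ring
        _ ≤ _ := hfc
    · by_cases hz : (9 * (h + (J0 y L n).card)) ^ (2 * L * n) = 0
      · rw [hz, mul_zero] at hfc
        have : Φ.card = 0 := by
          by_contra hne
          have : 0 < Φ.card * y ^ (2 * L * n) := by positivity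
          omega
        rw [this]; omega
      · have h4 : 0 < (9 * (h + (J0 y L n).card)) ^ (2 * L * n) := Nat.pos_of_ne_zero hz
        apply Nat.le_of_mul_le_mul_right _ h4
        calc 4 * R * Φ.card * (9 * (h + (J0 y L n).card)) ^ (2 * L * n)
            = (4 * R * (9 * (h + (J0 y L n).card)) ^ (2 * L * n)) * Φ.card := by ring
          _ ≤ y ^ (2 * L * n) * Φ.card := Nat.mul_le_mul_right _ hh2
          _ = Φ.card * y ^ (2 * L * n) := by ring
          _ ≤ _ := hfc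
  have hsum : B.card = ∑ ρ : Rcd F G y L n, (B.attach.filter (fun ω => r ω = ρ)).card := by
    rw [← Finset.card_attach,
      Finset.card_eq_sum_card_fiberwise (f := r) (t := Finset.univ)
        (fun x _ => Finset.mem_coe.mpr (Finset.mem_univ _))]
  have htot : (4 * R) * B.card ≤ R * Fintype.card (Om y) := by
    rw [hsum, Finset.mul_sum]
    calc ∑ ρ : Rcd F G y L n, 4 * R * (B.attach.filter (fun ω => r ω = ρ)).card
        ≤ ∑ _ρ : Rcd F G y L n, Fintype.card (Om y) := Finset.sum_le_sum (fun ρ _ => hfib ρ)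
      _ = Fintype.card (Rcd F G y L n) * Fintype.card (Om y) := by
          rw [Finset.sum_const, Finset.card_univ, smul_eq_mul]
      _ ≤ R * Fintype.card (Om y) := Nat.mul_le_mul_right _ hR
  apply Nat.le_of_mul_le_mul_left _ hR0
  calc R * (4 * B.card) = 4 * R * B.card := by ring
    _ ≤ _ := htot

end

end Pool.Agent.Lib.MP_e130ca_lc
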