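import Pool.Agent.Lib.MP_e130ca_lc.Tri

/-!
Visit counts of intervals, the first time an interval is visited often, and good cuts.
-/

namespace Pool.Agent.Lib.MP_e130ca_lc

variable {Λ G W : Type*}

theorem sum_Ico_eq (f : ℤ → ℕ) (b : ℤ) (m : ℕ) :
    ∑ i ∈ Finset.Ico b (b + m), f i = ∑ r ∈ Finset.range m, f (b + r) := by
  symm
  apply Finset.sum_nbij' (fun r : ℕ => b + (r : ℤ)) (fun i : ℤ => (i - b).toNat)
  · intro r hr
    simp only [Finset.mem_range] at hr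
    simp only [Finset.mem_Ico]
    omega
  · intro i hi
    simp only [Finset.mem_Ico] at hi
    simp only [Finset.mem_range]
    omega
  · intro r _
    simp
  · intro i hi
    simp only [Finset.mem_Ico] at hi
    omega
  · intro r _
    rfl

theorem sum_pairs (f : ℤ → ℕ) (b : ℤ) (m : ℕ) :
    ∑ r ∈ Finset.range m, (f (b + 2 * r) + f (b + 2 * r + 1)) =
      ∑ r ∈ Finset.range (2 * m), f (b + r) := by
  induction m with
  | zero => simp
  | succ m ih =>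
    rw [Finset.sum_range_succ, ih, show 2 * (m + 1) = 2 * m + 1 + 1 from by ring,
      Finset.sum_range_succ, Finset.sum_range_succ]
    push_cast
    rw [← add_assoc b]
    ring

/-- A rarely visited pair of neighbours exists in every rarely visited interval. -/
theorem cut_exists (f : ℤ → ℕ) (L n : ℕ) (hL : 0 < L) (k : ℤ)
    (h : ∑ i ∈ Finset.Ico (k * (4 * L)) ((k + 1) * (4 * L)), f i ≤ 2 * L * n) :
    ∃ j, k * (4 * L) < j ∧ j < (k + 1) * (4 * L) ∧ f (j - 1) + f j ≤ n := by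
  by_contra hcon
  push Not at hcon
  have e : (k + 1) * (4 * (L : ℤ)) = k * (4 * L) + ((2 * (2 * L) : ℕ) : ℤ) := by
    push_cast; ring
  rw [e, sum_Ico_eq, ← sum_pairs] at h
  have h2 : ∑ r ∈ Finset.range (2 * L), (n + 1) ≤
      ∑ r ∈ Finset.range (2 * L),
        (f (k * (4 * L) + 2 * r) + f (k * (4 * L) + 2 * r + 1)) := by
    apply Finset.sum_le_sum
    intro r hr
    rw [Finset.mem_range] at hr
    have := hcon (k * (4 * L) + 2 * r + 1) (by omega) (by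
      rw [e]; push_cast; omega)
    rw [show k * (4 * (L : ℤ)) + 2 * r + 1 - 1 = k * (4 * L) + 2 * r from by ring] at this
    omega
  rw [Finset.sum_const, Finset.card_range, smul_eq_mul] at h2
  have h3 : 2 * L * (n + 1) ≤ 2 * L * n := h2.trans h
  have h4 : 2 * L * (n + 1) = 2 * L * n + 2 * L := by ring
  omega

theorem sum_step (A : Finset ℤ) (c : ℤ → ℕ) (p : ℤ) :
    ∑ i ∈ A, (if i = p then c i + 1 else c i) = ∑ i ∈ A, c i + if p ∈ A then 1 else 0 := by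
  have : ∀ i, (if i = p then c i + 1 else c i) = c i + (if i = p then 1 else 0) := by
    intro i; split_ifs <;> omega
  simp only [this, Finset.sum_add_distrib]
  congr 1
  rw [Finset.sum_ite_eq']

theorem erun_cnt_succ (M : Sys Λ G W) (θ : ℤ → ℕ → W) (c : ECfg Λ G) (k : ℕ) (i : ℤ) :
    (M.erun θ c (k + 1)).cnt i = if i = (M.erun θ c k).pos then (M.erun θ c k).cnt i + 1
      else (M.erun θ c k).cnt i := rfl

theorem erun_sum_succ (M : Sys Λ G W) (θ : ℤ → ℕ → W) (c : ECfg Λ G) (k : ℕ) (A : Finset ℤ) :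
    ∑ i ∈ A, (M.erun θ c (k + 1)).cnt i =
      ∑ i ∈ A, (M.erun θ c k).cnt i + if (M.erun θ c k).pos ∈ A then 1 else 0 := by
  rw [← sum_step]
  rfl

theorem erun_move (M : Sys Λ G W) (θ : ℤ → ℕ → W) (c : ECfg Λ G) (k : ℕ) :
    |(M.erun θ c (k + 1)).pos - (M.erun θ c k).pos| ≤ 1 := M.move _ _

/-- The interval with index `k`. -/
noncomputable def Iv (L : ℕ) (k : ℤ) : Finset ℤ := Finset.Ico (k * (4 * L)) ((k + 1) * (4 * L))

/-- Some interval is visited at least `2 L n` times. -/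
def Bad (M : Sys Λ G W) (l : Λ) (g : G) (L n : ℕ) (θ : ℤ → ℕ → W) : Prop :=
  ∃ t k, 2 * L * n ≤ ∑ i ∈ Iv L k, (M.erun θ (ini l g) t).cnt i

/-- Data at the first time an interval is visited often. -/
structure BD (M : Sys Λ G W) (l : Λ) (g : G) (N : ℤ) (L n : ℕ) (θ : ℤ → ℕ → W) where
  τ : ℕ
  j1 : ℤ
  j2 : ℤ
  qm : ℤ
  qp : ℤ
  fl : Bool
  hj : j1 < j2
  hlen : j2 - j1 < 12 * L
  hqm1 : -(2 * N) - 28 * L < qm
  hqm2 : qm ≤ -(2 * N)
  hqp1 : 2 * N ≤ qp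
  hqp2 : qp < 2 * N + 28 * L
  deep : Deep (Set.Ico j1 j2) (if fl = true then Set.Ico qm qp else (Set.Ico qm qp)ᶜ)
  hcQ : (M.erun θ (ini l g) τ).cnt (j1 - 1) + (M.erun θ (ini l g) τ).cnt j1 +
    (M.erun θ (ini l g) τ).cnt (j2 - 1) + (M.erun θ (ini l g) τ).cnt j2 ≤ 2 * n
  hcM : (M.erun θ (ini l g) τ).cnt (qm - 1) + (M.erun θ (ini l g) τ).cnt qm +
    (M.erun θ (ini l g) τ).cnt (qp - 1) + (M.erun θ (ini l g) τ).cnt qp ≤ 2 * n
  hcnt : ∀ i, (M.erun θ (ini l g) τ).cnt i ≤ 2 * L * n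
  hfin1 : j1 ≤ (M.erun θ (ini l g) τ).pos
  hfin2 : (M.erun θ (ini l g) τ).pos < j2
  hsum : 2 * L * n ≤ ∑ i ∈ Finset.Ico j1 j2, (M.erun θ (ini l g) τ).cnt i

theorem bd_exists (M : Sys Λ G W) (l : Λ) (g : G) (N : ℤ) (L n : ℕ) (θ : ℤ → ℕ → W)
    (hN : 0 ≤ N) (hL : 0 < L) (hn : 0 < n) (hb : Bad M l g L n θ) :
    Nonempty (BD M l g N L n θ) := by
  classical
  have hb' : ∃ t, ∃ k, 2 * L * n ≤ ∑ i ∈ Iv L k, (M.erun θ (ini l g) t).cnt i := hb
  let τ := Nat.find hb'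
  obtain ⟨k, hk⟩ : ∃ k, 2 * L * n ≤ ∑ i ∈ Iv L k, (M.erun θ (ini l g) τ).cnt i :=
    Nat.find_spec hb'
  have hmin : ∀ t < τ, ∀ k', ∑ i ∈ Iv L k', (M.erun θ (ini l g) t).cnt i < 2 * L * n := by
    intro t ht k'
    by_contra hc
    rw [not_lt] at hc
    exact Nat.find_min hb' ht ⟨k', hc⟩
  have hpos : 0 < 2 * L * n := by positivity
  obtain ⟨t, ht⟩ : ∃ t, τ = t + 1 := by
    apply Nat.exists_eq_succ_of_ne_zero
    intro h0
    rw [h0] at hk
    have : ∑ i ∈ Iv L k, (M.erun θ (ini l g) 0).cnt i = 0 := by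
      apply Finset.sum_eq_zero
      intro i _
      rfl
    omega
  have hall : ∀ k', ∑ i ∈ Iv L k', (M.erun θ (ini l g) τ).cnt i ≤ 2 * L * n := by
    intro k'
    rw [ht, erun_sum_succ]
    have := hmin t (by omega) k'
    split_ifs <;> omega
  have hp : (M.erun θ (ini l g) t).pos ∈ Iv L k := by
    by_contra hc
    have h1 := hmin t (by omega) k
    rw [ht, erun_sum_succ, if_neg hc] at hk
    omega
  have hmv := erun_move M θ (ini l g) t
  rw [← ht] at hmv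
  rw [abs_le] at hmv
  set c := (M.erun θ (ini l g) τ).cnt with hc
  -- the linear arithmetic of the intervals
  set ℓ : ℤ := 4 * (L : ℤ) with hℓ
  have hℓ4 : 4 ≤ ℓ := by omega
  have hIv : ∀ k', Iv L k' = Finset.Ico (k' * ℓ) ((k' + 1) * ℓ) := fun k' => rfl
  rw [hIv, Finset.mem_Ico] at hp
  have cutE : ∀ k', ∃ j, k' * ℓ < j ∧ j < (k' + 1) * ℓ ∧ c (j - 1) + c j ≤ n :=
    fun k' => cut_exists c L n hL k' (hall k')
  obtain ⟨j1, hj1a, hj1b, hj1c⟩ := cutE (k - 1)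
  obtain ⟨j2, hj2a, hj2b, hj2c⟩ := cutE (k + 1)
  have hcnt : ∀ i, c i ≤ 2 * L * n := by
    intro i
    refine le_trans ?_ (hall (i / ℓ))
    apply Finset.single_le_sum (f := c) (fun _ _ => Nat.zero_le _)
    rw [hIv, Finset.mem_Ico]
    constructor
    · exact Int.ediv_mul_le _ (by omega)
    · exact Int.lt_ediv_add_one_mul_self _ (by omega)
  -- the right cut
  set kp : ℤ := 2 * N / ℓ + 1 with hkp
  have hkp1 : 2 * N < kp * ℓ := Int.lt_ediv_add_one_mul_self _ (by omega)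
  have hkp2 : kp * ℓ ≤ 2 * N + ℓ := by
    have : (2 * N / ℓ) * ℓ ≤ 2 * N := Int.ediv_mul_le _ (by omega)
    rw [hkp, add_mul, one_mul]; omega
  have hap : ∃ a : ℤ, (a = kp ∨ a = kp + 5) ∧ (a ≤ k - 3 ∨ k + 3 ≤ a) := by
    by_cases h1 : kp ≤ k - 3 ∨ k + 3 ≤ kp
    · exact ⟨kp, Or.inl rfl, h1⟩
    · exact ⟨kp + 5, Or.inr rfl, by omega⟩
  obtain ⟨ap, hap1, hap2⟩ := hap
  have ham : ∃ a : ℤ, (a = -kp - 1 ∨ a = -kp - 1 - 5) ∧ (a ≤ k - 3 ∨ k + 3 ≤ a) := by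
    by_cases h1 : -kp - 1 ≤ k - 3 ∨ k + 3 ≤ -kp - 1
    · exact ⟨-kp - 1, Or.inl rfl, h1⟩
    · exact ⟨-kp - 1 - 5, Or.inr rfl, by omega⟩
  obtain ⟨am, ham1, ham2⟩ := ham
  obtain ⟨qp, hqpa, hqpb, hqpc⟩ := cutE ap
  obtain ⟨qm, hqma, hqmb, hqmc⟩ := cutE am
  have hapl : kp * ℓ ≤ ap * ℓ ∧ (ap + 1) * ℓ ≤ kp * ℓ + 6 * ℓ := by
    rcases hap1 with rfl | rfl
    · constructor
      · exact le_rfl
      · nlinarith
    · constructor <;> nlinarith
  have haml : (am + 1) * ℓ ≤ -(kp * ℓ) ∧ -(kp * ℓ) - 6 * ℓ ≤ am * ℓ := by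
    rcases ham1 with rfl | rfl
    · constructor
      · nlinarith
      · nlinarith
    · constructor <;> nlinarith
  have hlow : ∀ a b : ℤ, a ≤ b → a * ℓ ≤ b * ℓ := fun a b hab => by nlinarith
  have e1 : (k - 1) * ℓ = k * ℓ - ℓ := by ring
  have e2 : (k - 1 + 1) * ℓ = k * ℓ := by ring
  have e3 : (k + 1) * ℓ = k * ℓ + ℓ := by ring
  have e4 : (k + 1 + 1) * ℓ = k * ℓ + 2 * ℓ := by ring
  rw [e1] at hj1a
  rw [e2] at hj1b
  rw [e3] at hj2a
  rw [e4] at hj2b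
  rw [e3] at hp
  -- relative position of the two cuts
  have hcmp : ∀ a q : ℤ, a * ℓ < q → q < (a + 1) * ℓ → (a ≤ k - 3 ∨ k + 3 ≤ a) →
      (q < k * ℓ - ℓ) ∨ (k * ℓ + 2 * ℓ < q) := by
    intro a q h1 h2 h3
    rcases h3 with h3 | h3
    · left
      have := hlow (a + 1) (k - 2) (by omega)
      have e5 : (k - 2) * ℓ = k * ℓ - 2 * ℓ := by ring
      omega
    · right
      have := hlow (k + 3) a h3
      have e5 : (k + 3) * ℓ = k * ℓ + 3 * ℓ := by ring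
      omega
  have hqp' := hcmp ap qp hqpa hqpb hap2
  have hqm' := hcmp am qm hqma hqmb ham2
  have hdeep : ∃ fl : Bool,
      Deep (Set.Ico j1 j2) (if fl = true then Set.Ico qm qp else (Set.Ico qm qp)ᶜ) := by
    by_cases hin : qm < k * ℓ - ℓ ∧ k * ℓ + 2 * ℓ < qp
    · refine ⟨true, ?_⟩
      rw [if_pos rfl]
      intro i hi j hji
      rw [Set.mem_Ico] at hi ⊢
      rw [abs_le] at hji
      omega
    · refine ⟨false, ?_⟩
      rw [if_neg (by decide)]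
      intro i hi j hji
      rw [Set.mem_Ico] at hi
      rw [Set.mem_compl_iff, Set.mem_Ico]
      rw [abs_le] at hji
      have hlt : qm < qp := by omega
      omega
  obtain ⟨fl, hfl⟩ := hdeep
  have hcQ : c (j1 - 1) + c j1 + c (j2 - 1) + c j2 ≤ 2 * n := by omega
  have hcM : c (qm - 1) + c qm + c (qp - 1) + c qp ≤ 2 * n := by omega
  refine ⟨⟨τ, j1, j2, qm, qp, fl, by omega, by omega, by omega, by omega, by omega, by omega,
    hfl, hcQ, hcM, hcnt, by omega, by omega, ?_⟩⟩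
  refine hk.trans ?_
  apply Finset.sum_le_sum_of_subset
  intro i hi
  rw [hIv, Finset.mem_Ico, e3] at hi
  rw [Finset.mem_Ico]
  omega

end Pool.Agent.Lib.MP_e130ca_lc
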