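import Mathlib

/-!
Automatic families, learners, and linear-time learners with additional work-tapes.
-/

namespace Pool.Agent.Lib.MP_e130ca_lc

open Filter

/-- The convolution of two words, letter by letter; the shorter word is padded with `none`. -/
def conv {B A : Type} (e : List B) (x : List A) : List (Option B × Option A) :=
  List.zipWithAll Prod.mk e x

/-- `{L e : e ∈ I}` is an automatic family: `I` is regular and `{conv e x : e ∈ I, x ∈ L e}` is
regular. -/
def IsAutomatic {A B : Type} (I : Language B) (L : List B → Language A) : Prop :=
  I.IsRegular ∧
    Language.IsRegular ({w | ∃ e ∈ I, ∃ x ∈ L e, w = conv e x} : Language (Option B × Option A))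

/-- `g` is a text for `S`: the set of its entries is exactly `S`. -/
def IsText {A : Type} (g : ℕ → List A) (S : Language A) : Prop :=
  ∀ w, w ∈ S ↔ ∃ k, g k = w

/-- Some unrestricted learner, mapping the words read so far to an index, learns the family. -/
def Learnable {A B : Type} (I : Language B) (L : List B → Language A) : Prop :=
  ∃ F : List (List A) → List B, (∀ σ, F σ ∈ I) ∧
    ∀ e ∈ I, ∀ g, IsText g (L e) →
      ∀ᶠ k in atTop, L (F ((List.range (k + 1)).map g)) = L e

/-- Angluin's tell-tale condition. -/
def TellTale {A B : Type} (I : Language B) (L : List B → Language A) : Prop :=
  ∀ e ∈ I, ∃ D : Set (List A), D.Finite ∧ (∀ x ∈ D, x ∈ L e) ∧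
    ∀ d ∈ I, (∀ x ∈ D, x ∈ L d) → (∀ x, x ∈ L d → x ∈ L e) → L d = L e

/-- Head moves. -/
inductive Dir
  | left
  | stay
  | right

/-- The displacement of a head move. -/
def Dir.toInt : Dir → ℤ
  | .left => -1
  | .stay => 0
  | .right => 1

/-- A Turing machine with a base tape (tape `0`) and `k` additional work-tapes, together with its
two constants. A symbol of the base tape consists of a letter of the input or blank, a letter of
the output or blank, and a symbol of the memory. The alphabet of the input is `A`, the alphabet
of the output is `B`. -/
structure Machine (A B : Type) (k : ℕ) where
  /-- states -/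
  State : Type
  /-- symbols of the memory track of the base tape -/
  Mem : Type
  /-- symbols of the work-tapes -/
  Work : Type
  finState : Finite State
  finMem : Finite Mem
  finWork : Finite Work
  /-- the state in which every cycle starts -/
  start : State
  /-- the halting states -/
  halt : Set State
  memBlank : Mem
  workBlank : Work
  /-- the transition function: new state, symbol written on the base tape, move of its head,
  symbols written on the work-tapes and moves of their heads -/
  δ : State → Option A × Option B × Mem → (Fin k → Work) →
    State × (Option A × Option B × Mem) × Dir × (Fin k → Work × Dir)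
  /-- the additive constant in the bound on the length of the base tape -/
  pad : ℕ
  /-- the constant `c` in the bound `c (n + 1)` on the number of steps of a cycle -/
  c : ℕ

/-- Configurations. All tapes are indexed by the integers. -/
@[ext] structure Config {A B : Type} {k : ℕ} (T : Machine A B k) where
  state : T.State
  bpos : ℤ
  base : ℤ → Option A × Option B × T.Mem
  wpos : Fin k → ℤ
  work : Fin k → ℤ → T.Work

variable {A B : Type} {k : ℕ}

open Classical in
/-- One step; nothing happens in a halting state. -/
noncomputable def Machine.step (T : Machine A B k) (C : Config T) : Config T :=
  if C.state ∈ T.halt then C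
  else
    let r := T.δ C.state (C.base C.bpos) (fun j => C.work j (C.wpos j))
    { state := r.1
      bpos := C.bpos + r.2.2.1.toInt
      base := Function.update C.base C.bpos r.2.1
      wpos := fun j => C.wpos j + (r.2.2.2 j).2.toInt
      work := fun j => Function.update (C.work j) (C.wpos j) (r.2.2.2 j).1 }

/-- The content of cell `i` of a track carrying the word `w`, which begins at cell `0`. -/
def cell {A : Type} (w : List A) (i : ℤ) : Option A := if 0 ≤ i then w[i.toNat]? else none

/-- The start of a cycle with input `w`: the input track is overwritten with `w`, the state is
the start state and the head of the base tape is at cell `0`. The output and memory tracks of the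
base tape and the work-tapes with their head positions are kept. -/
def Machine.load (T : Machine A B k) (w : List A) (C : Config T) : Config T :=
  { C with
    state := T.start
    bpos := 0
    base := fun i => (cell w i, (C.base i).2) }

/-- The configuration before the first cycle: all tapes are blank. -/
def Machine.init (T : Machine A B k) : Config T where
  state := T.start
  bpos := 0
  base := fun _ => (none, none, T.memBlank)
  wpos := fun _ => 0
  work := fun _ _ => T.workBlank

/-- The maximal length of the words read in the cycles `0, …, t`. -/
def maxLen {A : Type} (g : ℕ → List A) (t : ℕ) : ℕ :=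
  (Finset.range (t + 1)).sup (fun j => (g j).length)

/-- The configuration after the cycles `0, …, t - 1` on the sequence `g`. Cycle `t` consists of
`c (n + 1)` steps, where `n` is the maximal length of a word read so far. -/
noncomputable def Machine.conf (T : Machine A B k) (g : ℕ → List A) : ℕ → Config T
  | 0 => T.init
  | t + 1 => T.step^[T.c * (maxLen g t + 1)] (T.load (g t) (T.conf g t))

/-- In cycle `t` the machine halts within `c (n + 1)` steps, and the head of the base tape stays
within `n + 2 * pad + 1` cells. -/
def Machine.Obeys (T : Machine A B k) (g : ℕ → List A) (t : ℕ) : Prop :=
  (T.conf g (t + 1)).state ∈ T.halt ∧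
    ∀ j ≤ T.c * (maxLen g t + 1),
      -(T.pad : ℤ) ≤ (T.step^[j] (T.load (g t) (T.conf g t))).bpos ∧
      (T.step^[j] (T.load (g t) (T.conf g t))).bpos ≤ (maxLen g t : ℤ) + T.pad

/-- The output track carries the word `e`, beginning at cell `0`. -/
def Machine.Outputs (T : Machine A B k) (C : Config T) (e : List B) : Prop :=
  ∀ i : ℕ, (C.base i).2.1 = e[i]?

/-- The machine is a linear-time learner of the family: on every text for a language of the
family it obeys the bounds, and its outputs converge to indices of this language. -/
def Machine.Learns (T : Machine A B k) (I : Language B) (L : List B → Language A) : Prop :=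
  ∀ e ∈ I, ∀ g, IsText g (L e) → (∀ t, T.Obeys g t) ∧
    ∀ᶠ t in atTop, ∃ e' ∈ I, T.Outputs (T.conf g t) e' ∧ L e' = L e

/-- The index set of the family: all nonempty words over the letters `0, 1, 2, 3`. -/
def famI : Language (Fin 4) := {e | e ≠ []}

/-- The language with index `e`: all words over the letters `0, 1, 2` that have the length of `e`
and are different from `e`. -/
def famL (e : List (Fin 4)) : Language (Fin 3) :=
  {x | x.length = e.length ∧ x.map Fin.castSucc ≠ e}

end Pool.Agent.Lib.MP_e130ca_lc
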