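import Pool.Agent.Lib.MP_e130ca_lc.Defs

/-!
The family is automatic and learnable.
-/

namespace Pool.Agent.Lib.MP_e130ca_lc

open Filter

theorem mem_famL {e : List (Fin 4)} {x : List (Fin 3)} :
    x ∈ famL e ↔ x.length = e.length ∧ x.map Fin.castSucc ≠ e := Iff.rfl

theorem mem_famI {e : List (Fin 4)} : e ∈ famI ↔ e ≠ [] := Iff.rfl

/-- automaton for nonempty words -/
def dfaI : DFA (Fin 4) Bool where
  step := fun _ _ => true
  start := false
  accept := {true}

theorem dfaI_eval (w : List (Fin 4)) : dfaI.eval w = !w.isEmpty := by
  induction w using List.reverseRecOn with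
  | nil => rfl
  | append_singleton w a _ =>
    rw [DFA.eval_append_singleton]
    simp [dfaI]

theorem famI_regular : famI.IsRegular := by
  refine ⟨Bool, inferInstance, dfaI, ?_⟩
  ext w
  rw [DFA.mem_accepts, dfaI_eval, mem_famI]
  show (!w.isEmpty) ∈ ({true} : Set Bool) ↔ _
  cases w <;> simp

/-- states: `0` equal so far, `1` different, `2` dead -/
def stepC (s : Fin 3) (p : Option (Fin 4) × Option (Fin 3)) : Fin 3 :=
  match p with
  | (some b, some a) => if s = 2 then 2 else if s = 1 then 1 else if a.castSucc = b then 0 else 1
  | _ => 2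

/-- automaton for the convolutions -/
def dfaC : DFA (Option (Fin 4) × Option (Fin 3)) (Fin 3) where
  step := stepC
  start := 0
  accept := {1}

theorem conv_cons (b : Fin 4) (a : Fin 3) (e : List (Fin 4)) (x : List (Fin 3)) :
    conv (b :: e) (a :: x) = (some b, some a) :: conv e x := rfl

theorem evalC_two (w : List (Option (Fin 4) × Option (Fin 3))) : dfaC.evalFrom 2 w = 2 := by
  induction w with
  | nil => rfl
  | cons p w ih =>
    rw [DFA.evalFrom_cons]
    have : dfaC.step 2 p = 2 := by
      show stepC 2 p = 2
      unfold stepC
      rcases p with ⟨_ | b, _ | a⟩ <;> simp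
    rw [this, ih]

theorem evalC_one (w : List (Option (Fin 4) × Option (Fin 3))) : dfaC.evalFrom 1 w = 1 ↔
    ∃ (e : List (Fin 4)) (x : List (Fin 3)), x.length = e.length ∧ w = conv e x := by
  induction w with
  | nil =>
    constructor
    · intro _
      exact ⟨[], [], rfl, rfl⟩
    · intro _
      rfl
  | cons p w ih =>
    rw [DFA.evalFrom_cons]
    rcases p with ⟨_ | b, _ | a⟩
    · have : dfaC.step 1 (none, none) = 2 := rfl
      rw [this, evalC_two]
      constructor
      · intro h; exact absurd h (by decide)
      · rintro ⟨e, x, hl, h⟩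
        rcases e with _ | ⟨b', e⟩ <;> rcases x with _ | ⟨a', x⟩
        · simp [conv] at h
        · simp at hl
        · simp at hl
        · rw [conv_cons] at h; simp at h
    · have : dfaC.step 1 (none, some a) = 2 := rfl
      rw [this, evalC_two]
      constructor
      · intro h; exact absurd h (by decide)
      · rintro ⟨e, x, hl, h⟩
        rcases e with _ | ⟨b', e⟩ <;> rcases x with _ | ⟨a', x⟩
        · simp [conv] at h
        · simp at hl
        · simp at hl
        · rw [conv_cons] at h; simp at h
    · have : dfaC.step 1 (some b, none) = 2 := rfl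
      rw [this, evalC_two]
      constructor
      · intro h; exact absurd h (by decide)
      · rintro ⟨e, x, hl, h⟩
        rcases e with _ | ⟨b', e⟩ <;> rcases x with _ | ⟨a', x⟩
        · simp [conv] at h
        · simp at hl
        · simp at hl
        · rw [conv_cons] at h; simp at h
    · have : dfaC.step 1 (some b, some a) = 1 := rfl
      rw [this, ih]
      constructor
      · rintro ⟨e, x, hl, rfl⟩
        exact ⟨b :: e, a :: x, by simp [hl], rfl⟩
      · rintro ⟨e, x, hl, h⟩
        rcases e with _ | ⟨b', e⟩ <;> rcases x with _ | ⟨a', x⟩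
        · simp [conv] at h
        · simp at hl
        · simp at hl
        · rw [conv_cons, List.cons.injEq] at h
          exact ⟨e, x, by simpa using hl, h.2⟩

theorem evalC_zero (w : List (Option (Fin 4) × Option (Fin 3))) : dfaC.evalFrom 0 w = 1 ↔
    ∃ (e : List (Fin 4)) (x : List (Fin 3)),
      (x.length = e.length ∧ x.map Fin.castSucc ≠ e) ∧ w = conv e x := by
  induction w with
  | nil =>
    constructor
    · intro h
      exact absurd h (by decide)
    · rintro ⟨e, x, ⟨hl, hne⟩, h⟩
      rcases e with _ | ⟨b', e⟩ <;> rcases x with _ | ⟨a', x⟩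
      · simp at hne
      · simp at hl
      · simp at hl
      · rw [conv_cons] at h; simp at h
  | cons p w ih =>
    rw [DFA.evalFrom_cons]
    rcases p with ⟨_ | b, _ | a⟩
    · have : dfaC.step 0 (none, none) = 2 := rfl
      rw [this, evalC_two]
      constructor
      · intro h; exact absurd h (by decide)
      · rintro ⟨e, x, ⟨hl, _⟩, h⟩
        rcases e with _ | ⟨b', e⟩ <;> rcases x with _ | ⟨a', x⟩
        · simp [conv] at h
        · simp at hl
        · simp at hl
        · rw [conv_cons] at h; simp at h
    · have : dfaC.step 0 (none, some a) = 2 := rfl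
      rw [this, evalC_two]
      constructor
      · intro h; exact absurd h (by decide)
      · rintro ⟨e, x, ⟨hl, _⟩, h⟩
        rcases e with _ | ⟨b', e⟩ <;> rcases x with _ | ⟨a', x⟩
        · simp [conv] at h
        · simp at hl
        · simp at hl
        · rw [conv_cons] at h; simp at h
    · have : dfaC.step 0 (some b, none) = 2 := rfl
      rw [this, evalC_two]
      constructor
      · intro h; exact absurd h (by decide)
      · rintro ⟨e, x, ⟨hl, _⟩, h⟩
        rcases e with _ | ⟨b', e⟩ <;> rcases x with _ | ⟨a', x⟩
        · simp [conv] at h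
        · simp at hl
        · simp at hl
        · rw [conv_cons] at h; simp at h
    · by_cases hab : a.castSucc = b
      · have : dfaC.step 0 (some b, some a) = 0 := by
          show stepC 0 (some b, some a) = 0
          simp [stepC, hab]
        rw [this, ih]
        constructor
        · rintro ⟨e, x, ⟨hl, hne⟩, rfl⟩
          refine ⟨b :: e, a :: x, ⟨by simp [hl], ?_⟩, rfl⟩
          rw [List.map_cons, hab]
          intro h
          rw [List.cons.injEq] at h
          exact hne h.2
        · rintro ⟨e, x, ⟨hl, hne⟩, h⟩
          rcases e with _ | ⟨b', e⟩ <;> rcases x with _ | ⟨a', x⟩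
          · simp at hne
          · simp at hl
          · simp at hl
          · rw [conv_cons, List.cons.injEq, Prod.mk.injEq, Option.some.injEq,
              Option.some.injEq] at h
            obtain ⟨⟨h1, h2⟩, h3⟩ := h
            subst h1 h2
            refine ⟨e, x, ⟨by simpa using hl, ?_⟩, h3⟩
            intro h4
            apply hne
            rw [List.map_cons, hab, h4]
      · have : dfaC.step 0 (some b, some a) = 1 := by
          show stepC 0 (some b, some a) = 1
          simp [stepC, hab]
        rw [this, evalC_one]
        constructor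
        · rintro ⟨e, x, hl, rfl⟩
          refine ⟨b :: e, a :: x, ⟨by simp [hl], ?_⟩, rfl⟩
          rw [List.map_cons]
          intro h
          rw [List.cons.injEq] at h
          exact hab h.1
        · rintro ⟨e, x, ⟨hl, _⟩, h⟩
          rcases e with _ | ⟨b', e⟩ <;> rcases x with _ | ⟨a', x⟩
          · simp [conv] at h
          · simp at hl
          · simp at hl
          · rw [conv_cons, List.cons.injEq] at h
            exact ⟨e, x, by simpa using hl, h.2⟩

theorem fam_automatic : IsAutomatic famI famL := by
  refine ⟨famI_regular, Fin 3, inferInstance, dfaC, ?_⟩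
  ext w
  rw [DFA.mem_accepts]
  show dfaC.evalFrom 0 w ∈ ({1} : Set (Fin 3)) ↔ ∃ e ∈ famI, ∃ x ∈ famL e, w = conv e x
  rw [Set.mem_singleton_iff, evalC_zero]
  constructor
  · rintro ⟨e, x, ⟨hl, hne⟩, h⟩
    refine ⟨e, ?_, x, ⟨hl, hne⟩, h⟩
    rw [mem_famI]
    rintro rfl
    rcases x with _ | ⟨a', x⟩
    · simp at hne
    · simp at hl
  · rintro ⟨e, _, x, ⟨hl, hne⟩, h⟩
    exact ⟨e, x, ⟨hl, hne⟩, h⟩

theorem words_finite (n : ℕ) : {x : List (Fin 3) | x.length = n}.Finite :=
  List.finite_length_eq (Fin 3) n

theorem famL_finite (e : List (Fin 4)) : {x | x ∈ famL e}.Finite :=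
  (words_finite e.length).subset (fun _ hx => hx.1)

theorem fam_tellTale : TellTale famI famL := by
  intro e _
  refine ⟨{x | x ∈ famL e}, famL_finite e, fun x hx => hx, ?_⟩
  intro d _ h1 h2
  ext x
  exact ⟨h2 x, h1 x⟩

/-- indices of full languages -/
theorem famL_full {e : List (Fin 4)} (h : ∀ x : List (Fin 3), x.map Fin.castSucc ≠ e)
    (x : List (Fin 3)) : x ∈ famL e ↔ x.length = e.length :=
  ⟨fun hx => hx.1, fun hx => ⟨hx, h x⟩⟩

theorem castSucc_inj {x z : List (Fin 3)} (h : x.map Fin.castSucc = z.map Fin.castSucc) :
    x = z := List.map_injective_iff.mpr (Fin.castSucc_injective 3) h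

theorem famL_miss (z x : List (Fin 3)) :
    x ∈ famL (z.map Fin.castSucc) ↔ x.length = z.length ∧ x ≠ z := by
  rw [mem_famL, List.length_map]
  constructor
  · rintro ⟨h1, h2⟩
    exact ⟨h1, fun h => h2 (by rw [h])⟩
  · rintro ⟨h1, h2⟩
    exact ⟨h1, fun h => h2 (castSucc_inj h)⟩

theorem castSucc_ne : ∀ a : Fin 3, a.castSucc ≠ (3 : Fin 4) := by decide

theorem rep_ne {n : ℕ} (hn : 0 < n) (x : List (Fin 3)) :
    x.map Fin.castSucc ≠ List.replicate n (3 : Fin 4) := by
  intro h
  have : (3 : Fin 4) ∈ x.map Fin.castSucc := by
    rw [h, List.mem_replicate]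
    exact ⟨by omega, rfl⟩
  rw [List.mem_map] at this
  obtain ⟨a, _, ha⟩ := this
  exact castSucc_ne a ha

open Classical in
/-- the learner -/
noncomputable def lrn (σ : List (List (Fin 3))) : List (Fin 4) :=
  if h : ∃ z : List (Fin 3), z.length = max 1 (σ.headD []).length ∧ z ∉ σ ∧
      ∀ z' : List (Fin 3), z'.length = max 1 (σ.headD []).length → z' ∉ σ → z' = z
  then (Classical.choose h).map Fin.castSucc
  else List.replicate (max 1 (σ.headD []).length) 3

theorem fam_learnable : Learnable famI famL := by
  classical
  refine ⟨lrn, ?_, ?_⟩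
  · intro σ
    rw [mem_famI]
    unfold lrn
    split_ifs with h
    · have h1 := (Classical.choose_spec h).1
      intro h2
      rw [List.map_eq_nil_iff] at h2
      rw [h2] at h1
      simp at h1
      omega
    · intro h2
      have := congrArg List.length h2
      rw [List.length_replicate] at this
      simp at this
  · intro e he g hg
    have hpos : 0 < e.length := List.length_pos_iff.mpr he
    have hlen : ∀ j, (g j).length = e.length := fun j => ((hg (g j)).mpr ⟨j, rfl⟩).1
    have hhead : ∀ k, ((((List.range (k + 1)).map g).headD []).length) = e.length := by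
      intro k
      rw [List.range_succ_eq_map, List.map_cons]
      exact hlen 0
    have hmax : ∀ k, max 1 ((((List.range (k + 1)).map g).headD []).length) = e.length := by
      intro k
      rw [hhead]
      omega
    -- eventually everything has been seen
    have hall : ∀ᶠ k in atTop, ∀ x, x ∈ famL e → x ∈ (List.range (k + 1)).map g := by
      have h1 : ∀ x ∈ {x | x ∈ famL e}, ∀ᶠ k in atTop, x ∈ (List.range (k + 1)).map g := by
        intro x hx
        obtain ⟨j, hj⟩ := (hg x).mp hx
        rw [eventually_atTop]
        refine ⟨j, fun k hk => ?_⟩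
        rw [List.mem_map]
        exact ⟨j, by rw [List.mem_range]; omega, hj⟩
      exact ((famL_finite e).eventually_all).mpr h1
    have hsub : ∀ k x, x ∈ (List.range (k + 1)).map g → x ∈ famL e := by
      intro k x hx
      rw [List.mem_map] at hx
      obtain ⟨j, _, hj⟩ := hx
      exact (hg x).mpr ⟨j, hj⟩
    filter_upwards [hall] with k hk
    by_cases hz : ∃ z : List (Fin 3), z.map Fin.castSucc = e
    · obtain ⟨z, rfl⟩ := hz
      have hex : ∃ z' : List (Fin 3),
          z'.length = max 1 (((List.range (k + 1)).map g).headD []).length ∧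
          z' ∉ (List.range (k + 1)).map g ∧
          ∀ z'' : List (Fin 3),
            z''.length = max 1 (((List.range (k + 1)).map g).headD []).length →
            z'' ∉ (List.range (k + 1)).map g → z'' = z' := by
        refine ⟨z, ?_, ?_, ?_⟩
        · rw [hmax, List.length_map]
        · intro h
          have := hsub k z h
          rw [famL_miss] at this
          exact this.2 rfl
        · intro z'' h1 h2
          rw [hmax, List.length_map] at h1
          by_contra hne
          exact h2 (hk z'' (by rw [famL_miss]; exact ⟨h1, hne⟩))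
      have hch := Classical.choose_spec hex
      have hzc : z = Classical.choose hex := by
        apply hch.2.2
        · rw [hmax, List.length_map]
        · intro h
          have := hsub k z h
          rw [famL_miss] at this
          exact this.2 rfl
      unfold lrn
      rw [dif_pos hex, ← hzc]
    · push Not at hz
      have hnex : ¬ ∃ z' : List (Fin 3),
          z'.length = max 1 (((List.range (k + 1)).map g).headD []).length ∧
          z' ∉ (List.range (k + 1)).map g ∧
          ∀ z'' : List (Fin 3),
            z''.length = max 1 (((List.range (k + 1)).map g).headD []).length →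
            z'' ∉ (List.range (k + 1)).map g → z'' = z' := by
        rintro ⟨z, h1, h2, _⟩
        rw [hmax] at h1
        exact h2 (hk z ⟨h1, hz z⟩)
      unfold lrn
      rw [dif_neg hnex, hmax]
      ext x
      rw [famL_full (rep_ne hpos), famL_full hz, List.length_replicate]

end Pool.Agent.Lib.MP_e130ca_lc
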