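import Pool.Agent.Lib.MP_e130ca_lc.Cuts

/-!
Records of runs at the first time an interval is visited often; runs with the same record can
be combined.
-/

namespace Pool.Agent.Lib.MP_e130ca_lc

open Set

variable {Λ G W : Type*}

/-- Residue code of an integer. -/
def fz (k : ℕ) (hk : 0 < k) (z : ℤ) : Fin k := ⟨z.toNat % k, Nat.mod_lt _ hk⟩

theorem fz_inj {k : ℕ} {hk : 0 < k} {z z' : ℤ} (h0 : 0 ≤ z) (h1 : z < k) (h0' : 0 ≤ z')
    (h1' : z' < k) (h : fz k hk z = fz k hk z') : z = z' := by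
  unfold fz at h
  rw [Fin.mk.injEq, Nat.mod_eq_of_lt (by omega), Nat.mod_eq_of_lt (by omega)] at h
  omega

open Classical in
/-- Retraction to a finite set of local states. -/
noncomputable def toF (F : Finset Λ) (l : {x // x ∈ F}) (x : Λ) : {x // x ∈ F} :=
  if h : x ∈ F then ⟨x, h⟩ else l

theorem toF_inj {F : Finset Λ} {l : {x // x ∈ F}} {x x' : Λ} (h : x ∈ F) (h' : x' ∈ F)
    (he : toF F l x = toF F l x') : x = x' := by
  unfold toF at he
  rw [dif_pos h, dif_pos h', Subtype.mk.injEq] at he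
  exact he

theorem recd_eq_of_code {F' : Type*} {tF : Λ → F'} {j1 j2 : ℤ} {a b : ℕ → ECfg Λ G}
    (hma : ∀ s, |(a (s + 1)).pos - (a s).pos| ≤ 1)
    (hmb : ∀ s, |(b (s + 1)).pos - (b s).pos| ≤ 1)
    (hl : ∀ s s', tF (a s).loc = tF (b s').loc → (a s).loc = (b s').loc) (s s' : ℕ)
    (h : recG (Set.Ico j1 j2) (code tF j1 j2) a s = recG (Set.Ico j1 j2) (code tF j1 j2) b s') :
    recd (Set.Ico j1 j2) a s = recd (Set.Ico j1 j2) b s' := by
  apply recd_of_recG (code tF j1 j2) _ s s' h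
  intro s s' h1 h2 h3
  apply entry_of_code (hl _ _) _ _ h3
  · exact sh_four (cross_shared (hma s) h1).2
  · exact sh_four (cross_shared (hmb s') h2).2

/-- Codes of boundary entries. -/
abbrev Ent (F : Finset Λ) (G : Type*) := {x // x ∈ F} × (Bool × Bool × Bool) × (G × G × G × G)

/-- Records. -/
abbrev Rcd (F : Finset Λ) (G : Type*) (y L n : ℕ) :=
  (Bool × Fin (28 * L) × Fin (28 * L) × Fin (12 * L) × Option (Fin (12 * L)) × Fin (12 * L)) ×
  ZMod (y * y) × (Fin (2 * n) → Option (Ent F G)) × (Fin (2 * n) → Option (Ent F G)) ×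
  (Fin (12 * L + 2) → G) × (Fin (12 * L) → Fin (2 * L * n + 1)) × {x // x ∈ F}

section
variable (M : Sys Λ G W) (l : Λ) (g : G) (F : Finset Λ) (l' : {x // x ∈ F}) (y L n : ℕ)
  {N : ℤ}

namespace BD

variable {M l g L n} {θ : ℤ → ℕ → W}

/-- The middle set of the data. -/
def P (d : BD M l g N L n θ) : Set ℤ :=
  if d.fl = true then Set.Ico d.qm d.qp else (Set.Ico d.qm d.qp)ᶜ

/-- The final configuration. -/
def fin (d : BD M l g N L n θ) : ECfg Λ G := M.erun θ (ini l g) d.τ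

/-- Items read inside `Q`. -/
def AQ (d : BD M l g N L n θ) : Set W := part (Set.Ico d.j1 d.j2) θ d.fin.cnt
/-- Items read in `P \ Q`. -/
def AI (d : BD M l g N L n θ) : Set W := part (d.P \ Set.Ico d.j1 d.j2) θ d.fin.cnt
/-- Items read outside `P`. -/
def AO (d : BD M l g N L n θ) : Set W := part d.Pᶜ θ d.fin.cnt

open Classical in
/-- The record of the data. -/
noncomputable def rcd (hL : 0 < L) (d : BD M l g N L n θ) : Rcd F G y L n :=
  ((d.fl, fz (28 * L) (by omega) (-(2 * N) - d.qm), fz (28 * L) (by omega) (d.qp - 2 * N),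
    fz (12 * L) (by omega) (d.j2 - d.j1),
    if (0 : ℤ) ∈ Set.Ico d.j1 d.j2 then some (fz (12 * L) (by omega) (-d.j1)) else none,
    fz (12 * L) (by omega) (d.fin.pos - d.j1)),
  (d.j1 : ZMod (y * y)),
  lcode (2 * n) (recG (Set.Ico d.qm d.qp) (code (toF F l') d.qm d.qp)
    (M.erun θ (ini l g)) d.τ),
  lcode (2 * n) (recG (Set.Ico d.j1 d.j2) (code (toF F l') d.j1 d.j2)
    (M.erun θ (ini l g)) d.τ),
  (fun i => d.fin.tape (d.j1 - 1 + (i : ℕ))),
  (fun i => fz (2 * L * n + 1) (by omega) (d.fin.cnt (d.j1 + (i : ℕ)))),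
  toF F l' d.fin.loc)

end BD

theorem sum_four (f : ℤ → ℕ) (j1 j2 : ℤ) :
    ∑ i ∈ four j1 j2, f i ≤ f (j1 - 1) + f j1 + f (j2 - 1) + f j2 := by
  classical
  unfold four
  have key : ∀ (s : Finset ℤ) (a : ℤ), ∑ i ∈ insert a s, f i ≤ f a + ∑ i ∈ s, f i := by
    intro s a
    by_cases h : a ∈ s
    · rw [Finset.insert_eq_of_mem h]; omega
    · rw [Finset.sum_insert h]
  have h1 := key {j1, j2 - 1, j2} (j1 - 1)
  have h2 := key {j2 - 1, j2} j1
  have h3 := key {j2} (j2 - 1)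
  rw [Finset.sum_singleton] at h3
  omega

theorem rec_len_le {X : Type*} (θ : ℤ → ℕ → W) (φ : ECfg Λ G → X) (j1 j2 : ℤ) (s k : ℕ)
    (h : (M.erun θ (ini l g) s).cnt (j1 - 1) + (M.erun θ (ini l g) s).cnt j1 +
      (M.erun θ (ini l g) s).cnt (j2 - 1) + (M.erun θ (ini l g) s).cnt j2 ≤ k) :
    (recG (Set.Ico j1 j2) φ (M.erun θ (ini l g)) s).length ≤ k :=
  (recG_length M θ φ (ini l g) (Set.Ico j1 j2) (four j1 j2) (fun _ h => sh_four h) s).trans
    ((sum_four _ j1 j2).trans h)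

/-- Consequences of the equality of records. -/
structure SameRec {θ θ' : ℤ → ℕ → W} (d : BD M l g N L n θ) (d' : BD M l g N L n θ') :
    Prop where
  fl : d.fl = d'.fl
  qm : d.qm = d'.qm
  qp : d.qp = d'.qp
  len : d.j2 - d.j1 = d'.j2 - d'.j1
  zero : (0 : ℤ) ∈ Set.Ico d.j1 d.j2 → d.j1 = d'.j1
  zero' : (0 : ℤ) ∈ Set.Ico d'.j1 d'.j2 → d.j1 = d'.j1
  res : (d.j1 : ZMod (y * y)) = (d'.j1 : ZMod (y * y))
  recM : recd (Set.Ico d.qm d.qp) (M.erun θ (ini l g)) d.τ =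
    recd (Set.Ico d.qm d.qp) (M.erun θ' (ini l g)) d'.τ
  recQ : recd (Set.Ico d.j1 d.j2) (fun s => (M.erun θ' (ini l g) s).shift (d.j1 - d'.j1)) d'.τ =
    recd (Set.Ico d.j1 d.j2) (M.erun θ (ini l g)) d.τ
  tape : ∀ i : ℤ, 0 ≤ i → i < 12 * L + 2 → d.fin.tape (d.j1 - 1 + i) = d'.fin.tape (d'.j1 - 1 + i)
  cnt : ∀ i : ℤ, 0 ≤ i → i < 12 * L → d.fin.cnt (d.j1 + i) = d'.fin.cnt (d'.j1 + i)
  loc : d.fin.loc = d'.fin.loc
  pos : d.fin.pos - d.j1 = d'.fin.pos - d'.j1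

theorem same_rec (hF : ∀ θ k, (M.erun θ (ini l g) k).loc ∈ F) (hL : 0 < L)
    {θ θ' : ℤ → ℕ → W} (d : BD M l g N L n θ) (d' : BD M l g N L n θ')
    (h : d.rcd F l' y hL = d'.rcd F l' y hL) : SameRec M l g y L n d d' := by
  classical
  unfold BD.rcd at h
  simp only [Prod.mk.injEq] at h
  obtain ⟨⟨h1, h2, h3, h4, h5, h6⟩, h7, h8, h9, h10, h11, h12⟩ := h
  have a1 := d.hj; have a2 := d.hlen; have a3 := d.hqm1; have a4 := d.hqm2
  have a5 := d.hqp1; have a6 := d.hqp2; have a7 := d.hfin1; have a8 := d.hfin2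
  have b1 := d'.hj; have b2 := d'.hlen; have b3 := d'.hqm1; have b4 := d'.hqm2
  have b5 := d'.hqp1; have b6 := d'.hqp2; have b7 := d'.hfin1; have b8 := d'.hfin2
  have hqm : d.qm = d'.qm := by
    have := fz_inj (by omega) (by push_cast; omega) (by omega) (by push_cast; omega) h2
    omega
  have hqp : d.qp = d'.qp := by
    have := fz_inj (by omega) (by push_cast; omega) (by omega) (by push_cast; omega) h3
    omega
  have hlen : d.j2 - d.j1 = d'.j2 - d'.j1 :=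
    fz_inj (by omega) (by push_cast; omega) (by omega) (by push_cast; omega) h4
  have hz1 : (0 : ℤ) ∈ Set.Ico d.j1 d.j2 → d.j1 = d'.j1 := by
    intro h0
    rw [if_pos h0] at h5
    by_cases h0' : (0 : ℤ) ∈ Set.Ico d'.j1 d'.j2
    · rw [if_pos h0', Option.some.injEq] at h5
      rw [Set.mem_Ico] at h0 h0'
      have := fz_inj (by omega) (by push_cast; omega) (by omega) (by push_cast; omega) h5
      omega
    · rw [if_neg h0'] at h5
      exact absurd h5 (by simp)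
  have hz2 : (0 : ℤ) ∈ Set.Ico d'.j1 d'.j2 → d.j1 = d'.j1 := by
    intro h0
    rw [if_pos h0] at h5
    by_cases h0' : (0 : ℤ) ∈ Set.Ico d.j1 d.j2
    · exact hz1 h0'
    · rw [if_neg h0'] at h5
      exact absurd h5.symm (by simp)
  have hpos : d.fin.pos - d.j1 = d'.fin.pos - d'.j1 := by
    have e1 : d.fin.pos = (M.erun θ (ini l g) d.τ).pos := rfl
    have e2 : d'.fin.pos = (M.erun θ' (ini l g) d'.τ).pos := rfl
    exact fz_inj (by omega) (by push_cast; omega) (by omega) (by push_cast; omega) h6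
  have hloc : d.fin.loc = d'.fin.loc := toF_inj (hF _ _) (hF _ _) h12
  have htape : ∀ i : ℤ, 0 ≤ i → i < 12 * L + 2 →
      d.fin.tape (d.j1 - 1 + i) = d'.fin.tape (d'.j1 - 1 + i) := by
    intro i hi0 hi1
    have := congrFun h10 ⟨i.toNat, by omega⟩
    simp only [Int.toNat_of_nonneg hi0] at this
    exact this
  have hcnt : ∀ i : ℤ, 0 ≤ i → i < 12 * L → d.fin.cnt (d.j1 + i) = d'.fin.cnt (d'.j1 + i) := by
    intro i hi0 hi1
    have := congrFun h11 ⟨i.toNat, by omega⟩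
    simp only [Int.toNat_of_nonneg hi0] at this
    have c1 : d.fin.cnt (d.j1 + i) ≤ 2 * L * n := d.hcnt _
    have c2 : d'.fin.cnt (d'.j1 + i) ≤ 2 * L * n := d'.hcnt _
    have := fz_inj (by omega) (by omega) (by omega) (by omega) this
    omega
  have hrM : recd (Set.Ico d.qm d.qp) (M.erun θ (ini l g)) d.τ =
      recd (Set.Ico d.qm d.qp) (M.erun θ' (ini l g)) d'.τ := by
    apply recd_eq_of_code (tF := toF F l') (erun_move M _ _) (erun_move M _ _)
    · intro s s' he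
      exact toF_inj (hF _ _) (hF _ _) he
    · apply lcode_inj (rec_len_le M l g _ _ _ _ _ _ d.hcM) _ _
      · rw [hqm, hqp]
        exact rec_len_le M l g _ _ _ _ _ _ d'.hcM
      · rw [h8, hqm, hqp]
  have hcQ : recG (Set.Ico d.j1 d.j2) (code (toF F l') d.j1 d.j2) (M.erun θ (ini l g)) d.τ =
      recG (Set.Ico d'.j1 d'.j2) (code (toF F l') d'.j1 d'.j2) (M.erun θ' (ini l g)) d'.τ :=
    lcode_inj (rec_len_le M l g _ _ _ _ _ _ d.hcQ) (rec_len_le M l g _ _ _ _ _ _ d'.hcQ) h9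
  have hrQ : recd (Set.Ico d.j1 d.j2)
      (fun s => (M.erun θ' (ini l g) s).shift (d.j1 - d'.j1)) d'.τ =
      recd (Set.Ico d.j1 d.j2) (M.erun θ (ini l g)) d.τ := by
    apply recd_eq_of_code (tF := toF F l')
    · intro s
      have e1 : ((M.erun θ' (ini l g) (s + 1)).shift (d.j1 - d'.j1)).pos =
        (M.erun θ' (ini l g) (s + 1)).pos + (d.j1 - d'.j1) := rfl
      have e2 : ((M.erun θ' (ini l g) s).shift (d.j1 - d'.j1)).pos =
        (M.erun θ' (ini l g) s).pos + (d.j1 - d'.j1) := rfl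
      rw [e1, e2]
      have := erun_move M θ' (ini l g) s
      rwa [add_sub_add_right_eq_sub]
    · exact erun_move M _ _
    · intro s s' he
      exact toF_inj (hF _ _) (hF _ _) he
    · rw [hcQ]
      have e3 : d'.j1 + (d.j1 - d'.j1) = d.j1 := by ring
      have e4 : d'.j2 + (d.j1 - d'.j1) = d.j2 := by omega
      have := recG_shift (Set.Ico d'.j1 d'.j2)
        (Set.Ico (d'.j1 + (d.j1 - d'.j1)) (d'.j2 + (d.j1 - d'.j1)))
        (code (toF F l') d'.j1 d'.j2)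
        (code (toF F l') (d'.j1 + (d.j1 - d'.j1)) (d'.j2 + (d.j1 - d'.j1)))
        (M.erun θ' (ini l g)) (d.j1 - d'.j1)
        (fun i => by simp only [Set.mem_Ico]; omega)
        (fun c => code_shift _ _ _ _ _) d'.τ
      rw [e3, e4] at this
      exact this
  exact ⟨h1, hqm, hqp, hlen, hz1, hz2, h7, hrM, hrQ, htape, hcnt, hloc, hpos⟩

theorem part_shift (θ : ℤ → ℕ → W) (c : ECfg Λ G) (j1 j2 z : ℤ) :
    part (Set.Ico (j1 + z) (j2 + z)) (fun i t => θ (i - z) t) (c.shift z).cnt =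
      part (Set.Ico j1 j2) θ c.cnt := by
  have hc : ∀ i, (c.shift z).cnt i = c.cnt (i - z) := fun i => rfl
  ext w
  simp only [part, Set.mem_ofPred_eq, Set.mem_Ico, hc]
  constructor
  · rintro ⟨i, hi, t, ht, hw⟩
    exact ⟨i - z, by omega, t, ht, hw⟩
  · rintro ⟨i, hi, t, ht, hw⟩
    refine ⟨i + z, by omega, t, ?_, ?_⟩
    · rwa [add_sub_cancel_right]
    · rwa [add_sub_cancel_right]

/-- Exchange inside a fiber. -/
theorem fiber_tri [Countable W] [Nontrivial W] {M : Sys Λ G W} {l : Λ} {g : G} {out : Λ → Bool}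
    (H : Lim M (ini l g).toCfg out) {y L n : ℕ} {N : ℤ}
    {θ₁ θ₂ θb θa : ℤ → ℕ → W} (d₁ : BD M l g N L n θ₁) (d₂ : BD M l g N L n θ₂)
    (db : BD M l g N L n θb) (da : BD M l g N L n θa)
    (h₁ : SameRec M l g y L n db d₁) (h₂ : SameRec M l g y L n db d₂)
    (ha : SameRec M l g y L n db da) :
    d₁.AQ ∪ db.AI ∪ da.AO = d₂.AQ ∪ db.AI ∪ da.AO := by
  have hPa : da.P = db.P := by
    unfold BD.P
    rw [ha.fl, ha.qm, ha.qp]
  have hrec' : recd db.P (M.erun θb (ini l g)) db.τ = recd db.P (M.erun θa (ini l g)) da.τ := by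
    unfold BD.P
    by_cases hf : db.fl = true
    · rw [if_pos hf]; exact ha.recM
    · rw [if_neg hf, recd_compl, recd_compl]; exact ha.recM
  have hz : ∀ {θ : ℤ → ℕ → W} (d : BD M l g N L n θ), SameRec M l g y L n db d →
      (db.j1 - d.j1 = 0 ∨ (db.j1 - d.j1 ∉ Set.Ico db.j1 db.j2 ∧
        (0 : ℤ) ∉ Set.Ico db.j1 db.j2)) := by
    intro θ d hd
    by_cases h0 : (0 : ℤ) ∈ Set.Ico db.j1 db.j2
    · left; rw [hd.zero h0]; ring
    · by_cases h0' : (0 : ℤ) ∈ Set.Ico d.j1 d.j2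
      · left; rw [hd.zero' h0']; ring
      · right
        refine ⟨?_, h0⟩
        intro h
        apply h0'
        have := hd.len
        rw [Set.mem_Ico] at h ⊢
        omega
  have hlen1 : db.j1 - d₁.j1 + d₁.j2 = db.j2 := by
    have := h₁.len; omega
  have hlen2 : db.j1 - d₂.j1 + d₂.j2 = db.j2 := by
    have := h₂.len; omega
  have p1 : ((M.erun θ₁ (ini l g) d₁.τ).shift (db.j1 - d₁.j1)).pos
      = (M.erun θ₁ (ini l g) d₁.τ).pos + (db.j1 - d₁.j1) := rfl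
  have p2 : ((M.erun θ₂ (ini l g) d₂.τ).shift (db.j1 - d₂.j1)).pos
      = (M.erun θ₂ (ini l g) d₂.τ).pos + (db.j1 - d₂.j1) := rfl
  have q1 : (M.erun θ₁ (ini l g) d₁.τ).pos - d₁.j1 = (M.erun θb (ini l g) db.τ).pos - db.j1 :=
    h₁.pos.symm
  have q2 : (M.erun θ₂ (ini l g) d₂.τ).pos - d₂.j1 = (M.erun θb (ini l g) db.τ).pos - db.j1 :=
    h₂.pos.symm
  have key := tri H θ₁ θ₂ θb θa (Set.Ico db.j1 db.j2) db.P db.deep (db.j1 - d₁.j1)
    (db.j1 - d₂.j1) (hz d₁ h₁) (hz d₂ h₂) d₁.τ d₂.τ db.τ da.τ h₁.recQ h₂.recQ hrec'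
    (by
      rw [p1, Set.mem_Ico]
      have := d₁.hfin1
      have := d₁.hfin2
      omega)
    (h₁.loc.symm.trans h₂.loc)
    (by rw [p1, p2]; omega)
    (by
      rintro i ⟨j, hj, hji⟩
      rw [Set.mem_Ico] at hj
      rw [abs_le] at hji
      have hl := db.hlen
      have t1 := h₁.tape (i - db.j1 + 1) (by omega) (by omega)
      have t2 := h₂.tape (i - db.j1 + 1) (by omega) (by omega)
      have t3 := t1.symm.trans t2
      have e1 : d₁.j1 - 1 + (i - db.j1 + 1) = i - (db.j1 - d₁.j1) := by ring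
      have e2 : d₂.j1 - 1 + (i - db.j1 + 1) = i - (db.j1 - d₂.j1) := by ring
      rw [e1, e2] at t3
      exact t3)
  have s1 := part_shift θ₁ (M.erun θ₁ (ini l g) d₁.τ) d₁.j1 d₁.j2 (db.j1 - d₁.j1)
  have s2 := part_shift θ₂ (M.erun θ₂ (ini l g) d₂.τ) d₂.j1 d₂.j2 (db.j1 - d₂.j1)
  have e1 : d₁.j1 + (db.j1 - d₁.j1) = db.j1 := by ring
  have e2 : d₁.j2 + (db.j1 - d₁.j1) = db.j2 := by omega
  have e3 : d₂.j1 + (db.j1 - d₂.j1) = db.j1 := by ring
  have e4 : d₂.j2 + (db.j1 - d₂.j1) = db.j2 := by omega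
  rw [e1, e2] at s1
  rw [e3, e4] at s2
  rw [s1, s2] at key
  unfold BD.AQ BD.AI BD.AO
  rw [hPa]
  exact key

end

/-- The set-theoretic core of the fiber argument. -/
theorem core_sets {ι : Type*} (A B C : ι → Set W)
    (h : ∀ i i' b c, A i ∪ B b ∪ C c = A i' ∪ B b ∪ C c) (i : ι) (w : W) (hw : w ∈ A i) :
    (∀ i', w ∈ A i') ∨ (∀ b, w ∈ B b) ∨ (∀ c, w ∈ C c) := by
  by_contra hcon
  push Not at hcon
  obtain ⟨⟨i', hi'⟩, ⟨b, hb⟩, ⟨c, hc⟩⟩ := hcon
  have : w ∈ A i ∪ B b ∪ C c := Or.inl (Or.inl hw)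
  rw [h i i' b c] at this
  rcases this with (h1 | h1) | h1
  · exact hi' h1
  · exact hb h1
  · exact hc h1

end Pool.Agent.Lib.MP_e130ca_lc
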