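import Pool.Agent.Lib.MP_e130ca_lc.BadCount

/-!
Runs in which no interval is visited often escape; too many such data give a contradiction.
-/

namespace Pool.Agent.Lib.MP_e130ca_lc

open Set

section general
variable {Λ G W : Type*} {M : Sys Λ G W} {l : Λ} {g : G} {L n : ℕ} {θ : ℤ → ℕ → W}

theorem cnt_le_of_good (hL : 0 < L) (h : ¬ Bad M l g L n θ) (t : ℕ) (i : ℤ) :
    (M.erun θ (ini l g) t).cnt i ≤ 2 * L * n := by
  by_contra hc
  rw [not_le] at hc
  apply h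
  refine ⟨t, i / (4 * L), hc.le.trans ?_⟩
  apply Finset.single_le_sum (f := (M.erun θ (ini l g) t).cnt) (fun _ _ => Nat.zero_le _)
  unfold Iv
  rw [Finset.mem_Ico]
  constructor
  · exact Int.ediv_mul_le _ (by omega)
  · exact Int.lt_ediv_add_one_mul_self _ (by omega)

/-- In a good run the head escapes. -/
theorem escape (hL : 0 < L) (h : ¬ Bad M l g L n θ) (B : ℤ) :
    ∃ T, ∀ t ≥ T, B < |(M.erun θ (ini l g) t).pos| := by
  classical
  set A : Finset ℤ := Finset.Icc (-B) B with hA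
  let f : ℕ → ℕ := fun t => ∑ i ∈ A, (M.erun θ (ini l g) t).cnt i
  have hbd : ∀ t, f t ≤ A.card * (2 * L * n) := by
    intro t
    calc f t ≤ ∑ _i ∈ A, 2 * L * n := Finset.sum_le_sum (fun i _ => cnt_le_of_good hL h t i)
      _ = _ := by rw [Finset.sum_const, smul_eq_mul]
  have hb : BddAbove (Set.range f) := ⟨_, by rintro _ ⟨t, rfl⟩; exact hbd t⟩
  obtain ⟨T, hT⟩ := Nat.sSup_mem (Set.range_nonempty f) hb
  have hmax : ∀ t, f t ≤ f T := by
    intro t
    rw [hT]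
    exact le_csSup hb ⟨t, rfl⟩
  have hstep : ∀ t, f (t + 1) = f t + if (M.erun θ (ini l g) t).pos ∈ A then 1 else 0 :=
    fun t => erun_sum_succ M θ (ini l g) t A
  have hmono : ∀ t, T ≤ t → f t = f T := by
    intro t ht
    induction t, ht using Nat.le_induction with
    | base => rfl
    | succ t _ ih =>
      have h1 := hstep t
      have h2 := hmax (t + 1)
      omega
  refine ⟨T, fun t ht => ?_⟩
  by_contra hc
  rw [not_lt, abs_le] at hc
  have h1 := hstep t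
  have h2 := hmono t ht
  have h3 := hmono (t + 1) (by omega)
  rw [if_pos (by rw [hA, Finset.mem_Icc]; exact hc)] at h1
  omega

theorem speed (k : ℕ) : |(M.erun θ (ini l g) k).pos| ≤ k := by
  induction k with
  | zero =>
    show |(0 : ℤ)| ≤ _
    simp
  | succ k ih =>
    have := erun_move M θ (ini l g) k
    rw [abs_le] at this ih ⊢
    push_cast
    omega

theorem cover (k : ℕ) : ∀ i : ℤ, (0 ≤ i ∧ i < (M.erun θ (ini l g) k).pos) ∨
    ((M.erun θ (ini l g) k).pos < i ∧ i ≤ 0) → 1 ≤ (M.erun θ (ini l g) k).cnt i := by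
  induction k with
  | zero =>
    intro i hi
    have : (M.erun θ (ini l g) 0).pos = 0 := rfl
    rw [this] at hi
    omega
  | succ k ih =>
    intro i hi
    have hm := erun_move M θ (ini l g) k
    rw [abs_le] at hm
    rw [erun_cnt_succ]
    by_cases hp : i = (M.erun θ (ini l g) k).pos
    · rw [if_pos hp]; omega
    · rw [if_neg hp]
      apply ih
      omega

theorem range_txt : Set.range (M.txt θ (ini l g)) =
    {w | ∃ k i t, t < (M.erun θ (ini l g) k).cnt i ∧ θ i t = w} := by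
  ext w
  constructor
  · rintro ⟨j, rfl⟩
    have h : M.txt θ (ini l g) j ∈ {w | ∃ j' < j + 1, M.txt θ (ini l g) j' = w} :=
      ⟨j, by omega, rfl⟩
    rw [cont_eq] at h
    exact ⟨j + 1, h⟩
  · rintro ⟨k, hk⟩
    have h : w ∈ M.cont θ (ini l g) k := hk
    rw [← cont_eq] at h
    obtain ⟨j, _, hj⟩ := h
    exact ⟨j, hj⟩

/-- Data of an escaping run. -/
structure GD (M : Sys Λ G W) (l : Λ) (g : G) (N : ℤ) (L n : ℕ) (θ : ℤ → ℕ → W) where
  T : ℕ
  qm : ℤ
  qp : ℤ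
  hqm1 : -(2 * N) - 28 * L < qm
  hqm2 : qm ≤ -(2 * N)
  hqp1 : 2 * N ≤ qp
  hqp2 : qp < 2 * N + 28 * L
  hcM : (M.erun θ (ini l g) T).cnt (qm - 1) + (M.erun θ (ini l g) T).cnt qm +
    (M.erun θ (ini l g) T).cnt (qp - 1) + (M.erun θ (ini l g) T).cnt qp ≤ 2 * n
  hout : ∀ t ≥ T, 2 * N + 28 * L < |(M.erun θ (ini l g) t).pos|

theorem gd_exists (N : ℤ) (hL : 0 < L) (h : ¬ Bad M l g L n θ) :
    Nonempty (GD M l g N L n θ) := by
  obtain ⟨T, hT⟩ := escape hL h (2 * N + 28 * L)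
  set c := (M.erun θ (ini l g) T).cnt with hc
  set ℓ : ℤ := 4 * (L : ℤ) with hℓ
  have hall : ∀ k, ∑ i ∈ Iv L k, c i ≤ 2 * L * n := by
    intro k
    by_contra hcon
    rw [not_le] at hcon
    exact h ⟨T, k, hcon.le⟩
  have cutE : ∀ k', ∃ j, k' * ℓ < j ∧ j < (k' + 1) * ℓ ∧ c (j - 1) + c j ≤ n :=
    fun k' => cut_exists c L n hL k' (hall k')
  set kp : ℤ := 2 * N / ℓ + 1 with hkp
  have hkp1 : 2 * N < kp * ℓ := Int.lt_ediv_add_one_mul_self _ (by omega)
  have hkp2 : kp * ℓ ≤ 2 * N + ℓ := by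
    have : (2 * N / ℓ) * ℓ ≤ 2 * N := Int.ediv_mul_le _ (by omega)
    rw [hkp, add_mul, one_mul]; omega
  obtain ⟨qp, hqpa, hqpb, hqpc⟩ := cutE kp
  obtain ⟨qm, hqma, hqmb, hqmc⟩ := cutE (-kp - 1)
  have e1 : (kp + 1) * ℓ = kp * ℓ + ℓ := by ring
  have e2 : (-kp - 1 + 1) * ℓ = -(kp * ℓ) := by ring
  have e3 : (-kp - 1) * ℓ = -(kp * ℓ) - ℓ := by ring
  rw [e1] at hqpb
  rw [e2] at hqmb
  rw [e3] at hqma
  have hcM : c (qm - 1) + c qm + c (qp - 1) + c qp ≤ 2 * n := by omega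
  exact ⟨⟨T, qm, qp, by omega, by omega, by omega, by omega, hcM, hT⟩⟩

theorem GD.notin {N : ℤ} (d : GD M l g N L n θ) (t : ℕ) (ht : d.T ≤ t) :
    (M.erun θ (ini l g) t).pos ∉ Set.Ico d.qm d.qp := by
  intro h
  rw [Set.mem_Ico] at h
  have h1 := d.hout t ht
  have := d.hqm1; have := d.hqp2
  rw [lt_abs] at h1
  omega

theorem GD.recd_eq {N : ℤ} (d : GD M l g N L n θ) (t : ℕ) (ht : d.T ≤ t) :
    recd (Set.Ico d.qm d.qp) (M.erun θ (ini l g)) t =
      recd (Set.Ico d.qm d.qp) (M.erun θ (ini l g)) d.T := by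
  induction t, ht using Nat.le_induction with
  | base => rfl
  | succ t ht ih =>
    rw [recd_succ_of_iff, ih]
    exact ⟨fun h => absurd h (d.notin t ht), fun h => absurd h (d.notin (t + 1) (by omega))⟩

end general

section table
variable {Λ G : Type*} {y : ℕ} {M : Sys Λ G (Tab y)} {l : Λ} {g : G} {L n : ℕ}

/-- The set of items presented by an escaping run. -/
theorem range_strat [NeZero y] (s : ZMod y → ZMod y) (α β : ZMod y × ZMod y → Fin 3)
    (hesc : ∃ k, 4 * ((y : ℤ) * y) <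
      |(M.erun (strat (2 * L * n) (12 * L) s α β) (ini l g) k).pos|) :
    Set.range (M.txt (strat (2 * L * n) (12 * L) s α β) (ini l g)) =
      {w | w.2.2 ≠ α (co s w) ∨ w.2.2 ≠ β (co s w)} := by
  rw [range_txt]
  have hNN : (0 : ℤ) < (y : ℤ) * y := by
    have := Nat.pos_of_ne_zero (NeZero.ne y)
    positivity
  ext w
  constructor
  · rintro ⟨k, i, t, _, rfl⟩
    unfold strat
    by_cases h3 : (-(2 * ((y : ℤ) * y)) ≤ i ∧ i < 2 * ((y : ℤ) * y))
    · rw [if_pos h3]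
      exact Or.inl (pw_ne s α _)
    · rw [if_neg h3]
      exact Or.inr (pw_ne s β _)
  · obtain ⟨k, hk⟩ := hesc
    have hcov := cover (M := M) (θ := strat (2 * L * n) (12 * L) s α β) (l := l) (g := g) k
    have hst1 : ∀ i, (-(2 * ((y : ℤ) * y)) ≤ i ∧ i < 2 * ((y : ℤ) * y)) →
        strat (2 * L * n) (12 * L) s α β i 0 = pw s α i := by
      intro i hi
      unfold strat
      rw [if_pos hi]
      simp
    have hst2 : ∀ i, ¬ (-(2 * ((y : ℤ) * y)) ≤ i ∧ i < 2 * ((y : ℤ) * y)) →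
        strat (2 * L * n) (12 * L) s α β i 0 = pw s β i := by
      intro i hi
      unfold strat
      rw [if_neg hi]
      simp
    rw [lt_abs] at hk
    rintro (hw | hw)
    · rcases hk with hk | hk
      · obtain ⟨u, hu1, hu2, hu3⟩ := pw_surj s α w hw 0
        refine ⟨k, u, 0, ?_, ?_⟩
        · have := hcov u (Or.inl ⟨by omega, by omega⟩)
          omega
        · rw [hst1 u (by omega), hu3]
      · obtain ⟨u, hu1, hu2, hu3⟩ := pw_surj s α w hw (-1)
        refine ⟨k, u, 0, ?_, ?_⟩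
        · have := hcov u (Or.inr ⟨by omega, by omega⟩)
          omega
        · rw [hst1 u (by omega), hu3]
    · rcases hk with hk | hk
      · obtain ⟨u, hu1, hu2, hu3⟩ := pw_surj s β w hw 1
        refine ⟨k, u, 0, ?_, ?_⟩
        · have := hcov u (Or.inl ⟨by omega, by omega⟩)
          omega
        · rw [hst2 u (by omega), hu3]
      · obtain ⟨u, hu1, hu2, hu3⟩ := pw_surj s β w hw (-2)
        refine ⟨k, u, 0, ?_, ?_⟩
        · have := hcov u (Or.inr ⟨by omega, by omega⟩)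
          omega
        · rw [hst2 u (by omega), hu3]

/-- Records of good runs. -/
abbrev Rg (F : Finset Λ) (G : Type*) (y L n : ℕ) :=
  (Fin (28 * L) × Fin (28 * L)) × (Fin (2 * n) → Option (Ent F G)) ×
    ({j // j ∈ J0 y L n} → Fin 3)

theorem strat_congr (s : ZMod y → ZMod y) (α β β' : ZMod y × ZMod y → Fin 3) {i : ℤ} {t : ℕ}
    (h1 : -(2 * ((y : ℤ) * y)) - 28 * L ≤ i) (h2 : i < 2 * ((y : ℤ) * y) + 28 * L)
    (hβ : ∀ j ∈ J0 y L n, β j = β' j) :
    strat (2 * L * n) (12 * L) s α β i t = strat (2 * L * n) (12 * L) s α β' i t := by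
  unfold strat
  by_cases h3 : (-(2 * ((y : ℤ) * y)) ≤ i ∧ i < 2 * ((y : ℤ) * y))
  · rw [if_pos h3, if_pos h3]
  · rw [if_neg h3, if_neg h3]
    unfold pw
    rw [hβ _ (mem_J0 h1 h2 h3)]

theorem strat_congr' (s : ZMod y → ZMod y) (α α' β : ZMod y × ZMod y → Fin 3) {i : ℤ} {t : ℕ}
    (h3 : ¬ (-(2 * ((y : ℤ) * y)) ≤ i ∧ i < 2 * ((y : ℤ) * y))) :
    strat (2 * L * n) (12 * L) s α β i t = strat (2 * L * n) (12 * L) s α' β i t := by
  unfold strat
  rw [if_neg h3, if_neg h3]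

/-- Two good runs with the same record cannot have exactly one agreement. -/
theorem pair_contra [NeZero y] [Nontrivial (Tab y)] {out : Λ → Bool}
    (H : Lim M (ini l g).toCfg out)
    (hL : 0 < L) (s : ZMod y → ZMod y) (γ₁ γ₂ : ZMod y × ZMod y → P6)
    (θ₁ θ₂ : ℤ → ℕ → Tab y) (hθ₁ : θ₁ = th L n (s, γ₁)) (hθ₂ : θ₂ = th L n (s, γ₂))
    (hg₂ : ¬ Bad M l g L n θ₂)
    (d₁ : GD M l g ((y : ℤ) * y) L n θ₁)
    (d₂ : GD M l g ((y : ℤ) * y) L n θ₂)
    (hqm : d₁.qm = d₂.qm) (hqp : d₁.qp = d₂.qp)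
    (hrec : recd (Set.Ico d₁.qm d₁.qp) (M.erun θ₁ (ini l g)) d₁.T =
      recd (Set.Ico d₁.qm d₁.qp) (M.erun θ₂ (ini l g)) d₂.T)
    (hβ : ∀ j ∈ J0 y L n, fB γ₁ j = fB γ₂ j)
    (j : ZMod y × ZMod y) (hj : fA γ₁ j = fB γ₂ j)
    (hj' : ∀ i, i ≠ j → fA γ₁ i ≠ fB γ₂ i) : False := by
  classical
  set S : Set ℤ := Set.Ico d₁.qm d₁.qp with hS
  set θ := strat (2 * L * n) (12 * L) s (fA γ₁) (fB γ₂) with hθ
  have hNN : (0 : ℤ) ≤ (y : ℤ) * y := by positivity
  have hhyb : hybStrat S θ₁ θ₂ = θ := by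
    funext i t
    by_cases hi : i ∈ S
    · have e : hybStrat S θ₁ θ₂ i t = θ₁ i t := by simp [hybStrat, hi]
      rw [e, hθ₁]
      rw [hS, Set.mem_Ico] at hi
      have := d₁.hqm1; have := d₁.hqp2
      exact strat_congr s (fA γ₁) (fB γ₁) (fB γ₂) (by omega) (by omega) hβ
    · have e : hybStrat S θ₁ θ₂ i t = θ₂ i t := by simp [hybStrat, hi]
      rw [e, hθ₂]
      rw [hS, Set.mem_Ico] at hi
      have := d₁.hqm2; have := d₁.hqp1
      exact strat_congr' s (fA γ₂) (fA γ₁) (fB γ₂) (by omega)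
  have hpaste : ∀ t ≥ d₂.T, ∃ t', (M.erun θ (ini l g) t').loc = (M.erun θ₂ (ini l g) t).loc ∧
      (M.erun θ (ini l g) t').pos = (M.erun θ₂ (ini l g) t).pos := by
    intro t ht
    have hr : recd S (M.erun θ₁ (ini l g)) d₁.T = recd S (M.erun θ₂ (ini l g)) t := by
      rw [hrec]
      have := d₂.recd_eq t ht
      rw [hS, hqm, hqp]
      exact this.symm
    obtain ⟨_, t', ht'⟩ := erun_paste' M l g θ₁ θ₂ S d₁.T t hr
    rw [hhyb] at ht'
    have hn : (M.erun θ₁ (ini l g) d₁.T).pos ∉ S := d₁.notin d₁.T le_rfl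
    exact ⟨t', by rw [ht']; exact hyb_loc_out hn, by rw [ht']; exact hyb_pos_out hn⟩
  -- the run of `θ₂` sees everything
  obtain ⟨T₃, hT₃⟩ := escape hL hg₂ (4 * ((y : ℤ) * y))
  have hfull : Set.range (M.txt θ₂ (ini l g)) = Set.univ := by
    have := range_strat (M := M) (l := l) (g := g) (L := L) (n := n) s (fA γ₂) (fB γ₂)
      ⟨T₃, by rw [hθ₂] at hT₃; exact hT₃ T₃ le_rfl⟩
    rw [hθ₂]
    unfold th
    rw [this]
    apply Set.eq_univ_of_forall
    intro w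
    by_contra hc
    simp only [Set.mem_ofPred_eq, not_or, not_not] at hc
    exact (γ₂ (co s w)).2 (hc.1.symm.trans hc.2)
  obtain ⟨k₀, hk₀⟩ := H.full _ hfull
  -- the hybrid run misses exactly one item
  have hmiss : Set.range (M.txt θ (ini l g)) = {(j.1, j.2 + s j.1, fA γ₁ j)}ᶜ := by
    obtain ⟨t', _, ht'⟩ := hpaste (max T₃ d₂.T) (le_max_right _ _)
    have h4 := hT₃ (max T₃ d₂.T) (le_max_left _ _)
    have := range_strat (M := M) (l := l) (g := g) (L := L) (n := n) s (fA γ₁) (fB γ₂)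
      ⟨t', by rw [← hθ, ht']; exact h4⟩
    rw [hθ, this]
    ext w
    obtain ⟨x, v, z⟩ := w
    simp only [Set.mem_ofPred_eq, Set.mem_compl_iff, Set.mem_singleton_iff, Prod.mk.injEq]
    constructor
    · rintro h5 ⟨rfl, rfl, rfl⟩
      have e : co s (j.1, j.2 + s j.1, fA γ₁ j) = j := by
        unfold co
        simp
      rw [e] at h5
      rcases h5 with h5 | h5
      · exact h5 rfl
      · exact h5 hj
    · intro h5
      by_contra hc
      rw [not_or, not_not, not_not] at hc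
      obtain ⟨c1, c2⟩ := hc
      have hjj : co s (x, v, z) = j := by
        by_contra hne
        exact hj' _ hne (c1.symm.trans c2)
      apply h5
      refine ⟨?_, ?_, ?_⟩
      · rw [← hjj]; rfl
      · rw [← hjj]; unfold co; simp
      · rw [← hjj]; exact c1
  obtain ⟨k₁, hk₁⟩ := H.miss _ _ hmiss
  obtain ⟨T₄, hT₄⟩ := escape hL hg₂ (k₁ : ℤ)
  set t := max T₄ (max k₀ d₂.T) with ht
  have ht1 : T₄ ≤ t := le_max_left _ _
  have ht2 : k₀ ≤ t := (le_max_left _ _).trans (le_max_right _ _)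
  have ht3 : d₂.T ≤ t := (le_max_right _ _).trans (le_max_right _ _)
  obtain ⟨t', e1, e2⟩ := hpaste t ht3
  have h6 : (k₁ : ℤ) < |(M.erun θ (ini l g) t').pos| := by
    rw [e2]; exact hT₄ t ht1
  have h7 := speed (M := M) (l := l) (g := g) (θ := θ) t'
  have h8 := hk₁ t' (by omega)
  have h9 := hk₀ t ht2
  rw [← erun_toCfg] at h8 h9
  have e1' : (M.erun θ (ini l g) t').toCfg.loc = (M.erun θ₂ (ini l g) t).toCfg.loc := e1
  rw [e1', h9] at h8
  exact Bool.false_ne_true h8.symm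

/-- There cannot be too many good data. -/
theorem good_contra [NeZero y] [Nontrivial (Tab y)] [Fintype G] {out : Λ → Bool}
    (H : Lim M (ini l g).toCfg out) (F : Finset Λ)
    (hF : ∀ θ k, (M.erun θ (ini l g) k).loc ∈ F)
    (hL : 0 < L) (s : ZMod y → ZMod y) (C : Finset (ZMod y × ZMod y → P6))
    (hC : ∀ γ ∈ C, ¬ Bad M l g L n (th L n (s, γ)))
    (hcard : Fintype.card (Rg F G y L n) * 4 ^ (y * y) < C.card) : False := by
  classical
  have hlF : l ∈ F := hF (fun _ _ => Classical.arbitrary _) 0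
  let l' : {x // x ∈ F} := ⟨l, hlF⟩
  have hex : ∀ γ : {γ // γ ∈ C}, Nonempty (GD M l g ((y : ℤ) * y) L n (th L n (s, γ.1))) :=
    fun γ => gd_exists _ hL (hC γ.1 γ.2)
  let d : ∀ γ : {γ // γ ∈ C}, GD M l g ((y : ℤ) * y) L n (th L n (s, γ.1)) :=
    fun γ => (hex γ).some
  let r : {γ // γ ∈ C} → Rg F G y L n := fun γ =>
    ((fz (28 * L) (by omega) (-(2 * ((y : ℤ) * y)) - (d γ).qm),
      fz (28 * L) (by omega) ((d γ).qp - 2 * ((y : ℤ) * y))),
      lcode (2 * n) (recG (Set.Ico (d γ).qm (d γ).qp)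
        (code (toF F l') (d γ).qm (d γ).qp) (M.erun (th L n (s, γ.1)) (ini l g)) (d γ).T),
      fun j => fB γ.1 j.1)
  obtain ⟨ρ, _, hρ⟩ := Finset.exists_lt_card_fiber_of_mul_lt_card_of_maps_to
    (s := C.attach) (t := (Finset.univ : Finset (Rg F G y L n))) (f := r)
    (n := 4 ^ (y * y)) (fun _ _ => Finset.mem_univ _)
    (by rw [Finset.card_univ, Finset.card_attach]; exact hcard)
  let C' : Finset (ZMod y × ZMod y → P6) := (C.attach.filter (fun ω => r ω = ρ)).map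
      ⟨Subtype.val, Subtype.val_injective⟩
  have hC'm : ∀ γ ∈ C', ∃ hγ : γ ∈ C, r ⟨γ, hγ⟩ = ρ := by
    intro γ hγ
    simp only [C', Finset.mem_map, Finset.mem_filter, Finset.mem_attach, true_and,
      Function.Embedding.coeFn_mk] at hγ
    obtain ⟨γ', h1, rfl⟩ := hγ
    exact ⟨γ'.2, h1⟩
  have hC'c : 4 ^ (Fintype.card (ZMod y × ZMod y)) < C'.card := by
    rw [Finset.card_map, Fintype.card_prod, ZMod.card]
    exact hρ
  obtain ⟨γ₁, h1, γ₂, h2, j, hj, hj'⟩ := rect C' hC'c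
  obtain ⟨m1, r1⟩ := hC'm γ₁ h1
  obtain ⟨m2, r2⟩ := hC'm γ₂ h2
  have hrr : r ⟨γ₁, m1⟩ = r ⟨γ₂, m2⟩ := r1.trans r2.symm
  set d₁ := d ⟨γ₁, m1⟩ with hd₁
  set d₂ := d ⟨γ₂, m2⟩ with hd₂
  simp only [r, Prod.mk.injEq] at hrr
  obtain ⟨⟨q1, q2⟩, q3, q4⟩ := hrr
  rw [← hd₁, ← hd₂] at q1 q2 q3
  have a3 := d₁.hqm1; have a4 := d₁.hqm2; have a5 := d₁.hqp1; have a6 := d₁.hqp2
  have b3 := d₂.hqm1; have b4 := d₂.hqm2; have b5 := d₂.hqp1; have b6 := d₂.hqp2
  have hqm : d₁.qm = d₂.qm := by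
    have := fz_inj (by omega) (by push_cast; omega) (by omega) (by push_cast; omega) q1
    omega
  have hqp : d₁.qp = d₂.qp := by
    have := fz_inj (by omega) (by push_cast; omega) (by omega) (by push_cast; omega) q2
    omega
  apply pair_contra H hL s γ₁ γ₂ _ _ rfl rfl (hC _ m2) d₁ d₂ hqm hqp _ _ j hj hj'
  · apply recd_eq_of_code (tF := toF F l') (erun_move M _ _) (erun_move M _ _)
    · intro s s' he
      exact toF_inj (hF _ _) (hF _ _) he
    · apply lcode_inj (rec_len_le M l g _ _ _ _ _ _ d₁.hcM) _ _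
      · rw [hqm, hqp]
        exact rec_len_le M l g _ _ _ _ _ _ d₂.hcM
      · rw [q3, hqm, hqp]
  · intro j hj
    exact congrFun q4 ⟨j, hj⟩

end table

end Pool.Agent.Lib.MP_e130ca_lc
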