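import Pool.Agent.Lib.MP_e130ca_lc.Abs

/-!
Runs of abstract systems: shifts, contents, crossing records and their lengths.
-/

namespace Pool.Agent.Lib.MP_e130ca_lc

open Set

variable {Λ G W X : Type*}

/-- The run on a sequence of items. -/
def Sys.run (M : Sys Λ G W) (g : ℕ → W) (c : Cfg Λ G) : ℕ → Cfg Λ G
  | 0 => c
  | k + 1 => M.step (M.run g c k) (g k)

/-- The run under a strategy. -/
def Sys.erun (M : Sys Λ G W) (θ : ℤ → ℕ → W) (c : ECfg Λ G) : ℕ → ECfg Λ G
  | 0 => c
  | k + 1 => M.estep θ (M.erun θ c k)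

/-- The initial configuration. -/
def ini (l : Λ) (g : G) : ECfg Λ G := ⟨⟨l, 0, fun _ => g⟩, fun _ => 0⟩

/-- Translation of an extended configuration. -/
def ECfg.shift (c : ECfg Λ G) (z : ℤ) : ECfg Λ G :=
  ⟨c.toCfg.shift z, fun i => c.cnt (i - z)⟩

/-- The item presented in step `k`. -/
def Sys.txt (M : Sys Λ G W) (θ : ℤ → ℕ → W) (c : ECfg Λ G) (k : ℕ) : W :=
  θ (M.erun θ c k).pos ((M.erun θ c k).cnt (M.erun θ c k).pos)

theorem erun_toCfg (M : Sys Λ G W) (θ : ℤ → ℕ → W) (c : ECfg Λ G) (k : ℕ) :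
    (M.erun θ c k).toCfg = M.run (M.txt θ c) c.toCfg k := by
  induction k with
  | zero => rfl
  | succ k ih =>
    show M.step (M.erun θ c k).toCfg (M.txt θ c k) = M.step (M.run (M.txt θ c) c.toCfg k) _
    rw [ih]

theorem shift_toCfg (c : ECfg Λ G) (z : ℤ) : (c.shift z).toCfg = c.toCfg.shift z := rfl

theorem estep_shift (M : Sys Λ G W) (θ : ℤ → ℕ → W) (c : ECfg Λ G) (z : ℤ) :
    M.estep (fun i t => θ (i - z) t) (c.shift z) = (M.estep θ c).shift z := by
  have hpos : (c.shift z).pos = c.pos + z := rfl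
  have hw : θ ((c.shift z).pos - z) ((c.shift z).cnt (c.shift z).pos)
      = θ c.pos (c.cnt c.pos) := by
    show θ (c.pos + z - z) (c.cnt (c.pos + z - z)) = _
    rw [add_sub_cancel_right]
  have hc : (M.estep (fun i t => θ (i - z) t) (c.shift z)).toCfg
      = ((M.estep θ c).shift z).toCfg := by
    rw [M.estep_toCfg, hw, shift_toCfg, shift_toCfg, M.estep_toCfg, M.shift_step]
  apply ECfg.ext
  · rw [hc]
  · rw [hc]
  · rw [hc]
  · funext i
    rw [M.estep_cnt, hpos]
    show (if i = c.pos + z then c.cnt (i - z) + 1 else c.cnt (i - z)) =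
      (if i - z = c.pos then c.cnt (i - z) + 1 else c.cnt (i - z))
    by_cases h : i = c.pos + z
    · rw [if_pos h, if_pos (by omega)]
    · rw [if_neg h, if_neg (by omega)]

/-- The words presented during the first `k` steps. -/
def Sys.cont (M : Sys Λ G W) (θ : ℤ → ℕ → W) (c : ECfg Λ G) (k : ℕ) : Set W :=
  {w | ∃ i t, t < (M.erun θ c k).cnt i ∧ θ i t = w}

theorem cont_eq (M : Sys Λ G W) (θ : ℤ → ℕ → W) (l : Λ) (g : G) (k : ℕ) :
    {w | ∃ j < k, M.txt θ (ini l g) j = w} = M.cont θ (ini l g) k := by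
  induction k with
  | zero =>
    ext w
    simp [Sys.cont, Sys.erun, ini]
  | succ k ih =>
    have h1 : {w | ∃ j < k + 1, M.txt θ (ini l g) j = w} =
        {w | ∃ j < k, M.txt θ (ini l g) j = w} ∪ {M.txt θ (ini l g) k} := by
      ext w
      simp only [Set.mem_ofPred_eq, Set.mem_union, Set.mem_singleton_iff]
      constructor
      · rintro ⟨j, hj, rfl⟩
        rcases Nat.lt_succ_iff_lt_or_eq.mp hj with h | h
        · exact Or.inl ⟨j, h, rfl⟩
        · subst h; exact Or.inr rfl
      · rintro (⟨j, hj, rfl⟩ | rfl)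
        · exact ⟨j, by omega, rfl⟩
        · exact ⟨k, by omega, rfl⟩
    rw [h1, ih]
    ext w
    simp only [Sys.cont, Set.mem_union, Set.mem_singleton_iff, Set.mem_ofPred_eq]
    have hc : ∀ i, (M.erun θ (ini l g) (k + 1)).cnt i =
        if i = (M.erun θ (ini l g) k).pos then (M.erun θ (ini l g) k).cnt i + 1
        else (M.erun θ (ini l g) k).cnt i := fun i => rfl
    constructor
    · rintro (⟨i, t, ht, rfl⟩ | rfl)
      · refine ⟨i, t, ?_, rfl⟩
        rw [hc]; split_ifs <;> omega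
      · refine ⟨(M.erun θ (ini l g) k).pos, (M.erun θ (ini l g) k).cnt
          (M.erun θ (ini l g) k).pos, ?_, rfl⟩
        rw [hc, if_pos rfl]; omega
    · rintro ⟨i, t, ht, rfl⟩
      rw [hc] at ht
      split_ifs at ht with h
      · rcases Nat.lt_succ_iff_lt_or_eq.mp ht with h' | h'
        · exact Or.inl ⟨i, t, h', rfl⟩
        · right
          subst h' h
          rfl
      · exact Or.inl ⟨i, t, ht, rfl⟩

theorem run_congr (M : Sys Λ G W) {g g' : ℕ → W} (c : Cfg Λ G) (k : ℕ)
    (h : ∀ j < k, g j = g' j) : M.run g c k = M.run g' c k := by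
  induction k with
  | zero => rfl
  | succ k ih =>
    show M.step _ _ = M.step _ _
    rw [ih (fun j hj => h j (by omega)), h k (by omega)]

theorem run_add (M : Sys Λ G W) (g : ℕ → W) (c : Cfg Λ G) (k j : ℕ) :
    M.run g c (k + j) = M.run (fun i => g (k + i)) (M.run g c k) j := by
  induction j with
  | zero => rfl
  | succ j ih =>
    show M.step (M.run g c (k + j)) (g (k + j)) = _
    rw [ih]; rfl

/-- The limit requirement on a learner, seen from the abstract system. -/
structure Lim (M : Sys Λ G W) (c : Cfg Λ G) (out : Λ → Bool) : Prop where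
  full : ∀ g : ℕ → W, Set.range g = Set.univ →
    ∃ k₀, ∀ k ≥ k₀, out (M.run g c k).loc = true
  miss : ∀ (g : ℕ → W) (x : W), Set.range g = {x}ᶜ →
    ∃ k₀, ∀ k ≥ k₀, out (M.run g c k).loc = false

theorem inj_aux [Countable W] [Nontrivial W] {M : Sys Λ G W} {c : Cfg Λ G} {out : Λ → Bool}
    (H : Lim M c out) (g g' : ℕ → W) (k k' : ℕ) (h : M.run g c k = M.run g' c k') (x : W)
    (hx : ∃ j < k, g j = x) : ∃ j < k', g' j = x := by
  classical
  by_contra hcon
  push Not at hcon
  have : Nonempty ({x}ᶜ : Set W) := by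
    obtain ⟨y, hy⟩ := exists_ne x
    exact ⟨⟨y, by simpa using hy⟩⟩
  obtain ⟨e, he⟩ := exists_surjective_nat ({x}ᶜ : Set W)
  have heq : ∀ w, w ≠ x → ∃ j, (e j : W) = w := by
    intro w hw
    obtain ⟨j, hj⟩ := he ⟨w, by simpa using hw⟩
    exact ⟨j, by rw [hj]⟩
  have hne : ∀ j, (e j : W) ≠ x := fun j => by
    have := (e j).2
    rwa [Set.mem_compl_iff, Set.mem_singleton_iff] at this
  let u : ℕ → W := fun j => if j < k then g j else (e (j - k) : W)
  let u' : ℕ → W := fun j => if j < k' then g' j else (e (j - k') : W)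
  have hu : Set.range u = Set.univ := by
    apply Set.eq_univ_of_forall
    intro w
    by_cases hw : w = x
    · obtain ⟨j, hj, hjx⟩ := hx
      exact ⟨j, by simp only [u]; rw [if_pos hj, hjx, hw]⟩
    · obtain ⟨j, hj⟩ := heq w hw
      refine ⟨k + j, ?_⟩
      simp only [u]
      rw [if_neg (by omega), ← hj]
      congr 2
      omega
  have hu' : Set.range u' = {x}ᶜ := by
    ext w
    simp only [Set.mem_range, Set.mem_compl_iff, Set.mem_singleton_iff]
    constructor
    · rintro ⟨j, rfl⟩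
      simp only [u']
      split_ifs with hj
      · exact hcon j hj
      · exact hne _
    · intro hw
      obtain ⟨j, hj⟩ := heq w hw
      refine ⟨k' + j, ?_⟩
      simp only [u']
      rw [if_neg (by omega), ← hj]
      congr 2
      omega
  obtain ⟨k₀, hk₀⟩ := H.full u hu
  obtain ⟨k₁, hk₁⟩ := H.miss u' x hu'
  have hrun : ∀ j, M.run u c (k + j) = M.run u' c (k' + j) := by
    intro j
    rw [run_add, run_add]
    have e1 : M.run u c k = M.run g c k := run_congr M c k (fun i hi => by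
      simp only [u]; rw [if_pos hi])
    have e2 : M.run u' c k' = M.run g' c k' := run_congr M c k' (fun i hi => by
      simp only [u']; rw [if_pos hi])
    rw [e1, e2, h]
    apply run_congr
    intro i _
    simp only [u, u']
    rw [if_neg (by omega), if_neg (by omega)]
    congr 2
    omega
  have h1 := hk₀ (k + (k₀ + k₁)) (by omega)
  have h2 := hk₁ (k' + (k₀ + k₁)) (by omega)
  rw [hrun, h2] at h1
  exact Bool.false_ne_true h1

/-- A learner's configuration determines the set of items read so far. -/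
theorem cont_inj [Countable W] [Nontrivial W] {M : Sys Λ G W} {l : Λ} {g : G} {out : Λ → Bool}
    (H : Lim M (ini l g).toCfg out) (θ θ' : ℤ → ℕ → W) (k k' : ℕ)
    (h : (M.erun θ (ini l g) k).toCfg = (M.erun θ' (ini l g) k').toCfg) :
    M.cont θ (ini l g) k = M.cont θ' (ini l g) k' := by
  rw [erun_toCfg, erun_toCfg] at h
  rw [← cont_eq, ← cont_eq]
  ext w
  constructor
  · intro hw
    exact inj_aux H _ _ _ _ h w hw
  · intro hw
    exact inj_aux H _ _ _ _ h.symm w hw

/-- The list of values of `φ` at the crossings of the boundary of `S` (newest first). -/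
noncomputable def recG (S : Set ℤ) (φ : ECfg Λ G → X) (a : ℕ → ECfg Λ G) : ℕ → List X :=
  by classical exact fun s => Nat.rec [] (fun s r =>
    if ((a s).pos ∈ S ↔ (a (s + 1)).pos ∈ S) then r else φ (a (s + 1)) :: r) s

theorem recG_zero (S : Set ℤ) (φ : ECfg Λ G → X) (a : ℕ → ECfg Λ G) : recG S φ a 0 = [] := rfl

theorem recG_succ_of_iff {S : Set ℤ} {φ : ECfg Λ G → X} {a : ℕ → ECfg Λ G} {s : ℕ}
    (h : (a s).pos ∈ S ↔ (a (s + 1)).pos ∈ S) : recG S φ a (s + 1) = recG S φ a s := by
  classical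
  show (if ((a s).pos ∈ S ↔ (a (s + 1)).pos ∈ S) then recG S φ a s
    else φ (a (s + 1)) :: recG S φ a s) = _
  rw [if_pos h]

theorem recG_succ_of_not {S : Set ℤ} {φ : ECfg Λ G → X} {a : ℕ → ECfg Λ G} {s : ℕ}
    (h : ¬ ((a s).pos ∈ S ↔ (a (s + 1)).pos ∈ S)) :
    recG S φ a (s + 1) = φ (a (s + 1)) :: recG S φ a s := by
  classical
  show (if ((a s).pos ∈ S ↔ (a (s + 1)).pos ∈ S) then recG S φ a s
    else φ (a (s + 1)) :: recG S φ a s) = _
  rw [if_neg h]

/-- Equality of coded records gives equality of records. -/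
theorem recd_of_recG {S : Set ℤ} (φ : ECfg Λ G → X) {a b : ℕ → ECfg Λ G}
    (hφ : ∀ s s', ¬ ((a s).pos ∈ S ↔ (a (s + 1)).pos ∈ S) →
      ¬ ((b s').pos ∈ S ↔ (b (s' + 1)).pos ∈ S) → φ (a (s + 1)) = φ (b (s' + 1)) →
      entry S (a (s + 1)) = entry S (b (s' + 1))) :
    ∀ s s' : ℕ, recG S φ a s = recG S φ b s' → recd S a s = recd S b s' := by
  intro s
  induction s with
  | zero =>
    intro s'
    induction s' with
    | zero => intro _; rfl
    | succ s' ih =>
      intro h
      by_cases hb : ((b s').pos ∈ S ↔ (b (s' + 1)).pos ∈ S)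
      · rw [recG_succ_of_iff hb] at h
        rw [recd_succ_of_iff hb]
        exact ih h
      · rw [recG_succ_of_not hb] at h
        simp [recG_zero] at h
  | succ s ih =>
    intro s'
    by_cases ha : ((a s).pos ∈ S ↔ (a (s + 1)).pos ∈ S)
    · intro h
      rw [recG_succ_of_iff ha] at h
      rw [recd_succ_of_iff ha]
      exact ih s' h
    · induction s' with
      | zero =>
        intro h
        rw [recG_succ_of_not ha] at h
        simp [recG_zero] at h
      | succ s' ih' =>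
        intro h
        by_cases hb : ((b s').pos ∈ S ↔ (b (s' + 1)).pos ∈ S)
        · rw [recG_succ_of_iff hb] at h
          rw [recd_succ_of_iff hb]
          exact ih' h
        · rw [recG_succ_of_not ha, recG_succ_of_not hb, List.cons.injEq] at h
          rw [recd_succ_of_not ha, recd_succ_of_not hb, hφ s s' ha hb h.1, ih s' h.2]

theorem recG_compl (S : Set ℤ) (φ : ECfg Λ G → X) (a : ℕ → ECfg Λ G) (s : ℕ) :
    recG Sᶜ φ a s = recG S φ a s := by
  induction s with
  | zero => rfl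
  | succ s ih =>
    have hiff : (((a s).pos ∈ Sᶜ ↔ (a (s + 1)).pos ∈ Sᶜ)) ↔
        ((a s).pos ∈ S ↔ (a (s + 1)).pos ∈ S) := by
      simp only [Set.mem_compl_iff]; exact not_iff_not
    by_cases h : ((a s).pos ∈ S ↔ (a (s + 1)).pos ∈ S)
    · rw [recG_succ_of_iff h, recG_succ_of_iff (hiff.mpr h), ih]
    · rw [recG_succ_of_not h, recG_succ_of_not (fun h' => h (hiff.mp h')), ih]

/-- If the runs and the set are shifted, coded records stay the same. -/
theorem recG_shift (S S' : Set ℤ) (φ φ' : ECfg Λ G → X) (a : ℕ → ECfg Λ G) (z : ℤ)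
    (hS : ∀ i, i + z ∈ S' ↔ i ∈ S) (hφ : ∀ c : ECfg Λ G, φ' (c.shift z) = φ c) (s : ℕ) :
    recG S' φ' (fun s => (a s).shift z) s = recG S φ a s := by
  induction s with
  | zero => rfl
  | succ s ih =>
    have hiff : ((((a s).shift z).pos ∈ S' ↔ ((a (s + 1)).shift z).pos ∈ S')) ↔
        ((a s).pos ∈ S ↔ (a (s + 1)).pos ∈ S) := by
      have h1 : ((a s).shift z).pos = (a s).pos + z := rfl
      have h2 : ((a (s + 1)).shift z).pos = (a (s + 1)).pos + z := rfl
      rw [h1, h2, hS, hS]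
    by_cases h : ((a s).pos ∈ S ↔ (a (s + 1)).pos ∈ S)
    · rw [recG_succ_of_iff h, recG_succ_of_iff (hiff.mpr h), ih]
    · rw [recG_succ_of_not h, recG_succ_of_not (fun h' => h (hiff.mp h')), ih, hφ]

/-- A crossing starts and ends at a shared position. -/
theorem cross_shared {S : Set ℤ} {p q : ℤ} (hm : |q - p| ≤ 1) (h : ¬ (p ∈ S ↔ q ∈ S)) :
    Sh S p ∧ Sh S q := by
  have hm' : |p - q| ≤ 1 := by rwa [abs_sub_comm]
  by_cases hp : p ∈ S
  · have hq : q ∈ Sᶜ := fun hq => h ⟨fun _ => hq, fun _ => hp⟩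
    exact ⟨⟨⟨p, hp, by simp⟩, ⟨q, hq, hm⟩⟩, ⟨⟨p, hp, hm'⟩, ⟨q, hq, by simp⟩⟩⟩
  · have hq : q ∈ S := by
      by_contra hq
      exact h ⟨fun h' => absurd h' hp, fun h' => absurd h' hq⟩
    exact ⟨⟨⟨q, hq, hm⟩, ⟨p, hp, by simp⟩⟩, ⟨⟨q, hq, by simp⟩, ⟨p, hp, hm'⟩⟩⟩

/-- The number of crossings is bounded by the number of visits of shared cells. -/
theorem recG_length (M : Sys Λ G W) (θ : ℤ → ℕ → W) (φ : ECfg Λ G → X) (c : ECfg Λ G)
    (S : Set ℤ) (A : Finset ℤ) (hA : ∀ i, Sh S i → i ∈ A) (s : ℕ) :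
    (recG S φ (M.erun θ c) s).length ≤ ∑ i ∈ A, (M.erun θ c s).cnt i := by
  induction s with
  | zero => simp [recG_zero]
  | succ s ih =>
    have hc : ∀ i, (M.erun θ c (s + 1)).cnt i =
        if i = (M.erun θ c s).pos then (M.erun θ c s).cnt i + 1
        else (M.erun θ c s).cnt i := fun i => rfl
    have hmono : ∑ i ∈ A, (M.erun θ c s).cnt i ≤ ∑ i ∈ A, (M.erun θ c (s + 1)).cnt i := by
      apply Finset.sum_le_sum
      intro i _
      rw [hc]; split_ifs <;> omega
    by_cases h : ((M.erun θ c s).pos ∈ S ↔ (M.erun θ c (s + 1)).pos ∈ S)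
    · rw [recG_succ_of_iff h]
      omega
    · rw [recG_succ_of_not h, List.length_cons]
      have hm : |(M.erun θ c (s + 1)).pos - (M.erun θ c s).pos| ≤ 1 := M.move _ _
      have hp : (M.erun θ c s).pos ∈ A := hA _ (cross_shared hm h).1
      have hlt : ∑ i ∈ A, (M.erun θ c s).cnt i < ∑ i ∈ A, (M.erun θ c (s + 1)).cnt i := by
        apply Finset.sum_lt_sum
        · intro i _
          rw [hc]; split_ifs <;> omega
        · refine ⟨_, hp, ?_⟩
          rw [hc, if_pos rfl]; omega
      omega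

/-- The four shared positions of an interval. -/
def four (j1 j2 : ℤ) : Finset ℤ := {j1 - 1, j1, j2 - 1, j2}

theorem Sh_compl {S : Set ℤ} {i : ℤ} : Sh Sᶜ i ↔ Sh S i := by
  unfold Sh
  rw [compl_compl]
  exact and_comm

theorem sh_four {j1 j2 i : ℤ} (h : Sh (Set.Ico j1 j2) i) : i ∈ four j1 j2 := by
  obtain ⟨⟨p, hp, hpi⟩, ⟨q, hq, hqi⟩⟩ := h
  simp only [Set.mem_Ico, Set.mem_compl_iff] at hp hq
  rw [abs_le] at hpi hqi
  simp only [four, Finset.mem_insert, Finset.mem_singleton]
  omega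

theorem recd_compl (S : Set ℤ) (a : ℕ → ECfg Λ G) (s : ℕ) : recd Sᶜ a s = recd S a s := by
  have he : ∀ c : ECfg Λ G, entry Sᶜ c = entry S c := by
    intro c
    unfold entry
    congr 2
    funext i
    by_cases h : Sh S i
    · rw [if_pos h, if_pos (Sh_compl.mpr h)]
    · rw [if_neg h, if_neg (fun h' => h (Sh_compl.mp h'))]
  induction s with
  | zero => rfl
  | succ s ih =>
    have hiff : (((a s).pos ∈ Sᶜ ↔ (a (s + 1)).pos ∈ Sᶜ)) ↔
        ((a s).pos ∈ S ↔ (a (s + 1)).pos ∈ S) := by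
      simp only [Set.mem_compl_iff]; exact not_iff_not
    by_cases h : ((a s).pos ∈ S ↔ (a (s + 1)).pos ∈ S)
    · rw [recd_succ_of_iff h, recd_succ_of_iff (hiff.mpr h), ih]
    · rw [recd_succ_of_not h, recd_succ_of_not (fun h' => h (hiff.mp h')), ih, he]

/-- A finite code for the entries at the boundary of an interval. -/
noncomputable def code {F : Type*} (toF : Λ → F) (j1 j2 : ℤ) (c : ECfg Λ G) :
    F × (Bool × Bool × Bool) × (G × G × G × G) :=
  (toF c.loc, (decide (c.pos = j1 - 1), decide (c.pos = j1), decide (c.pos = j2 - 1)),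
    (c.tape (j1 - 1), c.tape j1, c.tape (j2 - 1), c.tape j2))

theorem code_shift {F : Type*} (toF : Λ → F) (j1 j2 z : ℤ) (c : ECfg Λ G) :
    code toF (j1 + z) (j2 + z) (c.shift z) = code toF j1 j2 c := by
  have h0 : (c.shift z).pos = c.pos + z := rfl
  have h1 : ∀ i, (c.shift z).tape i = c.tape (i - z) := fun i => rfl
  have h2 : (c.shift z).loc = c.loc := rfl
  unfold code
  rw [h0, h1, h1, h1, h1, h2]
  have e1 : j1 + z - 1 - z = j1 - 1 := by ring
  have e2 : j1 + z - z = j1 := by ring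
  have e3 : j2 + z - 1 - z = j2 - 1 := by ring
  have e4 : j2 + z - z = j2 := by ring
  rw [e1, e2, e3, e4]
  have f1 : (c.pos + z = j1 + z - 1) ↔ (c.pos = j1 - 1) := by omega
  have f2 : (c.pos + z = j1 + z) ↔ (c.pos = j1) := by omega
  have f3 : (c.pos + z = j2 + z - 1) ↔ (c.pos = j2 - 1) := by omega
  simp only [f1, f2, f3]

theorem entry_of_code {F : Type*} {toF : Λ → F} {j1 j2 : ℤ} {c d : ECfg Λ G}
    (hF : toF c.loc = toF d.loc → c.loc = d.loc)
    (hc : c.pos ∈ four j1 j2) (hd : d.pos ∈ four j1 j2)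
    (h : code toF j1 j2 c = code toF j1 j2 d) :
    entry (Set.Ico j1 j2) c = entry (Set.Ico j1 j2) d := by
  unfold code at h
  simp only [Prod.mk.injEq, decide_eq_decide] at h
  obtain ⟨h1, ⟨h2, h3, h4⟩, h5, h6, h7, h8⟩ := h
  apply entry_congr (hF h1)
  · simp only [four, Finset.mem_insert, Finset.mem_singleton] at hc hd
    omega
  · intro i hi
    have := sh_four hi
    simp only [four, Finset.mem_insert, Finset.mem_singleton] at this
    rcases this with rfl | rfl | rfl | rfl
    · exact h5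
    · exact h6
    · exact h7
    · exact h8

/-- Code of a list of bounded length as a function. -/
def lcode (n : ℕ) (l : List X) : Fin n → Option X := fun i => l[(i : ℕ)]?

theorem lcode_inj {n : ℕ} {l l' : List X} (hl : l.length ≤ n) (hl' : l'.length ≤ n)
    (h : lcode n l = lcode n l') : l = l' := by
  apply List.ext_getElem?
  intro i
  by_cases hi : i < n
  · exact congrFun h ⟨i, hi⟩
  · rw [List.getElem?_eq_none (by omega), List.getElem?_eq_none (by omega)]

end Pool.Agent.Lib.MP_e130ca_lc
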