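import Pool.Agent.Lib.MP_e130ca_lc.Defs
import Pool.Agent.Lib.MP_e130ca_lc.Run

/-!
A machine with one additional work-tape, reading words of a fixed length, is an abstract system.
-/

namespace Pool.Agent.Lib.MP_e130ca_lc

variable {A B : Type} (T : Machine A B 1)

theorem toInt_le (d : Dir) : -1 ≤ d.toInt ∧ d.toInt ≤ 1 := by
  cases d <;> simp [Dir.toInt]

theorem step_halt {C : Config T} (h : C.state ∈ T.halt) : T.step C = C := by
  unfold Machine.step
  rw [if_pos h]

theorem step_run {C : Config T} (h : C.state ∉ T.halt) : T.step C =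
    { state := (T.δ C.state (C.base C.bpos) (fun j => C.work j (C.wpos j))).1
      bpos := C.bpos + (T.δ C.state (C.base C.bpos) (fun j => C.work j (C.wpos j))).2.2.1.toInt
      base := Function.update C.base C.bpos
        (T.δ C.state (C.base C.bpos) (fun j => C.work j (C.wpos j))).2.1
      wpos := fun j => C.wpos j +
        ((T.δ C.state (C.base C.bpos) (fun j => C.work j (C.wpos j))).2.2.2 j).2.toInt
      work := fun j => Function.update (C.work j) (C.wpos j)
        ((T.δ C.state (C.base C.bpos) (fun j => C.work j (C.wpos j))).2.2.2 j).1 } := by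
  unfold Machine.step
  rw [if_neg h]

theorem step_wpos (C : Config T) : |(T.step C).wpos 0 - C.wpos 0| ≤ 1 := by
  by_cases h : C.state ∈ T.halt
  · rw [step_halt T h]; simp
  · rw [step_run T h]
    have := toInt_le
      ((T.δ C.state (C.base C.bpos) (fun j => C.work j (C.wpos j))).2.2.2 0).2
    rw [abs_le]
    simp only
    omega

theorem step_work (C : Config T) (i : ℤ) (hi : i ≠ C.wpos 0) :
    (T.step C).work 0 i = C.work 0 i := by
  by_cases h : C.state ∈ T.halt
  · rw [step_halt T h]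
  · rw [step_run T h]
    exact Function.update_of_ne hi _ _

theorem iter_wpos (C : Config T) (j : ℕ) : |(T.step^[j] C).wpos 0 - C.wpos 0| ≤ j := by
  induction j with
  | zero => simp
  | succ j ih =>
    rw [Function.iterate_succ_apply']
    have := step_wpos T (T.step^[j] C)
    rw [abs_le] at this ih ⊢
    push_cast
    omega

theorem iter_work (C : Config T) (i : ℤ) (j : ℕ) (hi : (j : ℤ) ≤ |i - C.wpos 0|) :
    (T.step^[j] C).work 0 i = C.work 0 i := by
  induction j with
  | zero => rfl
  | succ j ih =>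
    rw [Function.iterate_succ_apply', step_work, ih]
    · push_cast at hi; omega
    · intro he
      have := iter_wpos T C j
      rw [← he] at this
      push_cast at hi
      omega

/-- Agreement of configurations, for the work-tape only on the set `D`. -/
structure Agree (D : Set ℤ) (C C' : Config T) : Prop where
  state : C.state = C'.state
  bpos : C.bpos = C'.bpos
  base : C.base = C'.base
  wpos : C.wpos = C'.wpos
  work : ∀ i ∈ D, C.work 0 i = C'.work 0 i

theorem agree_step {D : Set ℤ} {C C' : Config T} (h : Agree T D C C') (hD : C.wpos 0 ∈ D) :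
    Agree T D (T.step C) (T.step C') := by
  have hread : (fun j => C.work j (C.wpos j)) = (fun j => C'.work j (C'.wpos j)) := by
    funext j
    have hj : j = 0 := Subsingleton.elim _ _
    subst hj
    rw [← h.wpos]
    exact h.work _ hD
  by_cases hs : C.state ∈ T.halt
  · have hs' : C'.state ∈ T.halt := by rw [← h.state]; exact hs
    rw [step_halt T hs, step_halt T hs']
    exact h
  · have hs' : C'.state ∉ T.halt := by rw [← h.state]; exact hs
    rw [step_run T hs, step_run T hs', ← hread, ← h.state, ← h.base, ← h.bpos]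
    refine ⟨rfl, rfl, rfl, ?_, ?_⟩
    · simp only
      rw [h.wpos]
    · intro i hi
      simp only
      rw [← h.wpos]
      by_cases hi' : i = C.wpos 0
      · subst hi'
        rw [Function.update_self, Function.update_self]
      · rw [Function.update_of_ne hi', Function.update_of_ne hi']
        exact h.work i hi

theorem agree_iter {D : Set ℤ} {C C' : Config T} (h : Agree T D C C') (j : ℕ)
    (hD : ∀ i, |i - C.wpos 0| ≤ j → i ∈ D) :
    Agree T D (T.step^[j] C) (T.step^[j] C') := by
  induction j with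
  | zero => exact h
  | succ j ih =>
    rw [Function.iterate_succ_apply', Function.iterate_succ_apply']
    apply agree_step
    · apply ih
      intro i hi
      apply hD
      push_cast
      omega
    · apply hD
      have := iter_wpos T C j
      push_cast
      omega

/-- Translation of the work-tape. -/
def shiftC (z : ℤ) (C : Config T) : Config T :=
  { C with
    wpos := fun j => C.wpos j + z
    work := fun j i => C.work j (i - z) }

theorem step_shiftC (z : ℤ) (C : Config T) : T.step (shiftC T z C) = shiftC T z (T.step C) := by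
  have hread : (fun j => (shiftC T z C).work j ((shiftC T z C).wpos j)) =
      (fun j => C.work j (C.wpos j)) := by
    funext j
    show C.work j (C.wpos j + z - z) = _
    rw [add_sub_cancel_right]
  by_cases hs : C.state ∈ T.halt
  · have hs' : (shiftC T z C).state ∈ T.halt := hs
    rw [step_halt T hs, step_halt T hs']
  · have hs' : (shiftC T z C).state ∉ T.halt := hs
    rw [step_run T hs, step_run T hs', hread]
    have e1 : (shiftC T z C).state = C.state := rfl
    have e2 : (shiftC T z C).base = C.base := rfl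
    have e3 : (shiftC T z C).bpos = C.bpos := rfl
    rw [e1, e2, e3]
    apply Config.ext
    · rfl
    · rfl
    · rfl
    · funext j
      show C.wpos j + z + _ = C.wpos j + _ + z
      ring
    · funext j i
      show Function.update (fun i => C.work j (i - z)) (C.wpos j + z) _ i =
        Function.update (C.work j) (C.wpos j) _ (i - z)
      by_cases hi : i = C.wpos j + z
      · subst hi
        rw [Function.update_self, add_sub_cancel_right, Function.update_self]
      · rw [Function.update_of_ne hi, Function.update_of_ne (by intro h; apply hi; omega)]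

theorem iter_shiftC (z : ℤ) (C : Config T) (j : ℕ) :
    T.step^[j] (shiftC T z C) = shiftC T z (T.step^[j] C) := by
  induction j with
  | zero => rfl
  | succ j ih => rw [Function.iterate_succ_apply', Function.iterate_succ_apply', ih, step_shiftC]

/-- Local states: the output and memory tracks of the base tape, and the offset of the head of
the work-tape in its block. -/
abbrev Lam (R : ℕ) := (ℤ → Option B × T.Mem) × Fin R
/-- Block symbols. -/
abbrev Gam (R : ℕ) := Fin R → T.Work

/-- The offset in a block. -/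
def off (R : ℕ) (hR : 0 < R) (i : ℤ) : Fin R :=
  ⟨(i % (R : ℤ)).toNat, by
    have h1 := Int.emod_nonneg i (b := (R : ℤ)) (by omega)
    have h2 := Int.emod_lt_of_pos i (b := (R : ℤ)) (by omega)
    omega⟩

theorem off_val (R : ℕ) (hR : 0 < R) (i : ℤ) : ((off R hR i : ℕ) : ℤ) = i % (R : ℤ) := by
  unfold off
  have h1 := Int.emod_nonneg i (b := (R : ℤ)) (by omega)
  simp only
  omega

theorem div_block {R : ℕ} (hR : 0 < R) (i : ℤ) (o : Fin R) :
    (i * (R : ℤ) + ((o : ℕ) : ℤ)) / (R : ℤ) = i := by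
  have ho := o.2
  rw [add_comm, Int.add_mul_ediv_right _ _ (by omega), Int.ediv_eq_zero_of_lt (by omega) (by omega),
    zero_add]

theorem off_block {R : ℕ} (hR : 0 < R) (i : ℤ) (o : Fin R) :
    off R hR (i * (R : ℤ) + ((o : ℕ) : ℤ)) = o := by
  have ho := o.2
  apply Fin.ext
  have h := off_val R hR (i * (R : ℤ) + ((o : ℕ) : ℤ))
  rw [add_comm, Int.add_mul_emod_self_right, Int.emod_eq_of_lt (by omega) (by omega)] at h
  rw [add_comm]
  omega

theorem block_eq {R : ℕ} (hR : 0 < R) (i : ℤ) :
    (i / (R : ℤ)) * (R : ℤ) + ((off R hR i : ℕ) : ℤ) = i := by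
  rw [off_val]
  exact Int.ediv_mul_add_emod i R

/-- From configurations to abstract configurations. -/
def proj (R : ℕ) (hR : 0 < R) (C : Config T) : Cfg (Lam T R) (Gam T R) :=
  ⟨(fun i => (C.base i).2, off R hR (C.wpos 0)), C.wpos 0 / (R : ℤ),
    fun i o => C.work 0 (i * (R : ℤ) + ((o : ℕ) : ℤ))⟩

/-- From abstract configurations to configurations. -/
def unproj (R : ℕ) (hR : 0 < R) (C : Cfg (Lam T R) (Gam T R)) : Config T :=
  ⟨T.start, 0, fun i => (none, C.loc.1 i), fun _ => C.pos * (R : ℤ) + ((C.loc.2 : ℕ) : ℤ),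
    fun _ i => C.tape (i / (R : ℤ)) (off R hR i)⟩

theorem load_unproj (R : ℕ) (hR : 0 < R) (w : List A) (C : Config T) :
    T.load w (unproj T R hR (proj T R hR C)) = T.load w C := by
  apply Config.ext
  · rfl
  · rfl
  · rfl
  · funext j
    have hj : j = 0 := Subsingleton.elim _ _
    subst hj
    exact block_eq hR _
  · funext j i
    have hj : j = 0 := Subsingleton.elim _ _
    subst hj
    show C.work 0 (i / (R : ℤ) * (R : ℤ) + ((off R hR i : ℕ) : ℤ)) = C.work 0 i
    rw [block_eq]

variable {W : Type} (word : W → List A) (τ : ℕ)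

/-- One cycle of the abstract system. -/
noncomputable def mstep (C : Cfg (Lam T (τ + 1)) (Gam T (τ + 1))) (w : W) :
    Cfg (Lam T (τ + 1)) (Gam T (τ + 1)) :=
  proj T _ (Nat.succ_pos _) (T.step^[τ] (T.load (word w) (unproj T _ (Nat.succ_pos _) C)))

theorem div_close {R : ℕ} {p q : ℤ} {o : Fin R} {τ : ℕ} (hR : R = τ + 1)
    (h : |q - (p * (R : ℤ) + ((o : ℕ) : ℤ))| ≤ τ) : |q / (R : ℤ) - p| ≤ 1 := by
  have ho := o.2
  have hRpos : (0 : ℤ) < R := by omega
  rw [abs_le] at h ⊢
  have h1 := Int.ediv_mul_le q (b := (R : ℤ)) (by omega)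
  have h2 := Int.lt_ediv_add_one_mul_self q hRpos
  constructor
  · by_contra hc
    have h3 : q / (R : ℤ) + 1 ≤ p - 1 := by omega
    have h4 : (q / (R : ℤ) + 1) * R ≤ (p - 1) * R := mul_le_mul_of_nonneg_right h3 hRpos.le
    have h5 : (p - 1) * (R : ℤ) = p * R - R := by ring
    omega
  · by_contra hc
    have h3 : p + 2 ≤ q / (R : ℤ) := by omega
    have h4 : (p + 2) * R ≤ (q / (R : ℤ)) * R := mul_le_mul_of_nonneg_right h3 hRpos.le
    have h5 : (p + 2) * (R : ℤ) = p * R + 2 * R := by ring
    omega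

theorem mstep_move (C : Cfg (Lam T (τ + 1)) (Gam T (τ + 1))) (w : W) :
    |(mstep T word τ C w).pos - C.pos| ≤ 1 := by
  show |(T.step^[τ] (T.load (word w) (unproj T _ (Nat.succ_pos _) C))).wpos 0 /
      ((τ + 1 : ℕ) : ℤ) - C.pos| ≤ 1
  exact div_close rfl (iter_wpos T (T.load (word w) (unproj T _ (Nat.succ_pos _) C)) _)

theorem mstep_frame (C : Cfg (Lam T (τ + 1)) (Gam T (τ + 1))) (w : W) (i : ℤ)
    (hi : 1 < |i - C.pos|) : (mstep T word τ C w).tape i = C.tape i := by
  funext o
  have ho := o.2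
  show (T.step^[τ] (T.load (word w) (unproj T _ (Nat.succ_pos _) C))).work 0
      (i * ((τ + 1 : ℕ) : ℤ) + ((o : ℕ) : ℤ)) = C.tape i o
  rw [iter_work]
  · show C.tape ((i * ((τ + 1 : ℕ) : ℤ) + ((o : ℕ) : ℤ)) /
        ((τ + 1 : ℕ) : ℤ)) (off _ _ _) = C.tape i o
    rw [div_block (Nat.succ_pos _), off_block]
  · have e : (T.load (word w) (unproj T _ (Nat.succ_pos _) C)).wpos 0 =
        C.pos * ((τ + 1 : ℕ) : ℤ) + ((C.loc.2 : ℕ) : ℤ) := rfl
    rw [e]
    have ho' := C.loc.2.2
    rw [lt_abs] at hi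
    rw [le_abs]
    rcases hi with hi | hi
    · left
      have h3 : (C.pos + 2) * ((τ + 1 : ℕ) : ℤ) ≤ i * ((τ + 1 : ℕ) : ℤ) :=
        mul_le_mul_of_nonneg_right (by omega) (by positivity)
      have h5 : (C.pos + 2) * ((τ + 1 : ℕ) : ℤ) =
        C.pos * ((τ + 1 : ℕ) : ℤ) + 2 * ((τ + 1 : ℕ) : ℤ) := by ring
      omega
    · right
      have h3 : (i + 2) * ((τ + 1 : ℕ) : ℤ) ≤ C.pos * ((τ + 1 : ℕ) : ℤ) :=
        mul_le_mul_of_nonneg_right (by omega) (by positivity)
      have h5 : (i + 2) * ((τ + 1 : ℕ) : ℤ) =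
        i * ((τ + 1 : ℕ) : ℤ) + 2 * ((τ + 1 : ℕ) : ℤ) := by ring
      omega

theorem mstep_local (C C' : Cfg (Lam T (τ + 1)) (Gam T (τ + 1))) (w : W)
    (hl : C.loc = C'.loc) (hp : C.pos = C'.pos)
    (ht : ∀ i, |i - C.pos| ≤ 1 → C.tape i = C'.tape i) :
    (mstep T word τ C w).loc = (mstep T word τ C' w).loc ∧
    (mstep T word τ C w).pos = (mstep T word τ C' w).pos ∧
      ∀ i, |i - C.pos| ≤ 1 → (mstep T word τ C w).tape i = (mstep T word τ C' w).tape i := by
  let D : Set ℤ := {i | |i / ((τ + 1 : ℕ) : ℤ) - C.pos| ≤ 1}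
  have hag : Agree T D (T.load (word w) (unproj T (τ + 1) (Nat.succ_pos _) C))
      (T.load (word w) (unproj T (τ + 1) (Nat.succ_pos _) C')) := by
    refine ⟨rfl, rfl, ?_, ?_, ?_⟩
    · funext i
      show (_, C.loc.1 i) = (_, C'.loc.1 i)
      rw [hl]
    · funext j
      show C.pos * ((τ + 1 : ℕ) : ℤ) + ((C.loc.2 : ℕ) : ℤ) =
        C'.pos * ((τ + 1 : ℕ) : ℤ) + ((C'.loc.2 : ℕ) : ℤ)
      rw [hl, hp]
    · intro i hi
      show C.tape (i / ((τ + 1 : ℕ) : ℤ)) _ = C'.tape (i / ((τ + 1 : ℕ) : ℤ)) _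
      rw [ht _ hi]
  have hag' := agree_iter T hag τ (fun i hi => div_close rfl hi)
  have h1 : (mstep T word τ C w).loc = (mstep T word τ C' w).loc := by
    show ((fun i => ((T.step^[τ] (T.load (word w) (unproj T (τ + 1) (Nat.succ_pos _)
        C))).base i).2), off (τ + 1) (Nat.succ_pos _) ((T.step^[τ] (T.load (word w)
        (unproj T (τ + 1) (Nat.succ_pos _) C))).wpos 0)) = ((fun i => ((T.step^[τ]
        (T.load (word w) (unproj T (τ + 1) (Nat.succ_pos _) C'))).base i).2),
        off (τ + 1) (Nat.succ_pos _) ((T.step^[τ] (T.load (word w)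
        (unproj T (τ + 1) (Nat.succ_pos _) C'))).wpos 0))
    rw [hag'.base, hag'.wpos]
  refine ⟨h1, ?_, ?_⟩
  · show (T.step^[τ] (T.load (word w) (unproj T (τ + 1) (Nat.succ_pos _) C))).wpos 0 /
        ((τ + 1 : ℕ) : ℤ) =
      (T.step^[τ] (T.load (word w) (unproj T (τ + 1) (Nat.succ_pos _) C'))).wpos 0 /
        ((τ + 1 : ℕ) : ℤ)
    rw [hag'.wpos]
  · intro i hi
    funext o
    apply hag'.work
    show |_ / ((τ + 1 : ℕ) : ℤ) - C.pos| ≤ 1
    rw [div_block (Nat.succ_pos _)]
    exact hi

theorem off_shift (R : ℕ) (hR : 0 < R) (i z : ℤ) : off R hR (i + z * R) = off R hR i := by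
  apply Fin.ext
  have o1 := off_val R hR (i + z * R)
  have o2 := off_val R hR i
  rw [Int.add_mul_emod_self_right] at o1
  omega

theorem mstep_shift (C : Cfg (Lam T (τ + 1)) (Gam T (τ + 1))) (w : W) (z : ℤ) :
    mstep T word τ (C.shift z) w = (mstep T word τ C w).shift z := by
  have hRpos : (0 : ℤ) < ((τ + 1 : ℕ) : ℤ) := by omega
  have h1 : T.load (word w) (unproj T (τ + 1) (Nat.succ_pos _) (C.shift z)) =
      shiftC T (z * ((τ + 1 : ℕ) : ℤ))
        (T.load (word w) (unproj T (τ + 1) (Nat.succ_pos _) C)) := by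
    apply Config.ext
    · rfl
    · rfl
    · rfl
    · funext j
      show (C.pos + z) * ((τ + 1 : ℕ) : ℤ) + ((C.loc.2 : ℕ) : ℤ) =
        C.pos * ((τ + 1 : ℕ) : ℤ) + ((C.loc.2 : ℕ) : ℤ) + z * ((τ + 1 : ℕ) : ℤ)
      ring
    · funext j i
      show C.tape (i / ((τ + 1 : ℕ) : ℤ) - z) (off (τ + 1) _ i) =
        C.tape ((i - z * ((τ + 1 : ℕ) : ℤ)) / ((τ + 1 : ℕ) : ℤ))
          (off (τ + 1) _ (i - z * ((τ + 1 : ℕ) : ℤ)))
      have e0 : i - z * ((τ + 1 : ℕ) : ℤ) = i + (-z) * ((τ + 1 : ℕ) : ℤ) := by ring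
      rw [e0, Int.add_mul_ediv_right _ _ hRpos.ne', off_shift]
      rfl
  have h2 : mstep T word τ (C.shift z) w =
      proj T (τ + 1) (Nat.succ_pos _) (shiftC T (z * ((τ + 1 : ℕ) : ℤ))
        (T.step^[τ] (T.load (word w) (unproj T (τ + 1) (Nat.succ_pos _) C)))) := by
    unfold mstep
    rw [h1, iter_shiftC]
  rw [h2]
  have h3 : mstep T word τ C w = proj T (τ + 1) (Nat.succ_pos _)
    (T.step^[τ] (T.load (word w) (unproj T (τ + 1) (Nat.succ_pos _) C))) := rfl
  rw [h3]
  generalize T.step^[τ] (T.load (word w) (unproj T (τ + 1) (Nat.succ_pos _) C)) = C₁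
  apply Cfg.ext
  · show ((fun i => (C₁.base i).2), off (τ + 1) _ (C₁.wpos 0 + z * ((τ + 1 : ℕ) : ℤ))) =
      ((fun i => (C₁.base i).2), off (τ + 1) _ (C₁.wpos 0))
    rw [off_shift]
  · show (C₁.wpos 0 + z * ((τ + 1 : ℕ) : ℤ)) / ((τ + 1 : ℕ) : ℤ) =
      C₁.wpos 0 / ((τ + 1 : ℕ) : ℤ) + z
    rw [Int.add_mul_ediv_right _ _ hRpos.ne']
  · funext i o
    show C₁.work 0 (i * ((τ + 1 : ℕ) : ℤ) + ((o : ℕ) : ℤ) - z * ((τ + 1 : ℕ) : ℤ)) =
      C₁.work 0 ((i - z) * ((τ + 1 : ℕ) : ℤ) + ((o : ℕ) : ℤ))
    congr 1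
    ring

/-- The abstract system of a machine making `τ` steps in every cycle. -/
noncomputable def msys : Sys (Lam T (τ + 1)) (Gam T (τ + 1)) W where
  step := mstep T word τ
  move := mstep_move T word τ
  frame := mstep_frame T word τ
  local_step := mstep_local T word τ
  shift_step := mstep_shift T word τ

end Pool.Agent.Lib.MP_e130ca_lc
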