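import Pool.Agent.Lib.MP_e130ca_lc.Abstract
import Pool.Agent.Lib.MP_e130ca_lc.MachSys
import Pool.Agent.Lib.MP_e130ca_lc.Family

/-!
No linear-time learner with one additional work-tape learns the family.
-/

namespace Pool.Agent.Lib.MP_e130ca_lc

open Filter

section general
variable {A B : Type} (T : Machine A B 1)

theorem step_base (C : Config T) (i : ℤ) (hi : i ≠ C.bpos) :
    (T.step C).base i = C.base i := by
  by_cases h : C.state ∈ T.halt
  · rw [step_halt T h]
  · rw [step_run T h]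
    exact Function.update_of_ne hi _ _

theorem iter_base (C : Config T) (i : ℤ) (j : ℕ)
    (hi : ∀ j' < j, i ≠ (T.step^[j'] C).bpos) : (T.step^[j] C).base i = C.base i := by
  induction j with
  | zero => rfl
  | succ j ih =>
    rw [Function.iterate_succ_apply', step_base T _ _ (hi j (by omega))]
    exact ih (fun j' hj' => hi j' (by omega))

theorem maxLen_congr {g g' : ℕ → List A} {t : ℕ} (h : ∀ j ≤ t, g j = g' j) :
    maxLen g t = maxLen g' t := by
  unfold maxLen
  apply Finset.sup_congr rfl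
  intro j hj
  rw [Finset.mem_range] at hj
  rw [h j (by omega)]

theorem conf_congr {g g' : ℕ → List A} (t : ℕ) (h : ∀ j < t, g j = g' j) :
    T.conf g t = T.conf g' t := by
  induction t with
  | zero => rfl
  | succ t ih =>
    show T.step^[_] (T.load (g t) (T.conf g t)) = T.step^[_] (T.load (g' t) (T.conf g' t))
    rw [ih (fun j hj => h j (by omega)), h t (by omega),
      maxLen_congr (fun j hj => h j (by omega))]

variable {W : Type} (word : W → List A) (n : ℕ) (hlen : ∀ w, (word w).length = n)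

include hlen

theorem maxLen_const (g : ℕ → W) (t : ℕ) : maxLen (fun j => word (g j)) t = n := by
  unfold maxLen
  simp only [hlen]
  exact Finset.sup_const (Finset.nonempty_range_iff.mpr (by omega)) n

/-- the initial local state -/
def l₀ (R : ℕ) (hR : 0 < R) : Lam T R := (fun _ => (none, T.memBlank), off R hR 0)
/-- the initial block -/
def g₀ (R : ℕ) : Gam T R := fun _ => T.workBlank

theorem conf_run (g : ℕ → W) (t : ℕ) :
    proj T (T.c * (n + 1) + 1) (Nat.succ_pos _) (T.conf (fun j => word (g j)) t) =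
      (msys T word (T.c * (n + 1))).run g
        (ini (l₀ T (T.c * (n + 1) + 1) (Nat.succ_pos _)) (g₀ T (T.c * (n + 1) + 1))).toCfg t := by
  induction t with
  | zero =>
    apply Cfg.ext
    · rfl
    · show (0 : ℤ) / _ = 0
      exact Int.zero_ediv _
    · rfl
  | succ t ih =>
    show proj T _ _ (T.step^[T.c * (maxLen (fun j => word (g j)) t + 1)]
      (T.load (word (g t)) (T.conf (fun j => word (g j)) t))) = mstep T word _ _ (g t)
    rw [← ih, maxLen_const word n hlen]
    unfold mstep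
    rw [load_unproj]

end general

/-- extension of an initial segment to a complete enumeration -/
theorem exists_ext {W : Type} [Countable W] [Nonempty W] (g : ℕ → W) (t : ℕ) :
    ∃ g' : ℕ → W, (∀ j ≤ t, g' j = g j) ∧ Set.range g' = Set.univ := by
  obtain ⟨e, he⟩ := exists_surjective_nat W
  refine ⟨fun j => if j ≤ t then g j else e (j - (t + 1)), ?_, ?_⟩
  · intro j hj
    simp only
    rw [if_pos hj]
  · apply Set.eq_univ_of_forall
    intro w
    obtain ⟨j, hj⟩ := he w
    refine ⟨t + 1 + j, ?_⟩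
    simp only
    rw [if_neg (by omega), ← hj]
    congr 1
    omega

section main
variable (T : Machine (Fin 3) (Fin 4) 1) {W : Type} (word : W → List (Fin 3)) (n : ℕ)
  (hlen : ∀ w, (word w).length = n)
  (hsurj : ∀ x : List (Fin 3), x.length = n → ∃ w, word w = x)
  (hn : 0 < n)

include hlen hsurj hn in
theorem text_full (g : ℕ → W) (hg : Set.range g = Set.univ) :
    IsText (fun j => word (g j)) (famL (List.replicate n 3)) := by
  intro x
  rw [famL_full (rep_ne hn), List.length_replicate]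
  constructor
  · intro hx
    obtain ⟨w, hw⟩ := hsurj x hx
    have : w ∈ Set.range g := by rw [hg]; trivial
    obtain ⟨j, hj⟩ := this
    exact ⟨j, by simp only; rw [hj, hw]⟩
  · rintro ⟨j, rfl⟩
    exact hlen _

include hlen hsurj in
theorem text_miss (hinj : Function.Injective word) (g : ℕ → W) (x : W)
    (hg : Set.range g = {x}ᶜ) :
    IsText (fun j => word (g j)) (famL ((word x).map Fin.castSucc)) := by
  intro z
  rw [famL_miss, hlen]
  constructor
  · rintro ⟨hz1, hz2⟩
    obtain ⟨w, hw⟩ := hsurj z hz1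
    have : w ∈ Set.range g := by
      rw [hg]
      intro h
      rw [Set.mem_singleton_iff] at h
      exact hz2 (by rw [← hw, h])
    obtain ⟨j, hj⟩ := this
    exact ⟨j, by simp only; rw [hj, hw]⟩
  · rintro ⟨j, rfl⟩
    refine ⟨hlen _, ?_⟩
    intro h
    have h1 : g j ∈ Set.range g := ⟨j, rfl⟩
    rw [hg] at h1
    exact h1 (hinj h)

include hlen hsurj hn in
theorem obeys_all [Countable W] [Nonempty W] (hT : T.Learns famI famL) (g : ℕ → W) (t : ℕ) :
    T.Obeys (fun j => word (g j)) t := by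
  obtain ⟨g', h1, h2⟩ := exists_ext g t
  have hI : List.replicate n (3 : Fin 4) ∈ famI := by
    rw [mem_famI]
    intro h
    have := congrArg List.length h
    rw [List.length_replicate, List.length_nil] at this
    omega
  have h3 := (hT _ hI _ (text_full word n hlen hsurj hn g' h2)).1 t
  unfold Machine.Obeys at h3 ⊢
  have e1 : T.conf (fun j => word (g j)) t = T.conf (fun j => word (g' j)) t :=
    conf_congr T t (fun j hj => by rw [h1 j (by omega)])
  have e2 : T.conf (fun j => word (g j)) (t + 1) = T.conf (fun j => word (g' j)) (t + 1) :=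
    conf_congr T (t + 1) (fun j hj => by rw [h1 j (by omega)])
  have e3 : maxLen (fun j => word (g j)) t = maxLen (fun j => word (g' j)) t :=
    maxLen_congr (fun j hj => by rw [h1 j hj])
  rw [e1, e2, e3]
  simp only
  rw [← h1 t le_rfl]
  exact h3

include hlen hsurj hn in
theorem support [Countable W] [Nonempty W] (hT : T.Learns famI famL) (g : ℕ → W) (t : ℕ)
    (i : ℤ) (hi : i < -(T.pad : ℤ) ∨ (n : ℤ) + T.pad < i) :
    ((T.conf (fun j => word (g j)) t).base i).2 = (none, T.memBlank) := by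
  induction t with
  | zero => rfl
  | succ t ih =>
    have hob := (obeys_all T word n hlen hsurj hn hT g t).2
    show ((T.step^[T.c * (maxLen (fun j => word (g j)) t + 1)]
      (T.load (word (g t)) (T.conf (fun j => word (g j)) t))).base i).2 = _
    rw [iter_base]
    · exact ih
    · intro j' hj'
      have h1 := hob j' hj'.le
      rw [maxLen_const word n hlen] at h1
      simp only at h1
      omega

/-- finite coding of local states -/
def psi (R : ℕ) (p : (Fin (n + 2 * T.pad + 1) → Option (Fin 4) × T.Mem) × Fin R) : Lam T R :=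
  (fun i => if h : 0 ≤ i + T.pad ∧ i + T.pad < n + 2 * T.pad + 1
    then p.1 ⟨(i + T.pad).toNat, by omega⟩ else (none, T.memBlank), p.2)

theorem mem_psi (R : ℕ) (q : Lam T R)
    (hq : ∀ i : ℤ, i < -(T.pad : ℤ) ∨ (n : ℤ) + T.pad < i → q.1 i = (none, T.memBlank)) :
    ∃ p, psi T n R p = q := by
  refine ⟨(fun j => q.1 (((j : ℕ) : ℤ) - T.pad), q.2), ?_⟩
  apply Prod.ext
  · funext i
    show (if h : 0 ≤ i + T.pad ∧ i + T.pad < n + 2 * T.pad + 1
      then q.1 ((((i + T.pad).toNat : ℕ) : ℤ) - T.pad) else (none, T.memBlank)) = q.1 i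
    by_cases h : 0 ≤ i + T.pad ∧ i + T.pad < n + 2 * T.pad + 1
    · rw [dif_pos h]
      have e1 : (((i + T.pad).toNat : ℕ) : ℤ) - T.pad = i := by omega
      rw [e1]
    · rw [dif_neg h, hq i (by omega)]
  · rfl

/-- words without the letter `3` -/
theorem no_three (e : List (Fin 4)) (h : (3 : Fin 4) ∉ e) :
    ∃ z : List (Fin 3), z.map Fin.castSucc = e := by
  induction e with
  | nil => exact ⟨[], rfl⟩
  | cons b e ih =>
    rw [List.mem_cons, not_or] at h
    obtain ⟨z, hz⟩ := ih h.2
    have hb : ∀ b : Fin 4, 3 ≠ b → ∃ a : Fin 3, a.castSucc = b := by decide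
    obtain ⟨a, ha⟩ := hb b h.1
    exact ⟨a :: z, by rw [List.map_cons, ha, hz]⟩

open Classical in
/-- the answer read off from the local state -/
noncomputable def outp (R : ℕ) (q : Lam T R) : Bool :=
  decide (∃ i : ℕ, (q.1 (i : ℤ)).1 = some 3)

theorem outp_eq (R : ℕ) (hR : 0 < R) (C : Config T) (e : List (Fin 4)) (h : T.Outputs C e) :
    outp T R (proj T R hR C).loc = true ↔ (3 : Fin 4) ∈ e := by
  classical
  unfold outp
  rw [decide_eq_true_eq, List.mem_iff_getElem?]
  constructor
  · rintro ⟨i, hi⟩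
    refine ⟨i, ?_⟩
    rw [← h i]
    exact hi
  · rintro ⟨i, hi⟩
    refine ⟨i, ?_⟩
    have := h i
    rw [hi] at this
    exact this

include hlen hsurj hn in
theorem lim_of_learns [Nontrivial W] (hinj : Function.Injective word)
    (hT : T.Learns famI famL) :
    Lim (msys T word (T.c * (n + 1)))
      (ini (l₀ T (T.c * (n + 1) + 1) (Nat.succ_pos _)) (g₀ T (T.c * (n + 1) + 1))).toCfg
      (outp T (T.c * (n + 1) + 1)) := by
  have hI : List.replicate n (3 : Fin 4) ∈ famI := by
    rw [mem_famI]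
    intro h
    have := congrArg List.length h
    rw [List.length_replicate, List.length_nil] at this
    omega
  constructor
  · intro g hg
    obtain ⟨k₀, hk₀⟩ := eventually_atTop.mp
      (hT _ hI _ (text_full word n hlen hsurj hn g hg)).2
    refine ⟨k₀, fun k hk => ?_⟩
    obtain ⟨e', he', ho, hL⟩ := hk₀ k hk
    rw [← conf_run T word n hlen, outp_eq T _ _ _ e' ho]
    by_contra hcon
    obtain ⟨z, rfl⟩ := no_three e' hcon
    have h1 : ∀ x : List (Fin 3), (x.length = z.length ∧ x ≠ z) ↔ x.length = n := by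
      intro x
      rw [← famL_miss, hL, famL_full (rep_ne hn), List.length_replicate]
    have h2 := (h1 (List.replicate n 0)).mpr (List.length_replicate)
    rw [List.length_replicate] at h2
    exact ((h1 z).mpr h2.1.symm).2 rfl
  · intro g x hg
    have hI' : (word x).map Fin.castSucc ∈ famI := by
      rw [mem_famI]
      intro h
      rw [List.map_eq_nil_iff] at h
      have := hlen x
      rw [h, List.length_nil] at this
      omega
    obtain ⟨k₀, hk₀⟩ := eventually_atTop.mp
      (hT _ hI' _ (text_miss word n hlen hsurj hinj g x hg)).2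
    refine ⟨k₀, fun k hk => ?_⟩
    obtain ⟨e', he', ho, hL⟩ := hk₀ k hk
    rw [← conf_run T word n hlen]
    rw [← Bool.not_eq_true, outp_eq T _ _ _ e' ho]
    intro hmem
    have hfull : ∀ z : List (Fin 3), z.map Fin.castSucc ≠ e' := by
      intro z hz
      rw [← hz, List.mem_map] at hmem
      obtain ⟨a, _, ha⟩ := hmem
      exact castSucc_ne a ha
    have h1 : ∀ z : List (Fin 3), z.length = e'.length ↔ (z.length = n ∧ z ≠ word x) := by
      intro z
      rw [← famL_full hfull, hL, famL_miss, hlen]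
    obtain ⟨w, hw⟩ := exists_ne x
    have h2 := (h1 (word w)).mpr ⟨hlen w, fun h => hw (hinj h)⟩
    rw [hlen] at h2
    exact ((h1 (word x)).mp (by rw [hlen]; exact h2)).2 rfl

end main

theorem card_tab (m : ℕ) : Fintype.card (Tab (3 ^ m)) =
    Fintype.card (Fin (2 * m + 1) → Fin 3) := by
  rw [Fintype.card_prod, Fintype.card_prod, ZMod.card, Fintype.card_fun, Fintype.card_fin,
    Fintype.card_fin, ← pow_succ, ← pow_add]
  congr 1
  ring

/-- The lower bound. -/
theorem no_learner : ¬ ∃ T : Machine (Fin 3) (Fin 4) 1, T.Learns famI famL := by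
  classical
  rintro ⟨T, hT⟩
  have := T.finMem
  have := T.finWork
  have : Fintype T.Mem := Fintype.ofFinite _
  have : Fintype T.Work := Fintype.ofFinite _
  obtain ⟨Mc, hMc⟩ : ∃ Mc, Mc = Fintype.card T.Mem := ⟨_, rfl⟩
  obtain ⟨Wc, hWc⟩ : ∃ Wc, Wc = Fintype.card T.Work := ⟨_, rfl⟩
  have hMc0 : 0 < Mc := by rw [hMc]; exact Fintype.card_pos_iff.mpr ⟨T.memBlank⟩
  have hWc0 : 0 < Wc := by rw [hWc]; exact Fintype.card_pos_iff.mpr ⟨T.workBlank⟩
  obtain ⟨B₁, hB₁⟩ : ∃ B₁, B₁ = (5 * Mc) ^ (4 + 2 * T.pad) * 2 ^ (4 * T.c + 1) := ⟨_, rfl⟩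
  obtain ⟨B₂, hB₂⟩ : ∃ B₂, B₂ = Wc ^ (4 * T.c + 1) := ⟨_, rfl⟩
  obtain ⟨m₀, hm₀⟩ := abstract_main (B₁ + B₂)
  obtain ⟨m, hm⟩ : ∃ m, m = m₀ + 1 := ⟨_, rfl⟩
  have hm1 : 1 ≤ m := by omega
  obtain ⟨n, hn⟩ : ∃ n, n = 2 * m + 1 := ⟨_, rfl⟩
  have hnpos : 0 < n := by omega
  have : NeZero (3 ^ m) := ⟨by positivity⟩
  have : Nontrivial (Tab (3 ^ m)) := by
    refine ⟨⟨(0, 0, 0), (0, 0, 1), ?_⟩⟩
    intro h
    simp only [Prod.mk.injEq] at h
    exact absurd h.2.2 (by decide)
  obtain ⟨e⟩ : Nonempty (Tab (3 ^ m) ≃ (Fin (2 * m + 1) → Fin 3)) :=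
    Fintype.card_eq.mp (card_tab m)
  let word : Tab (3 ^ m) → List (Fin 3) := fun w => List.ofFn (e w)
  have hlen : ∀ w, (word w).length = n := fun w => by
    simp only [word]
    rw [List.length_ofFn, hn]
  have hinj : Function.Injective word := fun w w' h => by
    have h1 : e w = e w' := List.ofFn_injective h
    exact e.injective h1
  have hsurj : ∀ x : List (Fin 3), x.length = n → ∃ w, word w = x := by
    intro x hx
    refine ⟨e.symm (fun i => x.get (Fin.cast (by rw [hx, hn]) i)), ?_⟩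
    simp only [word]
    rw [Equiv.apply_symm_apply]
    apply List.ext_get
    · rw [List.length_ofFn, hx, hn]
    · intro i h1 h2
      rw [List.get_ofFn]
      rfl
  have hLim := lim_of_learns T word n hlen hsurj hnpos hinj hT
  let F : Finset (Lam T (T.c * (n + 1) + 1)) :=
    Finset.univ.image (psi T n (T.c * (n + 1) + 1))
  refine hm₀ m (by omega) (Lam T (T.c * (n + 1) + 1)) (Gam T (T.c * (n + 1) + 1))
    (msys T word (T.c * (n + 1))) (l₀ T (T.c * (n + 1) + 1) (Nat.succ_pos _))
    (g₀ T (T.c * (n + 1) + 1)) (outp T (T.c * (n + 1) + 1)) F ?_ ?_ ?_ hLim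
  · intro θ k
    rw [erun_toCfg, ← conf_run T word n hlen]
    obtain ⟨p, hp⟩ := mem_psi T n (T.c * (n + 1) + 1)
      (proj T (T.c * (n + 1) + 1) (Nat.succ_pos _) (T.conf (fun j => word
        ((msys T word (T.c * (n + 1))).txt θ (ini (l₀ T (T.c * (n + 1) + 1) (Nat.succ_pos _))
          (g₀ T (T.c * (n + 1) + 1))) j)) k)).loc
      (fun i hi => support T word n hlen hsurj hnpos hT _ k i hi)
    rw [← hp]
    exact Finset.mem_image_of_mem _ (Finset.mem_univ _)
  · have h1 : F.card ≤ (5 * Mc) ^ (n + 2 * T.pad + 1) * (T.c * (n + 1) + 1) := by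
      refine Finset.card_image_le.trans (le_of_eq ?_)
      rw [Finset.card_univ, Fintype.card_prod, Fintype.card_fun, Fintype.card_prod,
        Fintype.card_option, Fintype.card_fin, Fintype.card_fin, Fintype.card_fin, hMc]
    have h2 : n + 2 * T.pad + 1 ≤ (4 + 2 * T.pad) * m := by
      rw [hn]; nlinarith
    have h3 : T.c * (n + 1) + 1 ≤ (4 * T.c + 1) * m := by
      rw [hn]; nlinarith
    have h4 : T.c * (n + 1) + 1 ≤ 2 ^ ((4 * T.c + 1) * m) :=
      h3.trans (Nat.lt_pow_self (by norm_num)).le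
    have h5 : B₁ ≤ 3 ^ (B₁ + B₂) :=
      (Nat.le_add_right _ _).trans (Nat.lt_pow_self (by norm_num)).le
    calc F.card ≤ (5 * Mc) ^ (n + 2 * T.pad + 1) * (T.c * (n + 1) + 1) := h1
      _ ≤ (5 * Mc) ^ ((4 + 2 * T.pad) * m) * 2 ^ ((4 * T.c + 1) * m) :=
          Nat.mul_le_mul (Nat.pow_le_pow_right (by omega) h2) h4
      _ = B₁ ^ m := by
          rw [hB₁, pow_mul (5 * Mc), pow_mul 2, ← mul_pow]
      _ ≤ (3 ^ (B₁ + B₂)) ^ m := Nat.pow_le_pow_left h5 _
      _ = (3 ^ m) ^ (B₁ + B₂) := by rw [← pow_mul, ← pow_mul, mul_comm]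
  · have h1 : Fintype.card (Gam T (T.c * (n + 1) + 1)) = Wc ^ (T.c * (n + 1) + 1) := by
      rw [Fintype.card_fun, Fintype.card_fin, hWc]
    have h3 : T.c * (n + 1) + 1 ≤ (4 * T.c + 1) * m := by
      rw [hn]; nlinarith
    have h5 : B₂ ≤ 3 ^ (B₁ + B₂) :=
      (Nat.le_add_left _ _).trans (Nat.lt_pow_self (by norm_num)).le
    calc Fintype.card (Gam T (T.c * (n + 1) + 1)) = Wc ^ (T.c * (n + 1) + 1) := h1
      _ ≤ Wc ^ ((4 * T.c + 1) * m) := Nat.pow_le_pow_right hWc0 h3
      _ = B₂ ^ m := by rw [hB₂, ← pow_mul]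
      _ ≤ (3 ^ (B₁ + B₂)) ^ m := Nat.pow_le_pow_left h5 _
      _ = (3 ^ m) ^ (B₁ + B₂) := by rw [← pow_mul, ← pow_mul, mul_comm]

end Pool.Agent.Lib.MP_e130ca_lc
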