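import Mathlib

/-!
A rectangle lemma for pairs of words over a three-letter alphabet: a rectangle without a pair
having exactly one agreement contains at most `4 ^ n` pairs without agreement.
-/

namespace Pool.Agent.Lib.MP_e130ca_lc

/-- number of agreements -/
def ag {n : ℕ} (α β : Fin n → Fin 3) : ℕ := ∑ j, if α j = β j then 1 else 0

/-- number of pairs without agreement in the rectangle `A × B` -/
def rc (n : ℕ) (A B : (Fin n → Fin 3) → Bool) : ℕ :=
  ∑ α, ∑ β, if (A α = true ∧ B β = true ∧ ag α β = 0) then 1 else 0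

theorem ag_cons {n : ℕ} (x y : Fin 3) (α β : Fin n → Fin 3) :
    ag (Fin.cons x α : Fin (n + 1) → Fin 3) (Fin.cons y β) = (if x = y then 1 else 0) + ag α β := by
  unfold ag
  rw [Fin.sum_univ_succ]
  simp

theorem sum_cons {n : ℕ} (f : (Fin (n + 1) → Fin 3) → ℕ) :
    ∑ α, f α = ∑ x : Fin 3, ∑ α : Fin n → Fin 3, f (Fin.cons x α) := by
  rw [← (Fin.consEquiv (fun _ : Fin (n + 1) => Fin 3)).sum_comp, Fintype.sum_prod_type]
  rfl

theorem bool_ineq : ∀ a b : Fin 3 → Bool, (∀ x, ¬ (a x = true ∧ b x = true)) →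
    3 * (∑ x, ∑ y, if (a x = true ∧ b y = true ∧ x ≠ y) then 1 else 0) ≤
    2 * ∑ x, ((if (a x = true ∧ (b (x + 1) || b (x + 2)) = true) then 1 else 0) +
      (if ((a (x + 1) || a (x + 2)) = true ∧ b x = true) then 1 else 0)) := by
  decide

theorem ne1 : ∀ x : Fin 3, ¬ (x = x + 1) := by decide
theorem ne2 : ∀ x : Fin 3, ¬ (x = x + 2) := by decide

theorem rc_le : ∀ (n : ℕ) (A B : (Fin n → Fin 3) → Bool),
    (∀ α β, A α = true → B β = true → ag α β ≠ 1) → rc n A B ≤ 4 ^ n := by
  intro n
  induction n with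
  | zero =>
    intro A B _
    unfold rc
    simp only [Finset.univ_unique, Finset.sum_singleton, pow_zero]
    split_ifs <;> omega
  | succ n ih =>
    intro A B h
    have key : ∀ α β : Fin n → Fin 3,
        3 * (∑ x, ∑ y, if (A (Fin.cons x α) = true ∧ B (Fin.cons y β) = true ∧
          ag (Fin.cons x α : Fin (n + 1) → Fin 3) (Fin.cons y β) = 0) then 1 else 0) ≤
        2 * ∑ x : Fin 3, ((if (A (Fin.cons x α) = true ∧
            (B (Fin.cons (x + 1) β) || B (Fin.cons (x + 2) β)) = true ∧ ag α β = 0)
              then 1 else 0) +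
          (if ((A (Fin.cons (x + 1) α) || A (Fin.cons (x + 2) α)) = true ∧
            B (Fin.cons x β) = true ∧ ag α β = 0) then 1 else 0)) := by
      intro α β
      by_cases h0 : ag α β = 0
      · have hd : ∀ x, ¬ (A (Fin.cons x α) = true ∧ B (Fin.cons x β) = true) := by
          rintro x ⟨h1, h2⟩
          apply h _ _ h1 h2
          rw [ag_cons, if_pos rfl, h0]
        have hb := bool_ineq (fun x => A (Fin.cons x α)) (fun x => B (Fin.cons x β)) hd
        have e1 : ∀ x y : Fin 3, ((if x = y then 1 else 0) + 0 = 0) ↔ x ≠ y := by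
          intro x y
          by_cases hxy : x = y
          · simp [hxy]
          · simp [hxy]
        simp only [ag_cons, h0, e1, and_true]
        exact hb
      · have e1 : ∀ x y : Fin 3, ¬ ((if x = y then 1 else 0) + ag α β = 0) := by
          intro x y
          omega
        simp only [ag_cons, e1, and_false, if_false, Finset.sum_const_zero, mul_zero]
        exact Nat.zero_le _
    have h1 : rc (n + 1) A B = ∑ α : Fin n → Fin 3, ∑ β : Fin n → Fin 3,
        (∑ x, ∑ y, if (A (Fin.cons x α) = true ∧ B (Fin.cons y β) = true ∧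
          ag (Fin.cons x α : Fin (n + 1) → Fin 3) (Fin.cons y β) = 0) then 1 else 0) := by
      unfold rc
      rw [sum_cons, Finset.sum_comm]
      apply Finset.sum_congr rfl
      intro α _
      rw [Finset.sum_comm]
      have e2 : ∀ x : Fin 3, (∑ β : Fin (n + 1) → Fin 3,
          if (A (Fin.cons x α) = true ∧ B β = true ∧
            ag (Fin.cons x α : Fin (n + 1) → Fin 3) β = 0) then 1 else 0) =
          ∑ β : Fin n → Fin 3, ∑ y : Fin 3, if (A (Fin.cons x α) = true ∧
            B (Fin.cons y β) = true ∧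
          ag (Fin.cons x α : Fin (n + 1) → Fin 3) (Fin.cons y β) = 0) then 1 else 0 := by
        intro x
        rw [sum_cons, Finset.sum_comm]
      rw [Finset.sum_comm]
      simp only [e2]
      rw [Finset.sum_comm]
    have h2 : ∀ x : Fin 3, rc n (fun α => A (Fin.cons x α))
        (fun β => B (Fin.cons (x + 1) β) || B (Fin.cons (x + 2) β)) ≤ 4 ^ n := by
      intro x
      apply ih
      intro α β hα hβ hag
      rcases (Bool.or_eq_true _ _).mp hβ with hβ | hβ
      · apply h _ _ hα hβ
        rw [ag_cons, if_neg (ne1 x), hag]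
      · apply h _ _ hα hβ
        rw [ag_cons, if_neg (ne2 x), hag]
    have h3 : ∀ x : Fin 3, rc n (fun α => A (Fin.cons (x + 1) α) || A (Fin.cons (x + 2) α))
        (fun β => B (Fin.cons x β)) ≤ 4 ^ n := by
      intro x
      apply ih
      intro α β hα hβ hag
      rcases (Bool.or_eq_true _ _).mp hα with hα | hα
      · apply h _ _ hα hβ
        rw [ag_cons, if_neg (fun h' => ne1 x h'.symm), hag]
      · apply h _ _ hα hβ
        rw [ag_cons, if_neg (fun h' => ne2 x h'.symm), hag]
    have h4 : 3 * rc (n + 1) A B ≤ 2 * ∑ x : Fin 3,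
        (rc n (fun α => A (Fin.cons x α))
          (fun β => B (Fin.cons (x + 1) β) || B (Fin.cons (x + 2) β)) +
        rc n (fun α => A (Fin.cons (x + 1) α) || A (Fin.cons (x + 2) α))
          (fun β => B (Fin.cons x β))) := by
      have e3 : ∑ x : Fin 3,
          (rc n (fun α => A (Fin.cons x α))
            (fun β => B (Fin.cons (x + 1) β) || B (Fin.cons (x + 2) β)) +
          rc n (fun α => A (Fin.cons (x + 1) α) || A (Fin.cons (x + 2) α))
            (fun β => B (Fin.cons x β))) =
          ∑ α : Fin n → Fin 3, ∑ β : Fin n → Fin 3, ∑ x : Fin 3, ((if (A (Fin.cons x α) = true ∧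
            (B (Fin.cons (x + 1) β) || B (Fin.cons (x + 2) β)) = true ∧ ag α β = 0)
              then 1 else 0) +
          (if ((A (Fin.cons (x + 1) α) || A (Fin.cons (x + 2) α)) = true ∧
            B (Fin.cons x β) = true ∧ ag α β = 0) then 1 else 0)) := by
        unfold rc
        simp only [← Finset.sum_add_distrib]
        rw [Finset.sum_comm]
        apply Finset.sum_congr rfl
        intro α _
        rw [Finset.sum_comm]
      rw [e3, h1, Finset.mul_sum, Finset.mul_sum]
      apply Finset.sum_le_sum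
      intro α _
      rw [Finset.mul_sum, Finset.mul_sum]
      apply Finset.sum_le_sum
      intro β _
      exact key α β
    have h5 : ∑ x : Fin 3,
        (rc n (fun α => A (Fin.cons x α))
          (fun β => B (Fin.cons (x + 1) β) || B (Fin.cons (x + 2) β)) +
        rc n (fun α => A (Fin.cons (x + 1) α) || A (Fin.cons (x + 2) α))
          (fun β => B (Fin.cons x β))) ≤ ∑ _x : Fin 3, (4 ^ n + 4 ^ n) :=
      Finset.sum_le_sum (fun x _ => add_le_add (h2 x) (h3 x))
    simp only [Finset.sum_const, Finset.card_univ, Fintype.card_fin, smul_eq_mul] at h5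
    rw [pow_succ]
    omega

/-- Pairs of different letters. -/
abbrev P6 := {p : Fin 3 × Fin 3 // p.1 ≠ p.2}

theorem card_P6 : Fintype.card P6 = 6 := by decide

/-- The rectangle lemma. -/
theorem rect {ι : Type*} [Fintype ι] [DecidableEq ι] (C : Finset (ι → P6))
    (hC : 4 ^ (Fintype.card ι) < C.card) :
    ∃ γ ∈ C, ∃ γ' ∈ C, ∃ j, (γ j).1.1 = (γ' j).1.2 ∧ ∀ i, i ≠ j → (γ i).1.1 ≠ (γ' i).1.2 := by
  classical
  by_contra hcon
  push Not at hcon
  set n := Fintype.card ι with hn
  let e : ι ≃ Fin n := Fintype.equivFin ι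
  let A : (Fin n → Fin 3) → Bool := fun α => decide (∃ γ ∈ C, ∀ j, (γ (e.symm j)).1.1 = α j)
  let B : (Fin n → Fin 3) → Bool := fun β => decide (∃ γ ∈ C, ∀ j, (γ (e.symm j)).1.2 = β j)
  have hle : rc n A B ≤ 4 ^ n := by
    apply rc_le
    intro α β hα hβ hag
    obtain ⟨γ, hγ, h1⟩ := of_decide_eq_true hα
    obtain ⟨γ', hγ', h2⟩ := of_decide_eq_true hβ
    have hsum : ∑ j, (if α j = β j then 1 else 0) = 1 := hag
    rw [← Finset.card_filter] at hsum
    obtain ⟨j, hj⟩ := Finset.card_eq_one.mp hsum
    have hmem : ∀ i, α i = β i ↔ i = j := by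
      intro i
      have : i ∈ Finset.univ.filter (fun j => α j = β j) ↔ i ∈ ({j} : Finset (Fin n)) := by
        rw [hj]
      simpa using this
    obtain ⟨i, hi, hi'⟩ := hcon γ hγ γ' hγ' (e.symm j) (by
      rw [h1, h2]; exact (hmem j).mpr rfl)
    apply hi
    have h3 := h1 (e i)
    have h4 := h2 (e i)
    rw [Equiv.symm_apply_apply] at h3 h4
    rw [h3, h4] at hi'
    have := (hmem (e i)).mp hi'
    rw [← this, Equiv.symm_apply_apply]
  have hge : C.card ≤ rc n A B := by
    have hrc : rc n A B = (Finset.univ.filter (fun p : (Fin n → Fin 3) × (Fin n → Fin 3) =>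
        A p.1 = true ∧ B p.2 = true ∧ ag p.1 p.2 = 0)).card := by
      unfold rc
      rw [Finset.card_filter, Fintype.sum_prod_type]
    rw [hrc]
    apply Finset.card_le_card_of_injOn
      (fun γ => (fun j => (γ (e.symm j)).1.1, fun j => (γ (e.symm j)).1.2))
    · intro γ hγ
      have hγ' : γ ∈ C := hγ
      simp only [Finset.coe_filter, Finset.mem_univ, true_and, Set.mem_ofPred_eq]
      refine ⟨decide_eq_true ⟨γ, hγ', fun j => rfl⟩, decide_eq_true ⟨γ, hγ', fun j => rfl⟩, ?_⟩
      unfold ag
      apply Finset.sum_eq_zero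
      intro j _
      rw [if_neg (γ (e.symm j)).2]
    · intro γ _ γ' _ h
      simp only [Prod.mk.injEq] at h
      funext i
      apply Subtype.ext
      apply Prod.ext
      · have := congrFun h.1 (e i)
        simpa using this
      · have := congrFun h.2 (e i)
        simpa using this
  omega

end Pool.Agent.Lib.MP_e130ca_lc
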