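import Pool.Agent.Lib.MP_e130ca_lc.Run

/-!
Hybrids of two and of three runs of the same system.
-/

namespace Pool.Agent.Lib.MP_e130ca_lc

open Set

variable {Λ G W : Type*}

theorem shift_zero (c : ECfg Λ G) : c.shift 0 = c := by
  apply ECfg.ext
  · rfl
  · show c.pos + 0 = c.pos
    ring
  · funext i
    show c.tape (i - 0) = c.tape i
    rw [sub_zero]
  · funext i
    show c.cnt (i - 0) = c.cnt i
    rw [sub_zero]

/-- Pasting of a shifted run into an unshifted run. -/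
theorem erun_paste (M : Sys Λ G W) (l : Λ) (g : G) (θA θB : ℤ → ℕ → W) (S P : Set ℤ)
    (hP : Deep S P) (z : ℤ) (hz : z = 0 ∨ (z ∉ S ∧ (0 : ℤ) ∉ S)) (s s' : ℕ)
    (hr : recd S (fun s => (M.erun θA (ini l g) s).shift z) s
      = recd S (M.erun θB (ini l g)) s') :
    (((M.erun θA (ini l g) s).shift z).pos ∈ S ↔ (M.erun θB (ini l g) s').pos ∈ S) ∧
      ∃ t, M.erun (hybStrat S (fun i t => θA (i - z) t) θB) (ini l g) t
          = hyb S ((M.erun θA (ini l g) s).shift z) (M.erun θB (ini l g) s') ∧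
        recd P (M.erun (hybStrat S (fun i t => θA (i - z) t) θB) (ini l g)) t
          = recd P (M.erun θB (ini l g)) s' := by
  apply paste M (fun i t => θA (i - z) t) θB S
    (fun s => (M.erun θA (ini l g) s).shift z) (M.erun θB (ini l g))
    (M.erun (hybStrat S (fun i t => θA (i - z) t) θB) (ini l g))
  · intro s
    exact (estep_shift M θA _ z).symm
  · intro s; rfl
  · intro s; rfl
  · show ini l g = hyb S ((ini l g).shift z) (ini l g)
    have hp : ((ini l g : ECfg Λ G).shift z).pos = z := by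
      show (0 : ℤ) + z = z
      ring
    rcases hz with hz | ⟨hz, h0⟩
    · subst hz
      rw [shift_zero]
      apply ECfg.ext'
      · by_cases h : (ini l g : ECfg Λ G).pos ∈ S
        · rw [hyb_loc_in h]
        · rw [hyb_loc_out h]
      · by_cases h : (ini l g : ECfg Λ G).pos ∈ S
        · rw [hyb_pos_in h]
        · rw [hyb_pos_out h]
      · intro i
        by_cases h : (ini l g : ECfg Λ G).pos ∈ S
        · by_cases hi : Nb S i
          · rw [hyb_tape_in h hi]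
          · rw [hyb_tape_in' h hi]
        · by_cases hi : Nb Sᶜ i
          · rw [hyb_tape_out h hi]
          · rw [hyb_tape_out' h hi]
      · intro i
        by_cases hi : i ∈ S
        · rw [hyb_cnt_in hi]
        · rw [hyb_cnt_out hi]
    · have h : ((ini l g : ECfg Λ G).shift z).pos ∉ S := by rw [hp]; exact hz
      apply ECfg.ext'
      · rw [hyb_loc_out h]
      · rw [hyb_pos_out h]
      · intro i
        by_cases hi : Nb Sᶜ i
        · rw [hyb_tape_out h hi]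
        · rw [hyb_tape_out' h hi]; rfl
      · intro i
        by_cases hi : i ∈ S
        · rw [hyb_cnt_in hi]; rfl
        · rw [hyb_cnt_out hi]
  · show (0 : ℤ) + z ∈ S ↔ (0 : ℤ) ∈ S
    rw [zero_add]
    rcases hz with rfl | ⟨hz, h0⟩
    · rfl
    · exact ⟨fun h => absurd h hz, fun h => absurd h h0⟩
  · exact hP
  · exact match_of_recd s s' hr

/-- Pasting of unshifted runs. -/
theorem erun_paste' (M : Sys Λ G W) (l : Λ) (g : G) (θA θB : ℤ → ℕ → W) (S : Set ℤ)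
    (s s' : ℕ)
    (hr : recd S (M.erun θA (ini l g)) s = recd S (M.erun θB (ini l g)) s') :
    ((M.erun θA (ini l g) s).pos ∈ S ↔ (M.erun θB (ini l g) s').pos ∈ S) ∧
      ∃ t, M.erun (hybStrat S θA θB) (ini l g) t
          = hyb S (M.erun θA (ini l g) s) (M.erun θB (ini l g) s') := by
  have hz : ∀ c : ECfg Λ G, c.shift 0 = c := shift_zero
  have h := erun_paste M l g θA θB S Set.univ (fun _ _ _ _ => trivial) 0 (Or.inl rfl) s s'
    (by simpa only [hz] using hr)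
  simp only [hz, sub_zero] at h
  obtain ⟨h1, t, ht, _⟩ := h
  exact ⟨h1, t, ht⟩

/-- Items presented in the cells of `S`. -/
def part (S : Set ℤ) (θ : ℤ → ℕ → W) (c : ℤ → ℕ) : Set W :=
  {w | ∃ i ∈ S, ∃ t, t < c i ∧ θ i t = w}

/-- The three-way hybrid. -/
theorem tri_aux (M : Sys Λ G W) (l : Λ) (g : G) (θQ θb θa : ℤ → ℕ → W) (Q P : Set ℤ)
    (hP : Deep Q P) (z : ℤ) (hz : z = 0 ∨ (z ∉ Q ∧ (0 : ℤ) ∉ Q)) (s sb sa : ℕ)
    (hr : recd Q (fun s => (M.erun θQ (ini l g) s).shift z) s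
      = recd Q (M.erun θb (ini l g)) sb)
    (hr' : recd P (M.erun θb (ini l g)) sb = recd P (M.erun θa (ini l g)) sa)
    (hfin : ((M.erun θQ (ini l g) s).shift z).pos ∈ Q) :
    ∃ (θ : ℤ → ℕ → W) (t : ℕ),
      (M.erun θ (ini l g) t).loc = ((M.erun θQ (ini l g) s).shift z).loc ∧
      (M.erun θ (ini l g) t).pos = ((M.erun θQ (ini l g) s).shift z).pos ∧
      (∀ i, Nb Q i → (M.erun θ (ini l g) t).tape i
        = ((M.erun θQ (ini l g) s).shift z).tape i) ∧
      (∀ i, ¬ Nb Q i → Nb P i → (M.erun θ (ini l g) t).tape i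
        = (M.erun θb (ini l g) sb).tape i) ∧
      (∀ i, ¬ Nb Q i → ¬ Nb P i → (M.erun θ (ini l g) t).tape i
        = (M.erun θa (ini l g) sa).tape i) ∧
      M.cont θ (ini l g) t =
        part Q (fun i t => θQ (i - z) t) ((M.erun θQ (ini l g) s).shift z).cnt ∪
        part (P \ Q) θb (M.erun θb (ini l g) sb).cnt ∪
        part Pᶜ θa (M.erun θa (ini l g) sa).cnt := by
  classical
  obtain ⟨-, t₁, ht₁, hr₁⟩ := erun_paste M l g θQ θb Q P hP z hz s sb hr
  set θ₁ := hybStrat Q (fun i t => θQ (i - z) t) θb with hθ₁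
  rw [hr'] at hr₁
  obtain ⟨-, t₂, ht₂⟩ := erun_paste' M l g θ₁ θa P t₁ sa hr₁
  have hQP : ∀ i ∈ Q, i ∈ P := fun i hi => hP i hi i (by simp)
  have hNb : ∀ i, Nb Q i → Nb P i := by
    rintro i ⟨j, hj, hji⟩
    exact ⟨j, hQP j hj, hji⟩
  have hpos₁ : (M.erun θ₁ (ini l g) t₁).pos = ((M.erun θQ (ini l g) s).shift z).pos := by
    rw [ht₁, hyb_pos_in hfin]
  have hin : (M.erun θ₁ (ini l g) t₁).pos ∈ P := by
    rw [hpos₁]; exact hQP _ hfin
  refine ⟨hybStrat P θ₁ θa, t₂, ?_, ?_, ?_, ?_, ?_, ?_⟩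
  · rw [ht₂, hyb_loc_in hin, ht₁, hyb_loc_in hfin]
  · rw [ht₂, hyb_pos_in hin, hpos₁]
  · intro i hi
    rw [ht₂, hyb_tape_in hin (hNb i hi), ht₁, hyb_tape_in hfin hi]
  · intro i hi hi'
    rw [ht₂, hyb_tape_in hin hi', ht₁, hyb_tape_in' hfin hi]
  · intro i hi hi'
    rw [ht₂, hyb_tape_in' hin hi']
  · have hcnt : ∀ i, (M.erun (hybStrat P θ₁ θa) (ini l g) t₂).cnt i =
        if i ∈ Q then ((M.erun θQ (ini l g) s).shift z).cnt i
        else if i ∈ P then (M.erun θb (ini l g) sb).cnt i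
        else (M.erun θa (ini l g) sa).cnt i := by
      intro i
      by_cases hQ : i ∈ Q
      · rw [if_pos hQ, ht₂, hyb_cnt_in (hQP i hQ), ht₁, hyb_cnt_in hQ]
      · rw [if_neg hQ]
        by_cases hPi : i ∈ P
        · rw [if_pos hPi, ht₂, hyb_cnt_in hPi, ht₁, hyb_cnt_out hQ]
        · rw [if_neg hPi, ht₂, hyb_cnt_out hPi]
    have hstr : ∀ i t, hybStrat P θ₁ θa i t =
        if i ∈ Q then θQ (i - z) t else if i ∈ P then θb i t else θa i t := by
      intro i t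
      by_cases hQ : i ∈ Q
      · simp [hybStrat, hθ₁, hQ, hQP i hQ]
      · by_cases hPi : i ∈ P
        · simp [hybStrat, hθ₁, hQ, hPi]
        · simp [hybStrat, hQ, hPi]
    ext w
    simp only [Sys.cont, part, Set.mem_union, Set.mem_ofPred_eq, hcnt, hstr]
    constructor
    · rintro ⟨i, t, ht, hw⟩
      by_cases hQ : i ∈ Q
      · rw [if_pos hQ] at ht hw
        exact Or.inl (Or.inl ⟨i, hQ, t, ht, hw⟩)
      · rw [if_neg hQ] at ht hw
        by_cases hPi : i ∈ P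
        · rw [if_pos hPi] at ht hw
          exact Or.inl (Or.inr ⟨i, ⟨hPi, hQ⟩, t, ht, hw⟩)
        · rw [if_neg hPi] at ht hw
          exact Or.inr ⟨i, hPi, t, ht, hw⟩
    · rintro ((⟨i, hi, t, ht, hw⟩ | ⟨i, ⟨hi, hi'⟩, t, ht, hw⟩) | ⟨i, hi, t, ht, hw⟩)
      · exact ⟨i, t, by rw [if_pos hi]; exact ht, by rw [if_pos hi]; exact hw⟩
      · exact ⟨i, t, by rw [if_neg hi', if_pos hi]; exact ht,
          by rw [if_neg hi', if_pos hi]; exact hw⟩
      · have hi' : i ∉ Q := fun h => hi (hQP i h)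
        exact ⟨i, t, by rw [if_neg hi', if_neg hi]; exact ht,
          by rw [if_neg hi', if_neg hi]; exact hw⟩

/-- Exchange of the inner part does not change the set of items read. -/
theorem tri [Countable W] [Nontrivial W] {M : Sys Λ G W} {l : Λ} {g : G} {out : Λ → Bool}
    (H : Lim M (ini l g).toCfg out) (θ₁ θ₂ θb θa : ℤ → ℕ → W) (Q P : Set ℤ)
    (hP : Deep Q P) (z₁ z₂ : ℤ) (hz₁ : z₁ = 0 ∨ (z₁ ∉ Q ∧ (0 : ℤ) ∉ Q))
    (hz₂ : z₂ = 0 ∨ (z₂ ∉ Q ∧ (0 : ℤ) ∉ Q)) (s₁ s₂ sb sa : ℕ)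
    (hr₁ : recd Q (fun s => (M.erun θ₁ (ini l g) s).shift z₁) s₁
      = recd Q (M.erun θb (ini l g)) sb)
    (hr₂ : recd Q (fun s => (M.erun θ₂ (ini l g) s).shift z₂) s₂
      = recd Q (M.erun θb (ini l g)) sb)
    (hr' : recd P (M.erun θb (ini l g)) sb = recd P (M.erun θa (ini l g)) sa)
    (hfin : ((M.erun θ₁ (ini l g) s₁).shift z₁).pos ∈ Q)
    (hloc : ((M.erun θ₁ (ini l g) s₁).shift z₁).loc = ((M.erun θ₂ (ini l g) s₂).shift z₂).loc)
    (hpos : ((M.erun θ₁ (ini l g) s₁).shift z₁).pos = ((M.erun θ₂ (ini l g) s₂).shift z₂).pos)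
    (htape : ∀ i, Nb Q i → ((M.erun θ₁ (ini l g) s₁).shift z₁).tape i
      = ((M.erun θ₂ (ini l g) s₂).shift z₂).tape i) :
    part Q (fun i t => θ₁ (i - z₁) t) ((M.erun θ₁ (ini l g) s₁).shift z₁).cnt ∪
        part (P \ Q) θb (M.erun θb (ini l g) sb).cnt ∪
        part Pᶜ θa (M.erun θa (ini l g) sa).cnt =
    part Q (fun i t => θ₂ (i - z₂) t) ((M.erun θ₂ (ini l g) s₂).shift z₂).cnt ∪
        part (P \ Q) θb (M.erun θb (ini l g) sb).cnt ∪
        part Pᶜ θa (M.erun θa (ini l g) sa).cnt := by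
  obtain ⟨θ, t, e1, e2, e3, e4, e5, e6⟩ := tri_aux M l g θ₁ θb θa Q P hP z₁ hz₁ s₁ sb sa hr₁ hr' hfin
  obtain ⟨θ', t', f1, f2, f3, f4, f5, f6⟩ := tri_aux M l g θ₂ θb θa Q P hP z₂ hz₂ s₂ sb sa hr₂ hr'
    (by rw [← hpos]; exact hfin)
  rw [← e6, ← f6]
  apply cont_inj H
  apply Cfg.ext
  · rw [e1, f1, hloc]
  · rw [e2, f2, hpos]
  · funext i
    by_cases h1 : Nb Q i
    · rw [e3 i h1, f3 i h1, htape i h1]
    · by_cases h2 : Nb P i
      · rw [e4 i h1 h2, f4 i h1 h2]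
      · rw [e5 i h1 h2, f5 i h1 h2]

end Pool.Agent.Lib.MP_e130ca_lc
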